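import Pool.Agent.Lib.ALLO.Defs
import Pool.Agent.Lib.TAO.CentreA
import Pool.Agent.Lib.LU1_h15.EtDesc

/-! # PROJECT ALL, block Z over an ordered field: `locv` -/

set_option autoImplicit false

namespace Pool.Agent.ALLZO

open Pool.Agent.TAO (OVal VPos val_add_vpos Ctx0)
open Pool.Agent.ALLO (locv)

universe u w

variable {k Ω : Type u} [Field k] [Field Ω] [Algebra k Ω]
  {𝕂 : Type w} [Field 𝕂] [LinearOrder 𝕂] [IsStrictOrderedRing 𝕂] {v : OVal 𝕂 Ω} {n : ℕ}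

theorem mem_locv {S : Subalgebra k Ω} {f : Ω} :
    f ∈ locv v S ↔ ∃ a ∈ S, ∃ b ∈ S, b ≠ 0 ∧ v b = 0 ∧ f = a / b := Iff.rfl

theorem le_locv (S : Subalgebra k Ω) : S ≤ locv v S := by
  intro f hf
  exact ⟨f, hf, 1, S.one_mem, one_ne_zero, v.map_one, by rw [div_one]⟩

theorem locv_mono {S T : Subalgebra k Ω} (h : S ≤ T) : locv v S ≤ locv v T := by
  rintro f ⟨a, ha, b, hb, h1, h2, rfl⟩
  exact ⟨a, h ha, b, h hb, h1, h2, rfl⟩

theorem locv_le {S R : Subalgebra k Ω} (h : S ≤ R) (hR : ∀ f ∈ R, f ≠ 0 → v f = 0 → f⁻¹ ∈ R) :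
    locv v S ≤ R := by
  rintro f ⟨a, ha, b, hb, h1, h2, rfl⟩
  rw [div_eq_mul_inv]
  exact R.mul_mem (h ha) (hR b (h hb) h1 h2)

theorem locv_inv {S : Subalgebra k Ω} {f : Ω} (hf : f ∈ locv v S) (h0 : f ≠ 0) (h1 : v f = 0) :
    f⁻¹ ∈ locv v S := by
  obtain ⟨a, ha, b, hb, hb0, hvb, rfl⟩ := hf
  have ha0 : a ≠ 0 := by rintro rfl; simp at h0
  refine ⟨b, hb, a, ha, ha0, ?_, by rw [inv_div]⟩
  rw [v.map_div ha0 hb0, hvb, sub_zero] at h1
  exact h1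

theorem locv_nonneg {S : Subalgebra k Ω} (hS : ∀ f ∈ S, v.Ge 0 f) :
    ∀ f ∈ locv v S, v.Ge 0 f := by
  rintro f ⟨a, ha, b, hb, h1, h2, rfl⟩ h0
  have ha0 : a ≠ 0 := by rintro rfl; simp at h0
  rw [v.map_div ha0 h1, h2, sub_zero]
  exact hS a ha ha0

theorem locv_locv {S : Subalgebra k Ω} : locv v (locv v S) = locv v S :=
  le_antisymm (locv_le le_rfl fun _ hf h0 h1 => locv_inv hf h0 h1) (le_locv _)

theorem locv_adjoin_le {S T : Set Ω} (h : ∀ f ∈ S, f ∈ locv v (Algebra.adjoin k T)) :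
    locv v (Algebra.adjoin k S) ≤ locv v (Algebra.adjoin k T) := by
  have h1 : Algebra.adjoin k S ≤ locv v (Algebra.adjoin k T) := Algebra.adjoin_le h
  have h2 := locv_mono (v := v) h1
  rwa [locv_locv] at h2

theorem Ctx0.ge (h : Ctx0 k v n) (c : k) : v.Ge 0 (algebraMap k Ω c) := by
  intro h0
  have : c ≠ 0 := by rintro rfl; simp at h0
  rw [h.triv c this]

/-- An element of the valuation ring has a residue in `k`. -/
theorem Ctx0.residue (h : Ctx0 k v n) {f : Ω} (hf : v.Ge 0 f) :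
    ∃ c : k, VPos v (f - algebraMap k Ω c) := by
  by_cases h0 : f = 0
  · exact ⟨0, by simp [h0, TAO.VPos.zero]⟩
  rcases (hf h0).lt_or_eq with h1 | h1
  · exact ⟨0, by rw [_root_.map_zero, sub_zero]; exact fun _ => h1⟩
  · obtain ⟨c, -, hc⟩ := h.res f h0 h1.symm
    exact ⟨c, hc⟩

theorem Ctx0.const_eq_zero (h : Ctx0 k v n) {c : k} (hc : VPos v (algebraMap k Ω c)) :
    c = 0 := by
  by_contra h0
  have := hc (by simpa using h0)
  rw [h.triv c h0] at this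
  exact lt_irrefl _ this

end Pool.Agent.ALLZO
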