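import Pool.Agent.Lib.ALL_h85.BetaCore
import Pool.Agent.Lib.ALLZO.Loc

/-!
# A frame has logarithmic derivations (row BETA of PROJECT ALL), values in an ordered field

See `BetaCore` for the algebra.
-/

set_option autoImplicit false

namespace Pool.Agent.ALLZO

open Submodule Module KaehlerDifferential

/-! ## Frames -/

section Frames

open Pool.Agent.TAO (OVal VPos val_add_vpos Ctx0 CtxR)
open Pool.Agent.ALLO (locv FR)
open Pool.Agent.LU1 (FracIs fixO)
open Pool.Agent.ALLh85 (exists_basis_fg D_mem_span exists_form)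

universe u w

variable {k Ω : Type u} [Field k] [Field Ω] [Algebra k Ω]
  {𝕂 : Type w} [Field 𝕂] [LinearOrder 𝕂] [IsStrictOrderedRing 𝕂] {v : OVal 𝕂 Ω} {n r D : ℕ}

theorem ge_const85 (h : Ctx0 k v n) (c : k) : v.Ge 0 (algebraMap k Ω c) := by
  intro h0
  have h1 : c ≠ 0 := by rintro rfl; simp at h0
  rw [h.triv c h1]

/-- The residue field of a valuation of an algebraically closed field is algebraically closed. -/
theorem isAlgClosed_of_ctx (h : Ctx0 k v n) [IsAlgClosed Ω] : IsAlgClosed k := by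
  refine IsAlgClosed.of_exists_root k fun p hp hirr => ?_
  have hdeg : (p.map (algebraMap k Ω)).degree ≠ 0 := by
    rw [Polynomial.degree_map]
    exact fun h0 => hirr.not_isUnit (Polynomial.isUnit_iff_degree_eq_zero.2 h0)
  obtain ⟨z, hz⟩ := IsAlgClosed.exists_root _ hdeg
  have hz' : Polynomial.aeval z p = 0 := by
    rw [Polynomial.IsRoot.def, Polynomial.eval_map_algebraMap] at hz
    exact hz
  have hge : v.Ge 0 z := TAO.ge_of_isIntegral (ge_const85 h) ⟨p, hp, hz'⟩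
  have hres : ∃ c : k, VPos v (z - algebraMap k Ω c) := by
    by_cases h0 : z = 0
    · exact ⟨0, by simp [h0, TAO.VPos.zero]⟩
    rcases (hge h0).lt_or_eq with h1 | h1
    · exact ⟨0, by rw [map_zero, sub_zero]; exact fun _ => h1⟩
    · obtain ⟨c, -, hc⟩ := h.res z h0 h1.symm
      exact ⟨c, hc⟩
  obtain ⟨c, hc⟩ := hres
  refine ⟨c, ?_⟩
  by_contra hne
  obtain ⟨q, hq⟩ := Polynomial.X_sub_C_dvd_sub_C_eval (a := c) (p := p)
  have hqz : v.Ge 0 (Polynomial.aeval z q) := by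
    rw [Polynomial.aeval_eq_sum_range]
    refine OVal.Ge.sum _ _ fun i _ => ?_
    rw [Algebra.smul_def]
    have h1 : v.Ge 0 (z ^ i) := by
      intro h2
      have h3 : z ≠ 0 ∨ i = 0 := by
        by_cases hi : i = 0
        · exact Or.inr hi
        · exact Or.inl fun hz0 => h2 (by rw [hz0, zero_pow hi])
      rcases h3 with h3 | h3
      · rw [v.map_pow h3]
        exact mul_nonneg (Nat.cast_nonneg i) (hge h3)
      · rw [h3, pow_zero, v.map_one]
    have h2 := (ge_const85 h (q.coeff i)).mul h1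
    rwa [add_zero] at h2
  have h1 := congrArg (Polynomial.aeval z) hq
  rw [map_sub, map_mul, map_sub, hz', Polynomial.aeval_X, Polynomial.aeval_C, Polynomial.aeval_C,
    zero_sub] at h1
  have h2 : VPos v (- algebraMap k Ω (p.eval c)) := by
    rw [h1]
    exact hc.mul hqz
  have h3 : VPos v (algebraMap k Ω (p.eval c)) := by
    have := h2.neg
    rwa [neg_neg] at this
  have h4 := h3 (by rw [map_ne_zero]; exact hne)
  rw [h.triv _ hne] at h4
  exact lt_irrefl _ h4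

/-! ### the monomials of a frame -/

variable (F : FR k v D)

theorem χ_zero : F.χ 0 = 1 := by
  have h1 := F.χ_add 0 F.Γ.zero_mem 0 F.Γ.zero_mem
  rw [add_zero] at h1
  exact (mul_right_cancel₀ (F.χ_ne 0 F.Γ.zero_mem) (by rw [one_mul]; exact h1)).symm

theorem χ_neg {γ : 𝕂} (hγ : γ ∈ F.Γ) : F.χ (-γ) = (F.χ γ)⁻¹ := by
  have h1 := F.χ_add γ hγ (-γ) (F.Γ.neg_mem hγ)
  rw [add_neg_cancel, χ_zero] at h1
  exact eq_inv_of_mul_eq_one_right h1.symm

theorem χ_mem_frac {K : IntermediateField k Ω} (hK : FracIs F.R K) {γ : 𝕂} (hγ : γ ∈ F.Γ) :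
    F.χ γ ∈ K := by
  rcases le_total 0 γ with h | h
  · exact hK.1 _ (F.χ_mem γ hγ h)
  · have h1 := hK.1 _ (F.χ_mem (-γ) (F.Γ.neg_mem hγ) (by linarith))
    rw [χ_neg F hγ] at h1
    have h2 := K.inv_mem h1
    rwa [inv_inv] at h2

/-- The monomials as elements of `K`. -/
noncomputable def chiK {K : IntermediateField k Ω} (hK : FracIs F.R K) (γ : F.Γ) : K :=
  ⟨F.χ γ, χ_mem_frac F hK γ.2⟩

/-- The logarithmic differentials of the monomials. -/
noncomputable def dlogK {K : IntermediateField k Ω} (hK : FracIs F.R K) : F.Γ →+ Ω[K⁄k] where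
  toFun γ := (chiK F hK γ)⁻¹ • KaehlerDifferential.D k K (chiK F hK γ)
  map_zero' := by
    have h1 : chiK F hK 0 = 1 := Subtype.ext (χ_zero F)
    rw [h1, Derivation.map_one_eq_zero, smul_zero]
  map_add' γ δ := by
    have h1 : chiK F hK (γ + δ) = chiK F hK γ * chiK F hK δ :=
      Subtype.ext (F.χ_add γ γ.2 δ δ.2)
    have hγ : chiK F hK γ ≠ 0 := fun h0 => F.χ_ne γ γ.2 (congrArg Subtype.val h0)
    have hδ : chiK F hK δ ≠ 0 := fun h0 => F.χ_ne δ δ.2 (congrArg Subtype.val h0)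
    rw [h1, Derivation.leibniz, smul_add, smul_smul, smul_smul, add_comm]
    congr 1
    · congr 1
      field_simp
    · congr 1
      field_simp

theorem D_chiK {K : IntermediateField k Ω} (hK : FracIs F.R K) (γ : F.Γ) :
    KaehlerDifferential.D k K (chiK F hK γ) = chiK F hK γ • dlogK F hK γ := by
  have hγ : chiK F hK γ ≠ 0 := fun h0 => F.χ_ne γ γ.2 (congrArg Subtype.val h0)
  change _ = chiK F hK γ • ((chiK F hK γ)⁻¹ • KaehlerDifferential.D k K (chiK F hK γ))
  rw [smul_smul, mul_inv_cancel₀ hγ, one_smul]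

/-! ### the local ring of a frame -/

/-- The ring of a frame inside its field. -/
def ringK (K : IntermediateField k Ω) : Subalgebra k K := F.R.comap K.val

theorem mem_ringK {K : IntermediateField k Ω} {a : K} : a ∈ ringK F K ↔ (a : Ω) ∈ F.R := Iff.rfl

/-- The maximal ideal. -/
def maxK (K : IntermediateField k Ω) : Ideal (ringK F K) where
  carrier := {a | VPos v ((a : K) : Ω)}
  zero_mem' := TAO.VPos.zero
  add_mem' := fun ha hb => ha.add hb
  smul_mem' := fun c _ hb => TAO.VPos.mul' (F.nonneg _ c.2) hb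

theorem mem_maxK {K : IntermediateField k Ω} {a : ringK F K} :
    a ∈ maxK F K ↔ VPos v ((a : K) : Ω) := Iff.rfl

theorem maxK_le (K : IntermediateField k Ω) : maxK F K ≤ Ideal.jacobson ⊥ := by
  intro a ha
  rw [Ideal.mem_jacobson_bot]
  intro b
  have h1 : VPos v (((a * b : ringK F K) : K) : Ω) :=
    TAO.VPos.mul ha (F.nonneg _ b.2)
  obtain ⟨h2, h3⟩ := val_add_vpos one_ne_zero v.map_one h1
  have h4 := F.loc _ (add_mem F.R.one_mem (a * b : ringK F K).2) h2 h3
  have h5 : ((((a * b + 1 : ringK F K) : K)⁻¹ : K) : Ω) ∈ F.R := by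
    rw [add_comm]
    exact h4
  refine IsUnit.of_mul_eq_one ⟨(((a * b + 1 : ringK F K) : K)⁻¹ : K), h5⟩ ?_
  apply Subtype.ext
  apply Subtype.ext
  have h6 : (((a * b + 1 : ringK F K) : K) : Ω) ≠ 0 := by
    rw [add_comm]
    exact h2
  exact mul_inv_cancel₀ h6

/-- The parameters of a frame. -/
def parK (K : IntermediateField k Ω) : Set K :=
  {g | (∃ γ ∈ F.Γ, 0 ≤ γ ∧ (g : Ω) = F.χ γ) ∨ ∃ j, (g : Ω) = F.y j}

theorem parK_mem {K : IntermediateField k Ω} {g : K} (hg : g ∈ parK F K) : g ∈ ringK F K := by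
  rcases hg with ⟨γ, hγ, h0, h⟩ | ⟨j, h⟩
  · rw [mem_ringK, h]; exact F.χ_mem γ hγ h0
  · rw [mem_ringK, h]; exact F.y_mem j

theorem dec_ringK (h : Ctx0 k v n) {K : IntermediateField k Ω} (hK : FracIs F.R K)
    (f : ringK F K) : ∃ c : k, f - algebraMap k (ringK F K) c ∈
      Ideal.span {g : ringK F K | (g : K) ∈ parK F K ∧ g ∈ maxK F K} := by
  have hge := F.nonneg _ f.2
  have hres : ∃ c : k, VPos v (((f : K) : Ω) - algebraMap k Ω c) := by
    by_cases h0 : ((f : K) : Ω) = 0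
    · exact ⟨0, by rw [h0]; simp [TAO.VPos.zero]⟩
    rcases (hge h0).lt_or_eq with h1 | h1
    · exact ⟨0, by rw [map_zero, sub_zero]; exact fun _ => h1⟩
    · obtain ⟨c, -, hc⟩ := h.res _ h0 h1.symm
      exact ⟨c, hc⟩
  obtain ⟨c, hc⟩ := hres
  refine ⟨c, ?_⟩
  obtain ⟨γ, hγ, h0, a, ha, b, hb, hf⟩ := F.gen _ (sub_mem f.2 (F.R.algebraMap_mem c)) hc
  -- the elements as elements of the ring
  let X : ringK F K := ⟨⟨F.χ γ, χ_mem_frac F hK hγ⟩, F.χ_mem γ hγ h0.le⟩
  let A : ringK F K := ⟨⟨a, hK.1 _ ha⟩, ha⟩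
  let Y : Fin D → ringK F K := fun j => ⟨⟨F.y j, hK.1 _ (F.y_mem j)⟩, F.y_mem j⟩
  let B : Fin D → ringK F K := fun j => ⟨⟨b j, hK.1 _ (hb j)⟩, hb j⟩
  have h1 : f - algebraMap k (ringK F K) c = X * A + ∑ j, Y j * B j := by
    apply Subtype.ext
    apply Subtype.ext
    have h2 : (((∑ j, Y j * B j : ringK F K) : K) : Ω) = ∑ j, F.y j * b j := by
      rw [AddSubmonoidClass.coe_finsetSum, AddSubmonoidClass.coe_finsetSum]
      rfl
    change ((f : K) : Ω) - algebraMap k Ω c = F.χ γ * a + (((∑ j, Y j * B j : ringK F K) : K) : Ω)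
    rw [h2]
    exact hf
  rw [h1]
  have hX : X ∈ Ideal.span {g : ringK F K | (g : K) ∈ parK F K ∧ g ∈ maxK F K} := by
    refine Ideal.subset_span ⟨Or.inl ⟨γ, hγ, h0.le, rfl⟩, ?_⟩
    change VPos v (F.χ γ)
    intro _
    rw [F.χ_val γ hγ]
    exact h0
  have hY : ∀ j, Y j ∈ Ideal.span {g : ringK F K | (g : K) ∈ parK F K ∧ g ∈ maxK F K} := by
    intro j
    refine Ideal.subset_span ⟨Or.inr ⟨j, rfl⟩, ?_⟩
    change VPos v (F.y j)
    exact fun _ => F.y_pos j
  exact Ideal.add_mem _ (Ideal.mul_mem_right _ _ hX)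
    (Ideal.sum_mem _ fun j _ => Ideal.mul_mem_right _ _ (hY j))

/-- The field of a frame is finitely generated and its ring is essentially generated by finitely
many elements and the monomials. -/
theorem frame_gens (h : CtxR k v n r) {K : IntermediateField k Ω} (hK : FracIs F.R K) :
    ∃ (m : ℕ) (lam : Fin m → F.Γ) (S : Finset K), m ≤ r ∧
      (∀ γ : F.Γ, ∃ c : Fin m → ℤ, γ = ∑ i, c i • lam i) ∧ (∀ z ∈ S, z ∈ ringK F K) ∧
      (∀ f ∈ ringK F K, ∃ a ∈ Algebra.adjoin k ((S : Set K) ∪ parK F K),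
        ∃ b ∈ Algebra.adjoin k ((S : Set K) ∪ parK F K), b⁻¹ ∈ ringK F K ∧ f = a / b) ∧
      K.FG := by
  classical
  obtain ⟨X, hX0, hX, hspan⟩ := h.rank
  obtain ⟨m, lam, hm, hlam, hrep⟩ := exists_basis_fg F.Γ F.fg (fun i => v (X i)) (fun γ hγ => by
    have h1 := hspan (F.χ γ) (F.χ_ne γ hγ)
    rwa [F.χ_val γ hγ] at h1)
  obtain ⟨F₀, hF₀⟩ := F.fgen
  have hF₀R : ∀ z ∈ F₀, z ∈ F.R := by
    intro z hz
    rw [hF₀]
    exact le_locv _ (Algebra.subset_adjoin (Or.inl hz))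
  let S : Finset K := F₀.attach.image fun z => ⟨z.1, hK.1 _ (hF₀R z.1 z.2)⟩
  have hlift : Algebra.adjoin k ((F₀ : Set Ω) ∪ F.χ '' {γ | γ ∈ F.Γ ∧ 0 ≤ γ}) ≤
      (Algebra.adjoin k ((S : Set K) ∪ parK F K)).map K.val := by
    rw [Algebra.adjoin_le_iff]
    rintro z (hz | ⟨γ, ⟨hγ, h0⟩, rfl⟩)
    · refine ⟨⟨z, hK.1 _ (hF₀R z hz)⟩, Algebra.subset_adjoin (Or.inl ?_), rfl⟩
      rw [Finset.mem_coe, Finset.mem_image]
      exact ⟨⟨z, hz⟩, Finset.mem_attach _ _, rfl⟩
    · exact ⟨⟨F.χ γ, χ_mem_frac F hK hγ⟩, Algebra.subset_adjoin (Or.inr (Or.inl ⟨γ, hγ, h0, rfl⟩)),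
        rfl⟩
  refine ⟨m, fun i => ⟨lam i, hlam i⟩, S, hm, ?_, ?_, ?_, ?_⟩
  · intro γ
    obtain ⟨c, hc⟩ := hrep γ γ.2
    refine ⟨c, Subtype.ext ?_⟩
    rw [hc, AddSubmonoidClass.coe_finsetSum]
    rfl
  · intro z hz
    rw [Finset.mem_image] at hz
    obtain ⟨w, -, rfl⟩ := hz
    exact hF₀R w.1 w.2
  · intro f hf
    have hf' : (f : Ω) ∈ locv v (Algebra.adjoin k ((F₀ : Set Ω) ∪ F.χ '' {γ | γ ∈ F.Γ ∧ 0 ≤ γ})) := by
      rw [← hF₀]; exact hf
    obtain ⟨a, ha, b, hb, hb0, hvb, hfab⟩ := hf'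
    have hbR : b ∈ F.R := by rw [hF₀]; exact le_locv _ hb
    obtain ⟨a', ha', rfl⟩ := hlift ha
    obtain ⟨b', hb', rfl⟩ := hlift hb
    refine ⟨a', ha', b', hb', ?_, ?_⟩
    · exact F.loc _ hbR hb0 hvb
    · exact Subtype.ext hfab
  · -- the field is finitely generated
    set E : IntermediateField k Ω := IntermediateField.adjoin k
      ((F₀ ∪ Finset.univ.image fun i => F.χ (lam i) : Finset Ω) : Set Ω) with hE
    have hχE : ∀ γ ∈ F.Γ, F.χ γ ∈ E := by
      let G : AddSubgroup 𝕂 :=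
        { carrier := {γ | γ ∈ F.Γ ∧ F.χ γ ∈ E}
          zero_mem' := ⟨F.Γ.zero_mem, by rw [χ_zero]; exact E.one_mem⟩
          add_mem' := fun {a b} ha hb => ⟨F.Γ.add_mem ha.1 hb.1, by
            rw [F.χ_add a ha.1 b hb.1]; exact E.mul_mem ha.2 hb.2⟩
          neg_mem' := fun {a} ha => ⟨F.Γ.neg_mem ha.1, by
            rw [χ_neg F ha.1]; exact E.inv_mem ha.2⟩ }
      intro γ hγ
      obtain ⟨c, rfl⟩ := hrep γ hγ
      have h1 : ∑ i, c i • lam i ∈ G := by
        refine G.sum_mem fun i _ => G.zsmul_mem ⟨hlam i, ?_⟩ _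
        apply IntermediateField.subset_adjoin
        rw [Finset.coe_union]
        refine Or.inr ?_
        rw [Finset.mem_coe, Finset.mem_image]
        exact ⟨i, Finset.mem_univ _, rfl⟩
      exact h1.2
    have hAE : ∀ a ∈ Algebra.adjoin k ((F₀ : Set Ω) ∪ F.χ '' {γ | γ ∈ F.Γ ∧ 0 ≤ γ}), a ∈ E := by
      intro a ha
      have h1 : Algebra.adjoin k ((F₀ : Set Ω) ∪ F.χ '' {γ | γ ∈ F.Γ ∧ 0 ≤ γ}) ≤
          E.toSubalgebra := by
        rw [Algebra.adjoin_le_iff]
        rintro z (hz | ⟨γ, ⟨hγ, h0⟩, rfl⟩)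
        · apply IntermediateField.subset_adjoin
          rw [Finset.coe_union]
          exact Or.inl hz
        · exact hχE γ hγ
      exact h1 ha
    have hRE : ∀ f ∈ F.R, f ∈ E := by
      intro f hf
      rw [hF₀] at hf
      obtain ⟨a, ha, b, hb, -, -, rfl⟩ := hf
      exact E.div_mem (hAE a ha) (hAE b hb)
    refine ⟨F₀ ∪ Finset.univ.image fun i => F.χ (lam i), le_antisymm ?_ ?_⟩
    · rw [IntermediateField.adjoin_le_iff, Finset.coe_union]
      rintro z (hz | hz)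
      · exact hK.1 _ (hF₀R z hz)
      · rw [Finset.mem_coe, Finset.mem_image] at hz
        obtain ⟨i, -, rfl⟩ := hz
        exact χ_mem_frac F hK (hlam i)
    · intro g hg
      obtain ⟨a, ha, b, hb, -, rfl⟩ := hK.2 g hg
      exact E.div_mem (hRE a ha) (hRE b hb)

theorem trdeg_frac85 (h : Ctx0 k v n) {K : IntermediateField k Ω} (hK : FracIs F.R K) :
    Algebra.trdeg k K = n := by
  have h1 : Algebra.IsAlgebraic K Ω := by
    refine ⟨fun g => ?_⟩
    obtain ⟨p, hp, hpg⟩ := F.alg g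
    have hle : F.R ≤ K.toSubalgebra := hK.1
    have hinj : Function.Injective (Subalgebra.inclusion hle) := Subalgebra.inclusion_injective hle
    refine ⟨p.map (Subalgebra.inclusion hle).toRingHom, ?_, ?_⟩
    · exact (Polynomial.map_ne_zero_iff hinj).2 hp
    · rw [← hpg, Polynomial.aeval_def, Polynomial.aeval_def, Polynomial.eval₂_map]
      rfl
  have h2 : Algebra.trdeg k K + Algebra.trdeg K Ω = Algebra.trdeg k Ω := trdeg_add_eq k K
  have h3 : Algebra.trdeg K Ω = 0 := _root_.trdeg_eq_zero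
  rw [h3, add_zero, h.trdeg] at h2
  exact h2

/-- The differentials of the parameters: a family with at most `n` members whose `F.R`-span
contains the differentials of all elements of `F.R`. -/
theorem frame_forms [IsAlgClosed Ω] (h : CtxR k v n r) (hn : n = r + D)
    {K : IntermediateField k Ω} (hK : FracIs F.R K) :
    ∃ (m : ℕ) (lam : Fin m → F.Γ), (∀ γ : F.Γ, ∃ c : Fin m → ℤ, γ = ∑ i, c i • lam i) ∧
      ∀ t : Fin m ⊕ Fin D → K, (∀ i, t i ∈ ringK F K) →
        ∃ l : Ω[K⁄k] →ₗ[K] K, (∀ i, l (dlogK F hK (lam i)) = t (Sum.inl i)) ∧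
          (∀ (j : Fin D) (e : K), (e : Ω) = F.y j →
            l (KaehlerDifferential.D k K e) = t (Sum.inr j)) ∧
          ∀ f ∈ ringK F K, l (KaehlerDifferential.D k K f) ∈ ringK F K := by
  classical
  have hac : IsAlgClosed k := isAlgClosed_of_ctx (h.toCtx0)
  obtain ⟨m, lam, S, hm, hrep, hS, hgen, hfg⟩ := frame_gens F h hK
  have hess : Algebra.EssFiniteType k K := IntermediateField.essFiniteType_iff.2 hfg
  refine ⟨m, lam, hrep, fun t ht => ?_⟩
  let e : Fin m ⊕ Fin D → Ω[K⁄k] := Sum.elim (fun i => dlogK F hK (lam i))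
    (fun j => KaehlerDifferential.D k K (⟨F.y j, hK.1 _ (F.y_mem j)⟩ : K))
  have hpar : ∀ g ∈ parK F K, KaehlerDifferential.D k K g ∈
      Submodule.span (ringK F K) (Set.range e) := by
    rintro g (⟨γ, hγ, h0, hg⟩ | ⟨j, hg⟩)
    · have h1 : g = chiK F hK ⟨γ, hγ⟩ := Subtype.ext hg
      have h2 : g ∈ ringK F K := by rw [mem_ringK, hg]; exact F.χ_mem γ hγ h0
      have h3 : dlogK F hK ⟨γ, hγ⟩ ∈ Submodule.span (ringK F K) (Set.range e) := by
        obtain ⟨c, hc⟩ := hrep ⟨γ, hγ⟩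
        rw [hc, map_sum]
        refine Submodule.sum_mem _ fun i _ => ?_
        rw [map_zsmul]
        have h5 : dlogK F hK (lam i) ∈ Submodule.span (ringK F K) (Set.range e) :=
          Submodule.subset_span ⟨Sum.inl i, rfl⟩
        exact zsmul_mem h5 _
      subst h1
      rw [D_chiK]
      exact Submodule.smul_mem _ (⟨_, h2⟩ : ringK F K) h3
    · have h1 : g = (⟨F.y j, hK.1 _ (F.y_mem j)⟩ : K) := Subtype.ext hg
      rw [h1]
      exact Submodule.subset_span ⟨Sum.inr j, rfl⟩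
  have hR := D_mem_span (ringK F K) (maxK F K) (maxK_le F K) e (parK F K)
    (fun g hg => parK_mem F hg) hpar S hS hgen (dec_ringK F h.toCtx0 hK)
  obtain ⟨l, hl, hlR⟩ := exists_form (ringK F K) (fun z => by
    obtain ⟨a, ha, b, hb, -, hab⟩ := hK.2 _ z.2
    exact ⟨⟨a, hK.1 _ ha⟩, ha, ⟨b, hK.1 _ hb⟩, hb, Subtype.ext hab⟩) n
    (trdeg_frac85 F h.toCtx0 hK) (by
      rw [Fintype.card_sum, Fintype.card_fin, Fintype.card_fin, hn]
      omega) e hR t ht
  refine ⟨l, fun i => hl (Sum.inl i), fun j g hg => ?_, hlR⟩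
  have h1 : g = (⟨F.y j, hK.1 _ (F.y_mem j)⟩ : K) := Subtype.ext hg
  rw [h1]
  exact hl (Sum.inr j)

end Frames

/-- **Row BETA.** -/
theorem beta {k : Type*} [Field k] (𝕂 : Type*) [Field 𝕂] [LinearOrder 𝕂] [IsStrictOrderedRing 𝕂]
    (n : ℕ) : ALLO.BetaStmt k 𝕂 n := by
  intro Ω _ _ _ v r D h hr hn F K hK φ hφ c
  obtain ⟨m, lam, hrep, hform⟩ := frame_forms F h hn hK
  obtain ⟨l, hl1, hl2, hl3⟩ := hform
    (Sum.elim (fun i => algebraMap k K (φ (lam i))) (fun j => algebraMap k K (c j)))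
    (fun i => by
      rcases i with i | j
      · exact (ringK F K).algebraMap_mem _
      · exact (ringK F K).algebraMap_mem _)
  -- `φ` as a homomorphism on `Γ`
  let Φ : F.Γ →+ k :=
    { toFun := fun γ => φ γ
      map_zero' := by
        have h1 := hφ 0 F.Γ.zero_mem 0 F.Γ.zero_mem
        rw [add_zero] at h1
        have h2 : φ 0 = 0 := by
          have h3 : φ 0 + 0 = φ 0 + φ 0 := by rw [add_zero]; exact h1
          exact (add_left_cancel h3).symm
        exact h2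
      map_add' := fun a b => hφ a a.2 b b.2 }
  have hlog : ∀ γ : F.Γ, l (dlogK F hK γ) = algebraMap k K (Φ γ) := by
    intro γ
    obtain ⟨a, ha⟩ := hrep γ
    rw [ha, map_sum, map_sum, map_sum, map_sum]
    refine Finset.sum_congr rfl fun i _ => ?_
    rw [map_zsmul, map_zsmul, map_zsmul, map_zsmul, hl1]
    rfl
  refine ⟨l.compDer (KaehlerDifferential.D k K), fun γ hγ e he => ?_, fun j e he => ?_,
    fun e he => ?_⟩
  · have h1 : e = chiK F hK ⟨γ, hγ⟩ := Subtype.ext he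
    change ((l (KaehlerDifferential.D k K e) : K) : Ω) = _
    rw [h1, D_chiK, map_smul, hlog, smul_eq_mul, mul_comm]
    rfl
  · change ((l (KaehlerDifferential.D k K e) : K) : Ω) = _
    rw [hl2 j e he]
    rfl
  · exact hl3 e he

end Pool.Agent.ALLZO
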