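import Pool.Agent.Lib.ALLZO.Z1e
import Pool.Agent.Lib.ALL_h42.PB

/-!
# PROJECT ALL, block Z, row L1: `p`-coordinates of `A₂[1/χ]` from those of `C[1/χ]`

`A₂ = C_N ∩ K₂`, `K₂ = N^(DP ∩ H)`, `C = C_N ∩ E`, `E = N^H`.  By the formula of Lagrange for
`θ ^ p`, every element of `A₂` is, up to a unit of `A₂`, a polynomial in `θ ^ p` with
coefficients in `C`.
-/

set_option autoImplicit false

open Polynomial

namespace Pool.Agent.ALLZO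

open Pool.Agent.TAO (OVal VPos val_add_vpos Ctx0)
open Pool.Agent.ALLO (locv)
open Pool.Agent.LU1 (FracIs fixO mem_fixO)
open Pool.Agent.LUA (InQ)

universe u w

variable {k Ω : Type u} [Field k] [Field Ω] [Algebra k Ω] {𝕂 : Type w} [Field 𝕂] [LinearOrder 𝕂]
  [IsStrictOrderedRing 𝕂] {v : OVal 𝕂 Ω} {nn : ℕ}
variable {R : Subalgebra k Ω} {F : IntermediateField k Ω} {N : IntermediateField F Ω}

/-- Elements of `C_N` fixed by a subgroup of `DP` are quotients of integral fixed elements, the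
denominator of value `0`. -/
theorem CN_fix_quot [FiniteDimensional F N] (hR : ∀ f ∈ R, f ∈ F) (hv : ∀ f ∈ R, v.Ge 0 f)
    (D : Subgroup (N ≃ₐ[F] N)) (hD : D ≤ DP v R N hR) {f : Ω} (hf : f ∈ CN v R N)
    (hfix : f ∈ fixO F N D) :
    ∃ a s : N, IsIntegral R (a : Ω) ∧ IsIntegral R (s : Ω) ∧ (∀ σ ∈ D, σ a = a) ∧
      (∀ σ ∈ D, σ s = s) ∧ (s : Ω) ≠ 0 ∧ v (s : Ω) = 0 ∧ f = (a : Ω) / (s : Ω) := by
  classical
  have hfin : Finite (N ≃ₐ[F] N) := inferInstance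
  have hfD : Fintype D := Fintype.ofFinite _
  obtain ⟨n, rfl, hn⟩ := (mem_fixO F N D f).1 hfix
  obtain ⟨a, ha, s, hs, hs0, hvs, has⟩ := hf
  obtain ⟨ha1, ha2⟩ := mem_intN.1 ha
  obtain ⟨hs1, hs2⟩ := mem_intN.1 hs
  -- the norm of `s`
  let s1 : N := ⟨s, hs1⟩
  let S : N := ∏ σ : D, (σ : N ≃ₐ[F] N) s1
  have hval : ∀ σ : D, (((σ : N ≃ₐ[F] N) s1 : N) : Ω) ≠ 0 ∧
      v (((σ : N ≃ₐ[F] N) s1 : N) : Ω) = 0 := fun σ =>
    val_map hv (hD σ.2) (n := s1) hs2 hs0 hvs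
  have hSco : (S : Ω) = ∏ σ : D, (((σ : N ≃ₐ[F] N) s1 : N) : Ω) := by
    simp only [S]
    push_cast
    rfl
  have hSint : IsIntegral R (S : Ω) := by
    rw [hSco]
    exact IsIntegral.prod _ fun σ _ => int_map hR (σ : N ≃ₐ[F] N) (n := s1) hs2
  have hS0 : (S : Ω) ≠ 0 ∧ v (S : Ω) = 0 := by
    rw [hSco]
    refine Finset.prod_induction (fun σ : D => (((σ : N ≃ₐ[F] N) s1 : N) : Ω))
      (fun a => a ≠ 0 ∧ v a = 0) ?_ ?_ ?_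
    · rintro a b ⟨ha, ha'⟩ ⟨hb, hb'⟩
      exact ⟨mul_ne_zero ha hb, by rw [v.map_mul ha hb, ha', hb', add_zero]⟩
    · exact ⟨one_ne_zero, v.map_one⟩
    · exact fun σ _ => hval σ
  have hSfix : ∀ σ ∈ D, σ S = S := by
    intro σ hσ
    simp only [S]
    rw [map_prod]
    refine Fintype.prod_equiv (Equiv.mulLeft (⟨σ, hσ⟩ : D)) _ _ fun τ => ?_
    simp
  have hN : n = (⟨a, ha1⟩ : N) / s1 := by
    apply Subtype.ext
    rw [has]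
    rfl
  have hs10 : s1 ≠ 0 := fun h => hs0 (congrArg Subtype.val h)
  -- `n * S` is integral
  have hprod : n * S = (⟨a, ha1⟩ : N) * ∏ σ ∈ Finset.univ.erase (1 : D), (σ : N ≃ₐ[F] N) s1 := by
    have h1 : S = s1 * ∏ σ ∈ Finset.univ.erase (1 : D), (σ : N ≃ₐ[F] N) s1 := by
      have := Finset.mul_prod_erase (Finset.univ : Finset D)
        (fun σ : D => (σ : N ≃ₐ[F] N) s1) (Finset.mem_univ (1 : D))
      simp only [S]
      rw [← this]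
      rfl
    rw [h1, hN, div_mul_eq_mul_div, mul_comm s1, ← mul_assoc, mul_div_assoc, div_self hs10,
      mul_one]
  have hint : IsIntegral R ((n * S : N) : Ω) := by
    rw [hprod]
    push_cast
    refine ha2.mul ?_
    exact IsIntegral.prod _ fun σ _ => int_map hR (σ : N ≃ₐ[F] N) (n := s1) hs2
  refine ⟨n * S, S, hint, hSint, fun σ hσ => ?_, hSfix, hS0.1, hS0.2, ?_⟩
  · rw [map_mul, hn σ hσ, hSfix σ hσ]
  · push_cast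
    rw [mul_div_assoc, div_self hS0.1, mul_one]

section

variable {p : ℕ} [hp : Fact p.Prime] [CharP Ω p] {ι : Type*} [Fintype ι] {m : ι → Ω}

/-- `InQ` is stable under multiplication by `(s⁻¹)^p` in the form `a / s`. -/
theorem inQ_div {T : Subalgebra k Ω} {a s : Ω} (hs0 : s ≠ 0) (hsi : s⁻¹ ∈ T)
    (h : InQ p m T (a * s ^ (p - 1))) : InQ p m T (a / s) := by
  have h1 : a / s = (a * s ^ (p - 1)) * (s⁻¹) ^ p := by
    have h2 : s ^ p = s ^ (p - 1) * s := by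
      rw [← pow_succ, Nat.sub_add_cancel hp.out.pos]
    rw [inv_pow, ← div_eq_mul_inv, h2]
    field_simp
  rw [h1]
  exact h.mul_pow hsi

/-- The step with the formula of Lagrange. -/
theorem inQ_lagrange {T T2 : Subalgebra k Ω} (hTT2 : T ≤ T2) {P : N[X]} {θ : N}
    (hθ : (θ : Ω) ∈ T2) (hP : ∀ i, InQ p m T ((P.coeff i : N) : Ω)) :
    InQ p m T2 ((P.eval (θ ^ p) : N) : Ω) := by
  rw [eval_eq_sum_range]
  push_cast
  refine InQ.sum _ _ fun i _ => ?_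
  rw [← pow_mul, mul_comm p i, pow_mul]
  exact ((hP i).mono hTT2).mul_pow (T2.pow_mem hθ i)

/-- **Row L1.** -/
theorem L1 [FiniteDimensional F N] (hR : ∀ f ∈ R, f ∈ F) (hv : ∀ f ∈ R, v.Ge 0 f)
    (H : Subgroup (N ≃ₐ[F] N)) {T T2 : Subalgebra k Ω} (hTT2 : T ≤ T2)
    (hT : ∀ a : N, IsIntegral R (a : Ω) → (∀ σ ∈ H, σ a = a) → InQ p m T (a : Ω))
    (hA2 : ∀ f ∈ CN v R N, f ∈ fixO F N (DP v R N hR ⊓ H) → f ∈ T2)
    (hT2 : ∀ f ∈ T2, ∃ c : Ω, c ≠ 0 ∧ c ∈ CN v R N ∧ c ∈ fixO F N (DP v R N hR ⊓ H) ∧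
      c⁻¹ ∈ T2 ∧ c * f ∈ CN v R N ∧ c * f ∈ fixO F N (DP v R N hR ⊓ H))
    {θ u : N} (hθ : IsIntegral R (θ : Ω)) (hθ' : ∀ σ ∈ DP v R N hR ⊓ H, σ θ = θ)
    (hu : IsIntegral R (u : Ω)) (hu' : ∀ σ ∈ DP v R N hR ⊓ H, σ u = u) (hu0 : (u : Ω) ≠ 0)
    (huv : v (u : Ω) = 0)
    (hlag : ∀ b : N, IsIntegral R (b : Ω) → (∀ σ ∈ DP v R N hR ⊓ H, σ b = b) →
      ∃ P : N[X], PI R P ∧ (∀ σ ∈ H, ∀ i, σ (P.coeff i) = P.coeff i) ∧
        P.eval (θ ^ p) = b * u) :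
    ∀ f ∈ T2, InQ p m T2 f := by
  have hintmem : ∀ b : N, IsIntegral R (b : Ω) → (∀ σ ∈ DP v R N hR ⊓ H, σ b = b) →
      (b : Ω) ∈ CN v R N ∧ (b : Ω) ∈ fixO F N (DP v R N hR ⊓ H) := by
    intro b hb hb'
    refine ⟨⟨b, mem_intN.2 ⟨b.2, hb⟩, 1, one_mem _, one_ne_zero, v.map_one, by rw [div_one]⟩,
      (mem_fixO _ _ _ _).2 ⟨b, rfl, hb'⟩⟩
  have hinv : ∀ b : N, IsIntegral R (b : Ω) → (∀ σ ∈ DP v R N hR ⊓ H, σ b = b) →
      (b : Ω) ≠ 0 → v (b : Ω) = 0 → (b : Ω)⁻¹ ∈ T2 := by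
    intro b hb hb' hb0 hbv
    refine hA2 _ ⟨1, one_mem _, b, mem_intN.2 ⟨b.2, hb⟩, hb0, hbv, by rw [one_div]⟩ ?_
    exact inv_mem (hintmem b hb hb').2
  have hθ2 : (θ : Ω) ∈ T2 := hA2 _ (hintmem θ hθ hθ').1 (hintmem θ hθ hθ').2
  -- integral fixed elements
  have step1 : ∀ b : N, IsIntegral R (b : Ω) → (∀ σ ∈ DP v R N hR ⊓ H, σ b = b) →
      InQ p m T2 (b : Ω) := by
    intro b hb hb'
    obtain ⟨P, hP1, hP2, hP3⟩ := hlag (b * u ^ (p - 1)) (by push_cast; exact hb.mul (hu.pow _))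
      (fun σ hσ => by rw [map_mul, map_pow, hb' σ hσ, hu' σ hσ])
    have h1 : InQ p m T2 ((P.eval (θ ^ p) : N) : Ω) :=
      inQ_lagrange hTT2 hθ2 fun i => hT _ (hP1 i) fun σ hσ => hP2 σ hσ i
    rw [hP3] at h1
    have h2 : (b : Ω) = ((b * u ^ (p - 1) * u : N) : Ω) * ((u : Ω)⁻¹) ^ p := by
      have h3 : (u : Ω) ^ p = (u : Ω) ^ (p - 1) * (u : Ω) := by
        rw [← pow_succ, Nat.sub_add_cancel hp.out.pos]
      push_cast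
      rw [inv_pow, h3]
      field_simp
    rw [h2]
    exact h1.mul_pow (hinv u hu hu' hu0 huv)
  -- elements of `A₂`
  have step2 : ∀ f ∈ CN v R N, f ∈ fixO F N (DP v R N hR ⊓ H) → InQ p m T2 f := by
    intro f hf hf'
    obtain ⟨a, s, ha, hs, ha', hs', hs0, hvs, rfl⟩ :=
      CN_fix_quot hR hv (DP v R N hR ⊓ H) inf_le_left hf hf'
    refine inQ_div hs0 (hinv s hs hs' hs0 hvs) ?_
    have h1 := step1 (a * s ^ (p - 1)) (by push_cast; exact ha.mul (hs.pow _))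
      (fun σ hσ => by rw [map_mul, map_pow, ha' σ hσ, hs' σ hσ])
    push_cast at h1
    exact h1
  intro f hf
  obtain ⟨c, hc0, hc1, hc2, hc3, hc4, hc5⟩ := hT2 f hf
  have h1 : f = (c * f) / c := by rw [mul_comm, mul_div_assoc, div_self hc0, mul_one]
  rw [h1]
  refine inQ_div hc0 hc3 ?_
  exact step2 _ ((CN v R N).mul_mem hc4 ((CN v R N).pow_mem hc1 _))
    (mul_mem hc5 (pow_mem hc2 _))

end

/-- The part of `C_N` in the fixed field of `H`. -/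
noncomputable def AH {𝕂 : Type w} [Field 𝕂] [LinearOrder 𝕂]
    [IsStrictOrderedRing 𝕂] (v : OVal 𝕂 Ω) (R : Subalgebra k Ω) {F : IntermediateField k Ω} {N : IntermediateField F Ω}
    (H : Subgroup (N ≃ₐ[F] N)) : Subalgebra k Ω := CN v R N ⊓ (fixO F N H).toSubalgebra

theorem mem_AH {H : Subgroup (N ≃ₐ[F] N)} {f : Ω} :
    f ∈ AH v R H ↔ f ∈ CN v R N ∧ f ∈ fixO F N H := Iff.rfl

theorem AH_mono {H H' : Subgroup (N ≃ₐ[F] N)} (h : H' ≤ H) : AH v R H ≤ AH v R H' := by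
  intro f hf
  obtain ⟨h1, h2⟩ := mem_AH.1 hf
  obtain ⟨n, hn, hn'⟩ := (mem_fixO _ _ _ _).1 h2
  exact mem_AH.2 ⟨h1, (mem_fixO _ _ _ _).2 ⟨n, hn, fun σ hσ => hn' σ (h hσ)⟩⟩

theorem le_AH (hR : ∀ f ∈ R, f ∈ F) (H : Subgroup (N ≃ₐ[F] N)) : R ≤ AH v R H := by
  intro f hf
  refine mem_AH.2 ⟨⟨f, le_intN (N := N) hR hf, 1, one_mem _, one_ne_zero, v.map_one, by
    rw [div_one]⟩, (mem_fixO _ _ _ _).2 ⟨algebraMap F N ⟨f, hR f hf⟩, rfl, fun σ _ => ?_⟩⟩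
  rw [AlgEquiv.commutes]

/-- `S[1/x]`. -/
def invX (S : Subalgebra k Ω) (x : Ω) (hx : x ∈ S) : Subalgebra k Ω where
  carrier := {a | ∃ M : ℕ, x ^ M * a ∈ S}
  mul_mem' := by
    rintro a b ⟨M, hM⟩ ⟨L, hL⟩
    refine ⟨M + L, ?_⟩
    have h1 : x ^ (M + L) * (a * b) = (x ^ M * a) * (x ^ L * b) := by ring
    rw [h1]
    exact S.mul_mem hM hL
  add_mem' := by
    rintro a b ⟨M, hM⟩ ⟨L, hL⟩
    refine ⟨M + L, ?_⟩
    have h1 : x ^ (M + L) * (a + b) = x ^ L * (x ^ M * a) + x ^ M * (x ^ L * b) := by ring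
    rw [h1]
    exact S.add_mem (S.mul_mem (S.pow_mem hx _) hM) (S.mul_mem (S.pow_mem hx _) hL)
  algebraMap_mem' := fun c => ⟨0, by rw [pow_zero, one_mul]; exact S.algebraMap_mem c⟩

theorem mem_invX {S : Subalgebra k Ω} {x : Ω} {hx : x ∈ S} {a : Ω} :
    a ∈ invX S x hx ↔ ∃ M : ℕ, x ^ M * a ∈ S := Iff.rfl

theorem le_invX {S : Subalgebra k Ω} {x : Ω} {hx : x ∈ S} : S ≤ invX S x hx :=
  fun a ha => ⟨0, by rw [pow_zero, one_mul]; exact ha⟩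

/-- **Row L1**, for the localisations at `x`. -/
theorem L1x {p : ℕ} [hp : Fact p.Prime] [CharP Ω p] {ι : Type*} [Fintype ι] {m : ι → Ω}
    [FiniteDimensional F N] (hR : ∀ f ∈ R, f ∈ F) (hv : ∀ f ∈ R, v.Ge 0 f)
    (H : Subgroup (N ≃ₐ[F] N)) {x : Ω} (hx : x ∈ R) (hx0 : x ≠ 0)
    (hC : ∀ a ∈ AH v R H, ∃ c : ι → Ω, (∀ μ, ∃ M : ℕ, x ^ M * c μ ∈ AH v R H) ∧
      a = ∑ μ, m μ * c μ ^ p)
    {θ u : N} (hθ : IsIntegral R (θ : Ω)) (hθ' : ∀ σ ∈ DP v R N hR ⊓ H, σ θ = θ)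
    (hu : IsIntegral R (u : Ω)) (hu' : ∀ σ ∈ DP v R N hR ⊓ H, σ u = u) (hu0 : (u : Ω) ≠ 0)
    (huv : v (u : Ω) = 0)
    (hlag : ∀ b : N, IsIntegral R (b : Ω) → (∀ σ ∈ DP v R N hR ⊓ H, σ b = b) →
      ∃ P : N[X], PI R P ∧ (∀ σ ∈ H, ∀ i, σ (P.coeff i) = P.coeff i) ∧
        P.eval (θ ^ p) = b * u)
    (a : Ω) (ha : ∃ M : ℕ, x ^ M * a ∈ AH v R (DP v R N hR ⊓ H)) :
    ∃ c : ι → Ω, (∀ μ, ∃ M : ℕ, x ^ M * c μ ∈ AH v R (DP v R N hR ⊓ H)) ∧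
      a = ∑ μ, m μ * c μ ^ p := by
  have hxH : x ∈ AH v R H := le_AH hR H hx
  have hxH2 : x ∈ AH v R (DP v R N hR ⊓ H) := le_AH hR _ hx
  refine L1 (T := invX (AH v R H) x hxH) (T2 := invX (AH v R (DP v R N hR ⊓ H)) x hxH2)
    hR hv H ?_ ?_ ?_ ?_ hθ hθ' hu hu' hu0 huv hlag a ha
  · rintro a ⟨M, hM⟩
    exact ⟨M, AH_mono inf_le_right hM⟩
  · intro a ha ha'
    obtain ⟨c, hc, hc'⟩ := hC a (mem_AH.2 ⟨⟨a, mem_intN.2 ⟨a.2, ha⟩, 1, one_mem _, one_ne_zero,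
      v.map_one, by rw [div_one]⟩, (mem_fixO _ _ _ _).2 ⟨a, rfl, ha'⟩⟩)
    exact ⟨c, hc, hc'⟩
  · exact fun f hf hf' => le_invX (mem_AH.2 ⟨hf, hf'⟩)
  · rintro f ⟨M, hM⟩
    have h1 := (AH v R (DP v R N hR ⊓ H)).pow_mem hxH2 M
    exact ⟨x ^ M, pow_ne_zero _ hx0, (mem_AH.1 h1).1, (mem_AH.1 h1).2,
      ⟨M, by rw [mul_inv_cancel₀ (pow_ne_zero _ hx0)]; exact one_mem _⟩,
      (mem_AH.1 hM).1, (mem_AH.1 hM).2⟩

/-- **Row L1**, final form. `C = AH v R H`, `A₂ = AH v R (DP ⊓ H)`: if the elements of `C` have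
`p`-coordinates in `C[1/x]` with respect to the finite family `m`, then the elements of `A₂[1/x]`
have `p`-coordinates in `A₂[1/x]`. -/
theorem pcoord_A2 {p : ℕ} [hp : Fact p.Prime] [CharP Ω p] {ι : Type*} [Fintype ι] {m : ι → Ω}
    (h : Ctx0 k v nn) [FiniteDimensional F N] (hR : NRing v F R) (H : Subgroup (N ≃ₐ[F] N)) {x : Ω}
    (hx : x ∈ R) (hx0 : x ≠ 0)
    (hC : ∀ a ∈ AH v R H, ∃ c : ι → Ω, (∀ μ, ∃ M : ℕ, x ^ M * c μ ∈ AH v R H) ∧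
      a = ∑ μ, m μ * c μ ^ p)
    (a : Ω) (ha : ∃ M : ℕ, x ^ M * a ∈ AH v R (DP v R N hR.frac.1 ⊓ H)) :
    ∃ c : ι → Ω, (∀ μ, ∃ M : ℕ, x ^ M * c μ ∈ AH v R (DP v R N hR.frac.1 ⊓ H)) ∧
      a = ∑ μ, m μ * c μ ^ p := by
  obtain ⟨θ, hθ⟩ := exists_isTheta h hR N
  have hθp := hθ.pow hR.nonneg hp.out.pos
  have hd := hθp.du_val H
  refine L1x hR.frac.1 hR.nonneg H hx hx0 hC (θ := θ) (u := IsTheta.du (θ ^ p) H) hθ.int
    (fun σ hσ => hθ.fix σ hσ.1) (hθp.du_int H) (fun σ hσ => hθp.du_fix H hσ) hd.1 hd.2 ?_ a ha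
  intro b hb hb'
  obtain ⟨g, hg1, hg2, hg3⟩ := hθp.lagrange H hb hb'
  refine ⟨g, hg1, fun σ hσ i => ?_, hg3⟩
  have h1 := congrArg (fun Q => Q.coeff i) (hg2 σ hσ)
  rw [Polynomial.coeff_map] at h1
  exact h1

end Pool.Agent.ALLZO
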