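import Pool.Agent.Lib.ALL_h42.Perron

/-!
# Good bases of a finitely generated group of values (values in an ordered field)

Port of `LU1.perron`; the elements of `S` are combinations of the basis with non-negative
coordinates, not all zero (in the real case they may be taken positive).
-/

set_option autoImplicit false

namespace Pool.Agent.ALLZO

universe w

variable {𝕂 : Type w} [Field 𝕂] [LinearOrder 𝕂] [IsStrictOrderedRing 𝕂]

/-- A basis `u` of `Γ` consisting of positive elements in which the elements of `S` have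
non-negative coordinates, not all zero. -/
structure GoodBasis {r : ℕ} (Γ : AddSubgroup 𝕂) (S : Set 𝕂) (u : Fin r → 𝕂) : Prop where
  mem : ∀ i, u i ∈ Γ
  pos : ∀ i, 0 < u i
  ind : LinearIndependent ℚ u
  gen : ∀ γ ∈ Γ, ∃ n : Fin r → ℤ, γ = ∑ i, (n i : 𝕂) * u i
  cone : ∀ γ ∈ S, ∃ n : Fin r → ℕ, (∃ i, 0 < n i) ∧ γ = ∑ i, (n i : 𝕂) * u i

theorem perron {r : ℕ} (Γ : AddSubgroup 𝕂) (hΓ : Γ.FG)
    (hrk : ∃ X : Fin r → 𝕂, LinearIndependent ℚ X ∧ (∀ i, X i ∈ Γ) ∧
      ∀ γ ∈ Γ, γ ∈ Submodule.span ℚ (Set.range X))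
    (S : Finset 𝕂) (hS : ∀ γ ∈ S, γ ∈ Γ ∧ 0 < γ) :
    ∃ u : Fin r → 𝕂, GoodBasis Γ (S : Set 𝕂) u := by
  classical
  obtain ⟨X, hX, hXΓ, hspan⟩ := hrk
  have : Module.Finite ℤ Γ := Module.Finite.iff_addGroup_fg.mpr
    ((AddGroup.fg_iff_addSubgroup_fg Γ).mpr hΓ)
  have : Module.Free ℤ Γ := Module.free_of_finite_type_torsion_free'
  set b := Module.finBasis ℤ Γ with hb
  set f : Fin (Module.finrank ℤ Γ) → 𝕂 := fun i => (b i : 𝕂) with hf
  have hfZ : LinearIndependent ℤ f := by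
    have h1 := b.linearIndependent.map' (AddSubgroup.subtype Γ).toIntLinearMap (by
      rw [LinearMap.ker_eq_bot]
      exact Subtype.val_injective)
    exact h1
  have hfQ : LinearIndependent ℚ f := (LinearIndependent.iff_fractionRing ℤ ℚ).mp hfZ
  have hXZ : LinearIndependent ℤ (fun i => (⟨X i, hXΓ i⟩ : Γ)) := by
    refine LinearIndependent.of_comp (AddSubgroup.subtype Γ).toIntLinearMap ?_
    exact (LinearIndependent.iff_fractionRing ℤ ℚ).mpr hX
  have hle : r ≤ Module.finrank ℤ Γ := by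
    have := hXZ.fintype_card_le_finrank
    simpa using this
  have hge : Module.finrank ℤ Γ ≤ r := by
    have h1 : Set.range f ⊆ Submodule.span ℚ (Set.range X) := by
      rintro _ ⟨i, rfl⟩
      exact hspan _ (b i).2
    have h2 : Submodule.span ℚ (Set.range f) ≤ Submodule.span ℚ (Set.range X) :=
      Submodule.span_le.mpr h1
    have : FiniteDimensional ℚ (Submodule.span ℚ (Set.range X)) :=
      FiniteDimensional.span_of_finite ℚ (Set.finite_range X)
    have h3 := Submodule.finrank_mono h2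
    rw [finrank_span_eq_card hfQ, finrank_span_eq_card hX] at h3
    simpa using h3
  have hr' : Module.finrank ℤ Γ = r := le_antisymm hge hle
  let φ : (Fin r → ℤ) ≃ₗ[ℤ] Γ := (b.reindex (finCongr hr')).equivFun.symm
  obtain ⟨φ', hp, hn⟩ := LUA.perron φ (S.subtype (· ∈ Γ)) (by
    intro g hg
    rw [Finset.mem_subtype] at hg
    exact (hS _ hg).2)
  have hsum : ∀ c : Fin r → ℤ, (φ' c : 𝕂) = ∑ i, (c i : 𝕂) * (φ' (Pi.single i 1) : 𝕂) := by
    intro c
    have h1 : c = ∑ i, c i • (Pi.single i 1 : Fin r → ℤ) := by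
      ext j
      simp [Finset.sum_apply, Pi.single_apply]
    conv_lhs => rw [h1]
    rw [map_sum, AddSubmonoidClass.coe_finsetSum]
    refine Finset.sum_congr rfl fun i _ => ?_
    rw [map_smul, AddSubgroup.coe_zsmul, zsmul_eq_mul]
  have hgen : ∀ (γ : 𝕂) (hγ : γ ∈ Γ),
      γ = ∑ i, ((φ'.symm ⟨γ, hγ⟩ i : ℤ) : 𝕂) * (φ' (Pi.single i 1) : 𝕂) := by
    intro γ hγ
    have h1 := hsum (φ'.symm ⟨γ, hγ⟩)
    rw [LinearEquiv.apply_symm_apply] at h1
    exact h1
  refine ⟨fun i => (φ' (Pi.single i 1) : 𝕂), fun i => (φ' (Pi.single i 1)).2, fun i => hp i, ?_,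
    fun γ hγ => ⟨_, hgen γ hγ⟩, fun γ hγ => ?_⟩
  · rw [← LinearIndependent.iff_fractionRing ℤ ℚ]
    have h1 : LinearIndependent ℤ (fun i => φ' (Pi.single i 1)) := by
      have h2 := (Pi.basisFun ℤ (Fin r)).linearIndependent.map' φ'.toLinearMap (by
        rw [LinearMap.ker_eq_bot]
        exact φ'.injective)
      have h3 : (φ'.toLinearMap : (Fin r → ℤ) → Γ) ∘ (Pi.basisFun ℤ (Fin r)) =
          fun i => φ' (Pi.single i 1) := by
        funext i
        rw [Function.comp_apply, Pi.basisFun_apply]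
        rfl
      rw [h3] at h2
      exact h2
    exact h1.map' (AddSubgroup.subtype Γ).toIntLinearMap (by
      rw [LinearMap.ker_eq_bot]
      exact Subtype.val_injective)
  · have h1 := hn ⟨γ, (hS γ hγ).1⟩ (by rw [Finset.mem_subtype]; exact hγ)
    have h2 := hgen γ (hS γ hγ).1
    have h3 : ∀ i, ((φ'.symm ⟨γ, (hS γ hγ).1⟩ i).toNat : 𝕂) =
        ((φ'.symm ⟨γ, (hS γ hγ).1⟩ i : ℤ) : 𝕂) := by
      intro i
      rw [← Int.cast_natCast, Int.toNat_of_nonneg (h1 i)]
    refine ⟨fun i => (φ'.symm ⟨γ, (hS γ hγ).1⟩ i).toNat, ?_, ?_⟩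
    · by_contra hcon
      push Not at hcon
      have h4 : γ = 0 := by
        refine h2.trans (Finset.sum_eq_zero fun i _ => ?_)
        rw [← h3, Nat.le_zero.1 (hcon i), Nat.cast_zero, zero_mul]
      exact (hS γ hγ).2.ne' h4
    · refine h2.trans (Finset.sum_congr rfl fun i _ => ?_)
      rw [h3]

end Pool.Agent.ALLZO
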