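import Pool.Agent.Lib.ALLZO.Z1e
import Pool.Agent.Lib.ALLO.Defs

/-!
# PROJECT ALL, block Z: bridge to `ALL/Defs.lean`; the ring of the decomposition field is a frame

`CN`, `DP` against `ICl`, `decP`; `RD` is the ring of a frame with the same `Γ`, `χ`, `y`.
-/

set_option autoImplicit false

open Polynomial

namespace Pool.Agent.ALLZO

open Pool.Agent.TAO (OVal VPos val_add_vpos Ctx0)
open Pool.Agent.ALLO (locv)
open Pool.Agent.LU1 (FracIs fixO mem_fixO)
open Pool.Agent.ALLO (FR icl ICl decP)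

universe u w

variable {k Ω : Type u} [Field k] [Field Ω] [Algebra k Ω] {𝕂 : Type w} [Field 𝕂] [LinearOrder 𝕂]
  [IsStrictOrderedRing 𝕂] {v : OVal 𝕂 Ω} {nn : ℕ} {D : ℕ}
variable {R : Subalgebra k Ω} {F : IntermediateField k Ω} {N : IntermediateField F Ω}

/-- The two decomposition groups agree. -/
theorem decP_eq (hR : ∀ f ∈ R, f ∈ F) : decP v R F N = DP v R N hR := by
  ext σ
  constructor
  · intro h n hn
    exact (h n hn).2.2
  · intro h n hn
    exact ⟨int_map hR σ hn, int_map hR σ⁻¹ hn, h n hn⟩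

theorem icl_eq : icl R (N.restrictScalars k) = intN R N := by
  ext g
  rfl

theorem ICl_eq_CN : ICl v R (N.restrictScalars k) = CN v R N := by
  rw [ICl, icl_eq, CN]

theorem fixO_le (H : Subgroup (N ≃ₐ[F] N)) {g : Ω} (hg : g ∈ fixO F N H) : g ∈ N := by
  obtain ⟨n, rfl, -⟩ := (mem_fixO F N H g).1 hg
  exact n.2

/-- Z1d: the localised integral closure in `E = N^H` is `CN ⊓ E`. -/
theorem mem_ICl_fixO (h : Ctx0 k v nn) [FiniteDimensional F N] (hR : NRing v F R)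
    (H : Subgroup (N ≃ₐ[F] N)) {a : Ω} :
    a ∈ ICl v R (fixO F N H) ↔ a ∈ CN v R N ∧ a ∈ fixO F N H := by
  constructor
  · rintro ⟨s, hs, t, ht, ht0, ht1, rfl⟩
    exact ⟨⟨s, ⟨fixO_le H hs.1, hs.2⟩, t, ⟨fixO_le H ht.1, ht.2⟩, ht0, ht1, rfl⟩,
      div_mem (S := IntermediateField k Ω) hs.1 ht.1⟩
  · rintro ⟨ha, haf⟩
    obtain ⟨n, rfl, hn⟩ := (mem_fixO F N H a).1 haf
    obtain ⟨s, t, hs, ht, hsf, htf, ht0, ht1, hst⟩ := CN_frac_H h hR H ha hn
    refine ⟨s, ⟨(mem_fixO F N H _).2 ⟨s, rfl, hsf⟩, hs⟩, t,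
      ⟨(mem_fixO F N H _).2 ⟨t, rfl, htf⟩, ht⟩, ht0, ht1, ?_⟩
    rw [hst]
    push_cast
    rfl

/-- The localised integral closure in the field of fractions. -/
theorem mem_ICl_base (hR : NRing v F R) {a : Ω} : a ∈ ICl v R F ↔ a ∈ R := by
  constructor
  · rintro ⟨s, hs, t, ht, ht0, ht1, rfl⟩
    rw [div_eq_mul_inv]
    exact mul_mem (hR.normal s hs.1 hs.2) (hR.loc t (hR.normal t ht.1 ht.2) ht0 ht1)
  · intro ha
    exact le_locv _ ⟨hR.frac.1 a ha, isIntegral_of_mem ha⟩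

/-- `FR.χ 0 = 1` -/
theorem fr_χ_zeroR (B : FR k v D) : B.χ 0 = 1 := by
  have h := B.χ_add 0 B.Γ.zero_mem 0 B.Γ.zero_mem
  rw [add_zero] at h
  exact (mul_right_cancel₀ (B.χ_ne 0 B.Γ.zero_mem) (by rw [one_mul]; exact h)).symm

/-- The decomposition field of the centre has a frame with the same parameters. -/
theorem RD_frame (h : Ctx0 k v nn) (B : FR k v D) (hR : NRing v F B.R)
    (N : IntermediateField F Ω) [FiniteDimensional F N] [IsGalois F N] :
    ∃ B₁ : FR k v D, B.Same B₁ ∧ B₁.R = RD v B.R N hR.frac.1 := by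
  classical
  obtain ⟨θ, hθ⟩ := exists_isTheta (N := N) h hR
  have hRD := RD_nring (N := N) hR
  obtain ⟨T, hT⟩ := B.fgen
  refine ⟨{ Γ := B.Γ
            fg := B.fg
            full := B.full
            χ := B.χ
            χ_ne := B.χ_ne
            χ_add := B.χ_add
            χ_val := B.χ_val
            y := B.y
            y_ne := B.y_ne
            y_pos := B.y_pos
            R := RD v B.R N hR.frac.1
            nonneg := hRD.nonneg
            loc := hRD.loc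
            χ_mem := fun γ h1 h2 => le_RD (B.χ_mem γ h1 h2)
            y_mem := fun i => le_RD (B.y_mem i)
            fgen := ?_
            gen := ?_
            alg := ?_ }, ⟨rfl, fun _ _ => rfl, rfl, le_RD⟩, rfl⟩
  · refine ⟨insert (θ : Ω) T, ?_⟩
    have hθm : (θ : Ω) ∈ RD v B.R N hR.frac.1 :=
      ⟨intN_le_CN ⟨θ.2, hθ.int⟩, (mem_fixO F N _ _).2 ⟨θ, rfl, hθ.fix⟩⟩
    apply le_antisymm
    · rw [hθ.RD_eq hR]
      refine locv_le (Algebra.adjoin_le ?_) fun f hf h0 h1 => locv_inv hf h0 h1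
      rintro f (hf | hf)
      · rw [hT] at hf
        refine locv_mono (Algebra.adjoin_mono ?_) hf
        rintro g (hg | hg)
        · exact Or.inl (Finset.mem_coe.2 (Finset.mem_insert_of_mem hg))
        · exact Or.inr hg
      · rw [Set.mem_singleton_iff] at hf
        subst hf
        exact le_locv _ (Algebra.subset_adjoin
          (Or.inl (Finset.mem_coe.2 (Finset.mem_insert_self _ _))))
    · refine locv_le (Algebra.adjoin_le ?_) hRD.loc
      rintro f (hf | ⟨γ, ⟨hγ, hγ0⟩, rfl⟩)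
      · rcases Finset.mem_insert.1 (Finset.mem_coe.1 hf) with rfl | hf
        · exact hθm
        · refine le_RD ?_
          rw [hT]
          exact le_locv _ (Algebra.subset_adjoin (Or.inl hf))
      · exact le_RD (B.χ_mem γ hγ hγ0)
  · intro f hf hv
    obtain ⟨r₁, h1, r₂, h2, hv1, hv2, b₁, hb1, b₂, hb2, rfl⟩ := RD_gen h hR hf hv
    obtain ⟨γ₁, hγ1, hγ1p, a₁, ha1, c₁, hc1, e1⟩ := B.gen r₁ h1 hv1
    obtain ⟨γ₂, hγ2, hγ2p, a₂, ha2, c₂, hc2, e2⟩ := B.gen r₂ h2 hv2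
    -- the smaller exponent
    have key : ∀ γ ∈ B.Γ, ∀ δ ∈ B.Γ, γ ≤ δ → B.χ δ = B.χ γ * B.χ (δ - γ) ∧
        B.χ (δ - γ) ∈ B.R := by
      intro γ hγ δ hδ hle
      have h3 : δ - γ ∈ B.Γ := B.Γ.sub_mem hδ hγ
      refine ⟨?_, B.χ_mem _ h3 (by linarith)⟩
      rw [← B.χ_add γ hγ _ h3]
      congr 1
      ring
    rcases le_total γ₁ γ₂ with hle | hle
    · obtain ⟨e3, e4⟩ := key γ₁ hγ1 γ₂ hγ2 hle
      refine ⟨γ₁, hγ1, hγ1p, a₁ * b₁ + B.χ (γ₂ - γ₁) * a₂ * b₂,
        add_mem (mul_mem (le_RD ha1) hb1) (mul_mem (mul_mem (le_RD e4) (le_RD ha2)) hb2),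
        fun i => c₁ i * b₁ + c₂ i * b₂,
        fun i => add_mem (mul_mem (le_RD (hc1 i)) hb1) (mul_mem (le_RD (hc2 i)) hb2), ?_⟩
      rw [e1, e2, e3]
      have e5 : ∑ i, B.y i * (c₁ i * b₁ + c₂ i * b₂) =
          (∑ i, B.y i * c₁ i) * b₁ + (∑ i, B.y i * c₂ i) * b₂ := by
        rw [Finset.sum_mul, Finset.sum_mul, ← Finset.sum_add_distrib]
        exact Finset.sum_congr rfl fun i _ => by ring
      rw [e5]
      ring
    · obtain ⟨e3, e4⟩ := key γ₂ hγ2 γ₁ hγ1 hle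
      refine ⟨γ₂, hγ2, hγ2p, B.χ (γ₁ - γ₂) * a₁ * b₁ + a₂ * b₂,
        add_mem (mul_mem (mul_mem (le_RD e4) (le_RD ha1)) hb1) (mul_mem (le_RD ha2) hb2),
        fun i => c₁ i * b₁ + c₂ i * b₂,
        fun i => add_mem (mul_mem (le_RD (hc1 i)) hb1) (mul_mem (le_RD (hc2 i)) hb2), ?_⟩
      rw [e1, e2, e3]
      have e5 : ∑ i, B.y i * (c₁ i * b₁ + c₂ i * b₂) =
          (∑ i, B.y i * c₁ i) * b₁ + (∑ i, B.y i * c₂ i) * b₂ := by
        rw [Finset.sum_mul, Finset.sum_mul, ← Finset.sum_add_distrib]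
        exact Finset.sum_congr rfl fun i _ => by ring
      rw [e5]
      ring
  · intro g
    obtain ⟨P, hP, hPg⟩ := B.alg g
    refine ⟨P.map (Subalgebra.inclusion (le_RD (N := N) (hR := hR.frac.1))).toRingHom, ?_, ?_⟩
    · intro h0
      apply hP
      exact Polynomial.map_injective _
        (Subalgebra.inclusion_injective (le_RD (N := N) (hR := hR.frac.1))) (by
          rw [h0, Polynomial.map_zero])
    · rw [aeval_def, eval₂_map]
      exact hPg

end Pool.Agent.ALLZO
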