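import Pool.Agent.Lib.ALLZO.CoordE

/-!
# ALL, block Z, end of row Z2: `p`-coordinates of `R[1/χ]` in an arbitrary positive basis of `Γ`
-/

set_option autoImplicit false

namespace Pool.Agent.ALLZO

open Finset Module
open Pool.Agent.TAO (OVal VPos Ctx0 CtxR)
open Pool.Agent.LU1 (FracIs)
open Pool.Agent.LU1.NFA (mem_frac)
open Pool.Agent.ALLO (locv FR)
open Pool.Agent.LUA (PB PInd InQ)
open Pool.Agent.ALLh94 (mon)

universe u w

variable {k Ω : Type u} [Field k] [Field Ω] [Algebra k Ω] {𝕂 : Type w} [Field 𝕂] [LinearOrder 𝕂]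
  [IsStrictOrderedRing 𝕂] {v : OVal 𝕂 Ω} {r D n : ℕ}

/-- `R[1/χ]`. -/
def frI (B : FR k v D) : Subalgebra k Ω where
  carrier := {f | ∃ γ ∈ B.Γ, B.χ γ * f ∈ B.R}
  mul_mem' := by
    rintro f g ⟨γ, hγ, hf⟩ ⟨δ, hδ, hg⟩
    refine ⟨γ + δ, B.Γ.add_mem hγ hδ, ?_⟩
    have h1 : B.χ (γ + δ) * (f * g) = (B.χ γ * f) * (B.χ δ * g) := by
      rw [B.χ_add γ hγ δ hδ]
      ring
    rw [h1]
    exact B.R.mul_mem hf hg
  add_mem' := by
    rintro f g ⟨γ, hγ, hf⟩ ⟨δ, hδ, hg⟩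
    -- multiply by the larger exponent
    have key : ∀ (γ δ : 𝕂) (f g : Ω), γ ∈ B.Γ → δ ∈ B.Γ → γ ≤ δ → B.χ γ * f ∈ B.R →
        B.χ δ * g ∈ B.R → ∃ ε ∈ B.Γ, B.χ ε * (f + g) ∈ B.R := by
      intro γ δ f g hγ hδ hle hf hg
      refine ⟨δ, hδ, ?_⟩
      have h1 : B.χ δ * (f + g) = B.χ (δ - γ) * (B.χ γ * f) + B.χ δ * g := by
        have h2 : B.χ δ = B.χ (δ - γ) * B.χ γ := by
          rw [← B.χ_add _ (B.Γ.sub_mem hδ hγ) _ hγ, sub_add_cancel]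
        rw [mul_add]
        congr 1
        rw [← mul_assoc, ← h2]
      rw [h1]
      exact B.R.add_mem (B.R.mul_mem (B.χ_mem _ (B.Γ.sub_mem hδ hγ) (by linarith)) hf) hg
    rcases le_total γ δ with h | h
    · exact key γ δ f g hγ hδ h hf hg
    · rw [add_comm]
      exact key δ γ g f hδ hγ h hg hf
  algebraMap_mem' := fun c => ⟨0, B.Γ.zero_mem, by
    rw [fr_χ_zero B, one_mul]
    exact B.R.algebraMap_mem c⟩

theorem mem_frI {B : FR k v D} {f : Ω} : f ∈ frI B ↔ ∃ γ ∈ B.Γ, B.χ γ * f ∈ B.R := Iff.rfl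

theorem le_frI (B : FR k v D) : B.R ≤ frI B := fun f hf => ⟨0, B.Γ.zero_mem, by
  rw [fr_χ_zero B, one_mul]
  exact hf⟩

theorem χ_mem_frI (B : FR k v D) {γ : 𝕂} (hγ : γ ∈ B.Γ) : B.χ γ ∈ frI B := by
  refine ⟨-γ, B.Γ.neg_mem hγ, ?_⟩
  rw [← B.χ_add _ (B.Γ.neg_mem hγ) _ hγ, neg_add_cancel, fr_χ_zero B]
  exact B.R.one_mem

/-- The parameters for the basis `u` of `Γ`. -/
def frT (B : FR k v D) (u : Fin r → 𝕂) : Fin r ⊕ Fin D → Ω := Sum.elim (fun i => B.χ (u i)) B.y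

/-- **Row Z2, end.** -/
theorem fr_pexp (p : ℕ) [hp : Fact p.Prime] [CharP Ω p] (h : CtxR k v n r)
    (hk : ∀ c : k, ∃ d : k, d ^ p = c) (hr : 0 < r) (B : FR k v D) {S : Set 𝕂} {u : Fin r → 𝕂}
    (hu : GoodBasis B.Γ S u) : PB p (mon (p := p) (frT B u)) (frI B) := by
  classical
  have htI : ∀ i, frT B u i ∈ frI B := by
    rintro (i | j)
    · exact χ_mem_frI B (hu.mem i)
    · exact le_frI B (B.y_mem j)
  have hm : ∀ μ : Fin r ⊕ Fin D → Fin p, mon (frT B u) μ ∈ frI B := fun μ =>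
    (frI B).prod_mem fun i _ => (frI B).pow_mem (htI i) _
  refine ⟨hm, fun f hf => ?_⟩
  obtain ⟨γ, hγ, hg⟩ := hf
  have hK : FracIs B.R (IntermediateField.adjoin k (B.R : Set Ω)) :=
    ⟨fun f hf => IntermediateField.subset_adjoin _ _ hf, fun g hg => mem_frac.1 hg⟩
  obtain ⟨S1, hS1, hN1⟩ := fr_level (r := r) h.toCtx0 hr B {B.χ γ * f} (by simpa using hg) hK
  obtain ⟨u', hu'⟩ := fr_exists_basis h hr B S1 hS1
  obtain ⟨N, hNx, hNy, hNle, hNT, -⟩ := hN1 u' hu'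
  obtain ⟨a, ha, hfa⟩ := N.pexp h.toCtx0 hk _ (hNT (B.χ γ * f) (by simp))
  have hf1 : f = ∑ β, B.χ (-γ) * mon N.t β * a β ^ p := by
    have h1 : f = B.χ (-γ) * (B.χ γ * f) := by
      rw [← mul_assoc, ← B.χ_add _ (B.Γ.neg_mem hγ) _ hγ, neg_add_cancel, fr_χ_zero B, one_mul]
    rw [h1, hfa, Finset.mul_sum]
    exact Finset.sum_congr rfl fun β _ => (mul_assoc _ _ _).symm
  change InQ p (mon (p := p) (frT B u)) (frI B) f
  rw [hf1]
  refine InQ.sum _ _ fun β _ => ?_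
  -- one term
  set γ' : 𝕂 := -γ + ∑ i, (((β (Sum.inl i) : ℕ) : ℤ) : 𝕂) * u' i with hγ'
  have hs := χ_sum B Finset.univ u' hu'.mem fun i => ((β (Sum.inl i) : ℕ) : ℤ)
  have hγ'Γ : γ' ∈ B.Γ := B.Γ.add_mem (B.Γ.neg_mem hγ) hs.1
  obtain ⟨m, hmγ⟩ := hu.gen γ' hγ'Γ
  have hppos : (0 : ℤ) < p := by exact_mod_cast hp.out.pos
  have hmod : ∀ i, (m i % p).toNat < p := by
    intro i
    have h1 := Int.emod_lt_of_pos (m i) hppos
    have h2 := Int.emod_nonneg (m i) hppos.ne'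
    omega
  have hχ : B.χ γ' = (∏ i, B.χ (u i) ^ ((m i % p).toNat)) * (∏ i, B.χ (u i) ^ (m i / p)) ^ p := by
    rw [hmγ, (χ_sum B Finset.univ u hu.mem m).2, ← Finset.prod_pow, ← Finset.prod_mul_distrib]
    refine Finset.prod_congr rfl fun i _ => ?_
    have h0 := B.χ_ne _ (hu.mem i)
    rw [← zpow_natCast, ← zpow_natCast, ← zpow_mul, ← zpow_add₀ h0]
    congr 1
    rw [Int.toNat_of_nonneg (Int.emod_nonneg (m i) hppos.ne'), mul_comm]
    exact (Int.emod_add_mul_ediv (m i) p).symm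
  have hterm : B.χ (-γ) * mon N.t β = B.χ γ' * ∏ j, B.y j ^ (β (Sum.inr j) : ℕ) := by
    have h1 : mon N.t β = (∏ i, N.x i ^ (β (Sum.inl i) : ℕ)) * ∏ j, N.y j ^ (β (Sum.inr j) : ℕ) := by
      unfold mon
      rw [Fintype.prod_sum_type]
      rfl
    rw [h1, hNy, ← mul_assoc, hγ', B.χ_add _ (B.Γ.neg_mem hγ) _ hs.1, hs.2]
    congr 2
    refine Finset.prod_congr rfl fun i _ => ?_
    rw [hNx, zpow_natCast]
  have hq : (∏ i, B.χ (u i) ^ (m i / p)) ∈ frI B := by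
    rw [← (χ_sum B Finset.univ u hu.mem fun i => m i / p).2]
    exact χ_mem_frI B (χ_sum B Finset.univ u hu.mem fun i => m i / p).1
  have hfin : B.χ (-γ) * mon N.t β * a β ^ p =
      mon (p := p) (frT B u) (Sum.elim (fun i => ⟨(m i % p).toNat, hmod i⟩)
        (fun j => β (Sum.inr j))) * ((∏ i, B.χ (u i) ^ (m i / p)) * a β) ^ p := by
    have h1 : mon (p := p) (frT B u) (Sum.elim (fun i => ⟨(m i % p).toNat, hmod i⟩)
        (fun j => β (Sum.inr j))) = (∏ i, B.χ (u i) ^ ((m i % p).toNat)) *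
          ∏ j, B.y j ^ (β (Sum.inr j) : ℕ) := by
      unfold mon
      rw [Fintype.prod_sum_type]
      rfl
    rw [hterm, hχ, h1, mul_pow]
    ring
  rw [hfin]
  exact (InQ.base hm _).mul_pow ((frI B).mul_mem hq (le_frI B (hNle (ha β))))

end Pool.Agent.ALLZO
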