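import Pool.Agent.Lib.ALLZO.CoordC4
import Pool.Agent.Lib.ALLZO.CoordE
import Pool.Agent.Lib.ALLZO.Z2e
import Pool.Agent.Lib.ALLZO.ZDefs

/-!
# PROJECT ALL, block Z, row T6: `p`-coordinates of `C[1/x]`
-/

set_option autoImplicit false

open Polynomial

namespace Pool.Agent.ALLZO

open Pool.Agent.TAO (OVal VPos Ctx0)
open Pool.Agent.ALLO (locv)
open Pool.Agent.LU1 (FracIs fixO mem_fixO)
open Pool.Agent.ALLO (FR icl ICl decP XD)
open Pool.Agent.ALLh94 (mon coord_mem)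

universe u w

variable {k Ω : Type u} [Field k] [Field Ω] [Algebra k Ω]
  {𝕂 : Type w} [Field 𝕂] [LinearOrder 𝕂] [IsStrictOrderedRing 𝕂] {v : OVal 𝕂 Ω} {nn : ℕ} {r D : ℕ}

theorem fr_χ_inv (B : FR k v D) {γ : 𝕂} (h : γ ∈ B.Γ) : (B.χ γ)⁻¹ = B.χ (-γ) :=
  (fr_χ_neg B h).symm

theorem xx_mem_R {F : FR k v D} {u : Fin r → 𝕂} {S : Set 𝕂} (hu : GoodBasis F.Γ S u) :
    xx F u ∈ F.R := OO_le hu xx_mem_OO

/-- The monomials are in `R[1/x]`. -/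
theorem χ_mem_invX {F : FR k v D} {u : Fin r → 𝕂} {S : Set 𝕂} (hu : GoodBasis F.Γ S u) {γ : 𝕂}
    (hγ : γ ∈ F.Γ) : F.χ γ ∈ invX F.R (xx F u) (xx_mem_R hu) := by
  obtain ⟨M, n, h1⟩ := χ_clear hu hγ
  refine ⟨M, ?_⟩
  rw [h1]
  exact Subalgebra.prod_mem _ fun i _ => Subalgebra.pow_mem _ (F.χ_mem _ (hu.mem i) (hu.pos i).le) _

theorem invX_mono {A B : Subalgebra k Ω} {x : Ω} {hx : x ∈ A} {hx' : x ∈ B} (h : A ≤ B) :
    invX A x hx ≤ invX B x hx' := fun _ ⟨M, hM⟩ => ⟨M, h hM⟩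

/-- `p`-coordinates of the ring of a frame. -/
theorem fr_coord {p : ℕ} [hp : Fact p.Prime] [CharP Ω p] (hk : ∀ c : k, ∃ d : k, d ^ p = c)
    {n : ℕ} (h : TAO.CtxR k v n r) (hr : 0 < r) (B : FR k v D) {S : Set 𝕂} {u : Fin r → 𝕂}
    (hu : GoodBasis B.Γ S u) :
    ∀ f ∈ B.R, ∃ c : (Fin r → Fin p) × (Fin D → Fin p) → Ω,
      (∀ μ, ∃ M : ℕ, xx B u ^ M * c μ ∈ B.R) ∧
      f = ∑ μ, H18.mm (fun i => B.χ (u i)) B.y μ * c μ ^ p := by
  classical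
  intro f hf
  obtain ⟨c, hc, e⟩ := (fr_pexp p h hk hr B hu).gen f (le_frI B hf)
  refine ⟨fun μ => c ((Equiv.sumArrowEquivProdArrow (Fin r) (Fin D) (Fin p)).symm μ),
    fun μ => ?_, ?_⟩
  · obtain ⟨γ, hγ, h1⟩ := hc ((Equiv.sumArrowEquivProdArrow (Fin r) (Fin D) (Fin p)).symm μ)
    obtain ⟨M, hM⟩ := χ_mem_invX hu (B.Γ.neg_mem hγ)
    refine ⟨M, ?_⟩
    have e2 : ∀ z : Ω, xx B u ^ M * z = (xx B u ^ M * B.χ (-γ)) * (B.χ γ * z) := by
      intro z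
      rw [← fr_χ_inv B hγ]
      have := B.χ_ne γ hγ
      field_simp
    rw [e2]
    exact B.R.mul_mem hM h1
  · rw [e, ← (Equiv.sumArrowEquivProdArrow (Fin r) (Fin D) (Fin p)).sum_comp]
    refine Finset.sum_congr rfl fun μ _ => ?_
    dsimp only
    rw [Equiv.symm_apply_apply]
    congr 1
    unfold ALLh94.mon H18.mm frT
    rw [Fintype.prod_sum_type]
    rfl

variable {K : IntermediateField k Ω} {N : IntermediateField K Ω} {H : Subgroup (N ≃ₐ[K] N)}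

/-- The inverse of `w = x χ(γ₀) Q` is in `C[1/x']`. -/
theorem w_inv_mem {p : ℕ} {E : IntermediateField k Ω} {Z : Finset Ω}
    {F F' : FR k v D} {Q Q' : Ω} (hX : XD v p E Z F K N H Q Q') (hF : F.Le F')
    (hm : F'.MonoIn (ICl v F'.R (N.restrictScalars k)) (Q * Q')) (hR' : NRing v K F'.R)
    {u : Fin r → 𝕂} {S : Set 𝕂} (hu : GoodBasis F'.Γ S u) {x0 : Ω} {γ₀ : 𝕂} (hγ₀ : γ₀ ∈ F.Γ)
    (hx0 : ∃ γ₁ ∈ F.Γ, x0 = F.χ γ₁) :
    ∃ M : ℕ, xx F' u ^ M * (x0 * (F.χ γ₀ * Q))⁻¹ ∈ AH v F'.R H := by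
  have hxR := xx_mem_R hu
  have hxN : xx F' u ∈ CN v F'.R N := intN_le_CN (le_intN hR'.frac.1 hxR)
  have hRN : F'.R ≤ CN v F'.R N := fun f hf => intN_le_CN (le_intN hR'.frac.1 hf)
  set T := invX (CN v F'.R N) (xx F' u) hxN with hT
  have hχ' : ∀ γ ∈ F'.Γ, F'.χ γ ∈ T := fun γ hγ => invX_mono hRN (χ_mem_invX hu hγ)
  have hχ : ∀ γ ∈ F.Γ, F.χ γ ∈ T := by
    intro γ hγ
    have h1 : F.χ γ = (F.χ γ / F'.χ γ) * F'.χ γ := by
      rw [div_mul_cancel₀ _ (F'.χ_ne γ (hF.Γ_le γ hγ))]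
    rw [h1]
    exact T.mul_mem (le_invX (hx := hxN) (hRN (hF.χ_un γ hγ).1)) (hχ' γ (hF.Γ_le γ hγ))
  have hχi : ∀ γ ∈ F.Γ, (F.χ γ)⁻¹ ∈ T := fun γ hγ => by
    rw [fr_χ_inv F hγ]
    exact hχ _ (F.Γ.neg_mem hγ)
  -- `Q'`
  have hCN : CN v F.R N ≤ CN v F'.R N := by
    refine locv_mono ?_
    intro g hg
    refine ⟨hg.1, ?_⟩
    obtain ⟨P, hP, hPg⟩ := hg.2
    refine ⟨P.map (Subalgebra.inclusion hF.le).toRingHom, hP.map _, ?_⟩
    rw [eval₂_map]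
    exact hPg
  have hQ' : Q' ∈ T := by
    obtain ⟨γ, hγ, h1⟩ := hX.Q'_int
    rw [ICl_eq_CN] at h1
    have h2 : Q' = (F.χ γ)⁻¹ * (F.χ γ * Q') := by
      rw [inv_mul_cancel_left₀ (F.χ_ne γ hγ)]
    rw [h2]
    exact T.mul_mem (hχi γ hγ) (le_invX (hx := hxN) (hCN h1))
  have hQQ : (Q * Q')⁻¹ ∈ T := by
    obtain ⟨h0, h1, h2⟩ := hm
    rw [ICl_eq_CN] at h2
    have hne := F'.χ_ne _ h1
    have h3 : v (Q * Q' / F'.χ (v (Q * Q'))) = 0 := by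
      rw [v.map_div h0 hne, F'.χ_val _ h1, sub_self]
    have h4 : (Q * Q')⁻¹ = F'.χ (-v (Q * Q')) * (Q * Q' / F'.χ (v (Q * Q')))⁻¹ := by
      rw [← fr_χ_inv F' h1]
      field_simp
    rw [h4]
    exact T.mul_mem (hχ' _ (F'.Γ.neg_mem h1))
      (le_invX (hx := hxN) (CN_inv h2 (div_ne_zero h0 hne) h3))
  have hQi : Q⁻¹ ∈ T := by
    have h1 : Q⁻¹ = Q' * (Q * Q')⁻¹ := by
      have := hX.Q'_ne
      have := hX.Q_ne
      field_simp
    rw [h1]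
    exact T.mul_mem hQ' hQQ
  obtain ⟨γ₁, hγ₁, rfl⟩ := hx0
  have hw : (F.χ γ₁ * (F.χ γ₀ * Q))⁻¹ ∈ T := by
    rw [mul_inv, mul_inv]
    exact T.mul_mem (hχi _ hγ₁) (T.mul_mem (hχi _ hγ₀) hQi)
  obtain ⟨M, hM⟩ := hw
  refine ⟨M, mem_AH.2 ⟨hM, ?_⟩⟩
  rw [hX.fix]
  have hxE : xx F' u ∈ E := hX.le (hR'.frac.1 _ hxR)
  have hχE : ∀ γ ∈ F.Γ, F.χ γ ∈ E := by
    intro γ hγ
    rcases le_total 0 γ with h0 | h0
    · exact hX.le (hX.frac.1 _ (F.χ_mem γ hγ h0))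
    · have h1 := hX.le (hX.frac.1 _ (F.χ_mem (-γ) (F.Γ.neg_mem hγ) (by linarith)))
      rw [← fr_χ_inv F hγ] at h1
      simpa using inv_mem h1
  exact mul_mem (pow_mem hxE _) (inv_mem (mul_mem (hχE _ hγ₁) (mul_mem (hχE _ hγ₀) hX.Q_mem)))

/-- `x` is a monomial. -/
theorem xx_eq {F : FR k v D} {u : Fin r → 𝕂} {S : Set 𝕂} (hu : GoodBasis F.Γ S u) :
    ∃ γ₁ ∈ F.Γ, xx F u = F.χ γ₁ := by
  have h1 := χ_sum F Finset.univ u hu.mem fun _ => 1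
  refine ⟨_, h1.1, ?_⟩
  rw [h1.2, xx]
  exact Finset.prod_congr rfl fun i _ => by rw [zpow_one]

end Pool.Agent.ALLZO

namespace Pool.Agent.ALLZO.H18

open Pool.Agent.ALLZO
open Pool.Agent.TAO (OVal VPos Ctx0)
open Pool.Agent.ALLO (locv)
open Pool.Agent.LU1 (FracIs fixO mem_fixO)
open Pool.Agent.ALLO (FR icl ICl decP XD)
open Pool.Agent.ALLh94 (mon coord_mem)

universe u w

variable {k Ω : Type u} [Field k] [Field Ω] [Algebra k Ω]
  {𝕂 : Type w} [Field 𝕂] [LinearOrder 𝕂] [IsStrictOrderedRing 𝕂] {v : OVal 𝕂 Ω} {nn : ℕ} {D : ℕ}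
variable {K : IntermediateField k Ω} {N : IntermediateField K Ω}
variable {p n r : ℕ} {H : Subgroup (N ≃ₐ[K] N)}

/-- **ROW T6**: `p`-coordinates of `C[1/x]`. -/
theorem coordC [hp : Fact p.Prime] [CharP Ω p] (hk : ∀ c : k, ∃ d : k, d ^ p = c)
    (h : TAO.CtxR k v n r) (hr : 0 < r) (hn : n = r + D)
    [FiniteDimensional K N] [IsGalois K N] {E : IntermediateField k Ω} {Z : Finset Ω}
    {F F' : FR k v D} {Q Q' : Ω} (hX : XD v p E Z F K N H Q Q') (hF : F.Le F')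
    (hm : F'.MonoIn (ICl v F'.R (N.restrictScalars k)) (Q * Q')) (hR : NRing v K F'.R)
    (u : Fin r → 𝕂) (hu : GoodBasis F'.Γ ∅ u) :
    ∀ a ∈ AH v F'.R H, ∃ c : (Fin r → Fin p) × (Fin D → Fin p) → Ω,
      (∀ μ, ∃ M : ℕ, (∏ i, F'.χ (u i)) ^ M * c μ ∈ AH v F'.R H) ∧
      a = ∑ μ, mm (fun i => F'.χ (u i)) F'.y μ * c μ ^ p := by
  classical
  have h0 : TAO.Ctx0 k v n := h.toCtx0
  have hRF : NRing v K F.R := fr_NRing p h hk hr hn F hX.frac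
  -- a level of `F`
  obtain ⟨S0, hS0, hlev⟩ := fr_level (r := r) h.toCtx0 hr F ∅ (by simp) hX.frac
  obtain ⟨u0, hu0⟩ := fr_exists_basis h hr F S0 hS0
  obtain ⟨L, hLx, hLy, -, -, hLK⟩ := hlev u0 hu0
  have hind : AlgebraicIndependent k (tt F u0) := by
    have h1 := L.algInd p h.toCtx0 hk hn F hX.frac hLK
    have h2 : L.t = tt F u0 := by
      funext i
      rcases i with i | j
      · exact hLx i
      · exact congrFun hLy j
    rwa [h2] at h1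
  have hessK : Algebra.EssFiniteType k K := frac_ess L hLK
  -- `E`
  have hEN : ∀ e ∈ E, e ∈ N := by
    intro e he
    rw [← hX.fix] at he
    exact fixO_le H he
  have hessE : Algebra.EssFiniteType k E := by
    let algKE : Algebra K E := (IntermediateField.inclusion hX.le).toRingHom.toAlgebra
    have htow : IsScalarTower k K E := IsScalarTower.of_algebraMap_eq fun _ => rfl
    let φ : E →ₐ[K] N :=
      { toFun := fun e => ⟨(e : Ω), hEN e e.2⟩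
        map_one' := rfl
        map_mul' := fun _ _ => rfl
        map_zero' := rfl
        map_add' := fun _ _ => rfl
        commutes' := fun _ => rfl }
    have hφ : Function.Injective φ := fun a b hab =>
      Subtype.ext (congrArg (fun z : N => (z : Ω)) hab)
    have hfd : FiniteDimensional K E := FiniteDimensional.of_injective φ.toLinearMap hφ
    exact Algebra.EssFiniteType.comp k K E
  have hsep : ∀ a ∈ E, IsSeparable K a := by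
    intro a ha
    have h1 : IsSeparable K (⟨a, hEN a ha⟩ : N) := Algebra.IsSeparable.isSeparable K _
    have h2 := minpoly.algebraMap_eq (A := K) (B := N) (B' := Ω) Subtype.val_injective
      ⟨a, hEN a ha⟩
    unfold IsSeparable at h1 ⊢
    rw [← h2] at h1
    exact h1
  obtain ⟨t, htx, hty, hexp, d, hd, -, hlogx, hlogy⟩ := exists_coordE p h hk hr hn F
    hX.frac hX.le hsep hessE hu0
  have htt : ∀ i, (t i : Ω) = tt F u0 i := by
    rintro (i | j)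
    · exact htx i
    · exact hty j
  -- `AH` and `ICl`
  have hIA : ∀ a, a ∈ ICl v F.R E ↔ a ∈ AH v F.R H := by
    intro a
    rw [← hX.fix]
    exact (mem_ICl_fixO h0 hRF H).trans mem_AH.symm
  obtain ⟨γ₀, hγ₀, hQint⟩ := hX.Q_int
  rw [hIA] at hQint
  have hxR := xx_mem_R hu0
  have hx0 := xx_ne hu0
  have hRA := le_AH (v := v) hRF.frac.1 H
  have hw : xx F u0 * (F.χ γ₀ * Q) ∈ AH v F.R H := mul_mem (hRA hxR) hQint
  have hw0 : xx F u0 * (F.χ γ₀ * Q) ≠ 0 :=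
    mul_ne_zero hx0 (mul_ne_zero (F.χ_ne _ hγ₀) hX.Q_ne)
  set w := xx F u0 * (F.χ γ₀ * Q) with hwdef
  set A := invX (AH v F.R H) w hw with hAdef
  have hAHA : AH v F.R H ≤ A := le_invX (hx := hw)
  have hwi : w⁻¹ ∈ A := ⟨1, by rw [pow_one, mul_inv_cancel₀ hw0]; exact one_mem _⟩
  have hxi : (xx F u0)⁻¹ ∈ A := by
    refine ⟨1, ?_⟩
    have e : w ^ 1 * (xx F u0)⁻¹ = F.χ γ₀ * Q := by
      rw [pow_one, hwdef]
      field_simp
    rw [e]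
    exact hQint
  have hχA : ∀ γ ∈ F.Γ, F.χ γ ∈ A := by
    intro γ hγ
    obtain ⟨M, hM⟩ := χ_mem_invX hu0 hγ
    refine ⟨M, ?_⟩
    have e : w ^ M * F.χ γ = (F.χ γ₀ * Q) ^ M * (xx F u0 ^ M * F.χ γ) := by
      rw [hwdef, mul_pow]
      ring
    rw [e]
    exact mul_mem (pow_mem hQint _) (hRA hM)
  have hχi : ∀ γ ∈ F.Γ, (F.χ γ)⁻¹ ∈ A := fun γ hγ => by
    rw [fr_χ_inv F hγ]
    exact hχA _ (F.Γ.neg_mem hγ)
  have hQi : Q⁻¹ ∈ A := by
    have e : Q⁻¹ = w⁻¹ * (xx F u0 * F.χ γ₀) := by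
      rw [hwdef]
      have := F.χ_ne _ hγ₀
      have := hX.Q_ne
      field_simp
    rw [e]
    exact A.mul_mem hwi (A.mul_mem (hAHA (hRA hxR)) (hχA _ hγ₀))
  -- stability under derivations
  have hAHE : ∀ f ∈ AH v F.R H, f ∈ E := fun f hf => hX.fix ▸ (mem_AH.1 hf).2
  have hst1 : ∀ δ : Derivation k E E, F.LogD δ → ∀ f : E, (f : Ω) ∈ AH v F.R H →
      (δ f : Ω) ∈ A := by
    intro δ hδ f hf
    obtain ⟨γ, hγ, h1⟩ := hX.der δ hδ f ((hIA _).2 hf)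
    rw [hIA] at h1
    have e : (δ f : Ω) = (F.χ γ)⁻¹ * (Q⁻¹ * (F.χ γ * (Q * (δ f : Ω)))) := by
      have := F.χ_ne _ hγ
      have := hX.Q_ne
      field_simp
    rw [e]
    exact A.mul_mem (hχi γ hγ) (A.mul_mem hQi (hAHA h1))
  have hwE : w ∈ E := hAHE w hw
  have hst2 : ∀ δ : Derivation k E E, F.LogD δ → ∀ e : E, (e : Ω) ∈ A → (δ e : Ω) ∈ A := by
    rintro δ hδ e ⟨M, hM⟩
    let wE : E := ⟨w, hwE⟩
    have e1 : δ (wE ^ M * e) = wE ^ M * δ e + e * δ (wE ^ M) := by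
      rw [Derivation.leibniz, smul_eq_mul, smul_eq_mul]
    have hwE0 : wE ^ M ≠ 0 := pow_ne_zero _ fun h1 => hw0 (congrArg Subtype.val h1)
    have e2 : δ e = (wE ^ M)⁻¹ * (δ (wE ^ M * e) - e * δ (wE ^ M)) := by
      rw [e1, add_sub_cancel_right, inv_mul_cancel_left₀ hwE0]
    have e3 : (δ e : Ω) = (w⁻¹) ^ M * ((δ (wE ^ M * e) : Ω) - (e : Ω) * (δ (wE ^ M) : Ω)) := by
      have := congrArg (fun z : E => (z : Ω)) e2
      rw [this]
      push_cast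
      rw [inv_pow]
    rw [e3]
    refine A.mul_mem (A.pow_mem hwi _) (A.sub_mem (hst1 δ hδ _ ?_) (A.mul_mem ⟨M, hM⟩
      (hst1 δ hδ _ ?_)))
    · push_cast
      exact hM
    · push_cast
      exact pow_mem hw _
  have hAd : ∀ i, ∀ e : E, (e : Ω) ∈ A → (d i e : Ω) ∈ A := by
    rintro (i | j) e he
    · have h1 := hst2 _ (hlogx i) e he
      have e1 : (d (Sum.inl i) e : Ω) = (F.χ (u0 i))⁻¹ *
          ((t (Sum.inl i) • d (Sum.inl i)) e : E) := by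
        rw [Derivation.smul_apply, smul_eq_mul, MulMemClass.coe_mul, htx]
        rw [inv_mul_cancel_left₀ (F.χ_ne _ (hu0.mem i))]
      rw [e1]
      exact A.mul_mem (hχi _ (hu0.mem i)) h1
    · exact hst2 _ (hlogy j) e he
  -- the conclusion
  have hnoe := OO_noeth hind
  have hnor := OO_normal hind
  intro a ha
  have hwC := w_inv_mem (H := H) hX hF hm hR hu hγ₀ (xx_eq hu0)
  have hmE : ∀ μ : (Fin r → Fin p) × (Fin D → Fin p), mm (fun i => F'.χ (u i)) F'.y μ ∈ E := by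
    intro μ
    refine hX.le (hR.frac.1 _ (F'.R.mul_mem (F'.R.prod_mem fun i _ => F'.R.pow_mem
      (F'.χ_mem _ (hu.mem i) (hu.pos i).le) _) (F'.R.prod_mem fun j _ => F'.R.pow_mem
      (F'.y_mem j) _)))
  exact coordC_core (p := p) h0 hRF hR hF.le H hX.fix hX.le (OO_le hu0)
    (OO_frac hX.rat hu0 hX.frac) hw hw0 (OO_den hX.rat hu0 (hRA.trans hAHA) hxi) t
    (fun i => by rw [htt]; exact tt_mem_OO i) d hd hexp hAd (xx_mem_R hu) (xx_ne hu) hwC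
    (fun μ => mm (fun i => F'.χ (u i)) F'.y μ) hmE (fr_coord hk h hr F' hu) a
    ⟨0, by rw [pow_zero, one_mul]; exact ha⟩

end Pool.Agent.ALLZO.H18
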