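import Pool.Agent.Lib.ALLZO.RDFrame
import Pool.Agent.Lib.ALLZO.Desc
import Pool.Agent.Lib.ALL_h61.L6aO
import Pool.Agent.Lib.ALL_h61.Chi

/-!
# PROJECT ALL, block Z, row (e): descent of a frame from `A₂` to `C` (any rank)

`B₂` is a frame of `K₂ = fixO K N (DP ⊓ H)` with ring `CN ⊓ K₂` and the parameters `y` of `B`,
`w` its content valuation.  Then `C = ICl v B.R (fixO K N H)` is the ring of a frame.
-/

set_option autoImplicit false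

open Polynomial

namespace Pool.Agent.ALLZO

open Pool.Agent.TAO (OVal VPos val_add_vpos Ctx0)
open Pool.Agent.ALLO (locv)
open Pool.Agent.LU1 (FracIs fixO mem_fixO)
open Pool.Agent.ALLO (FR icl ICl decP)
open Pool.Agent.ALL61O (DS Lc)

universe u w

variable {k Ω : Type u} [Field k] [Field Ω] [Algebra k Ω] {𝕂 : Type w} [Field 𝕂] [LinearOrder 𝕂]
  [IsStrictOrderedRing 𝕂] {v : OVal 𝕂 Ω} {nn : ℕ} {D : ℕ}
variable {R : Subalgebra k Ω} {F : IntermediateField k Ω} {N : IntermediateField F Ω}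

/-- The restriction of a valuation. -/
def resN (w : OVal 𝕂 Ω) (N : IntermediateField F Ω) : OVal 𝕂 N where
  toFun := fun n => w (n : Ω)
  map_mul' := fun _ _ hx hy => w.map_mul' _ _ (fun h => hx (Subtype.ext h))
    (fun h => hy (Subtype.ext h))
  map_add' := fun _ _ hx hy hxy => w.map_add' _ _ (fun h => hx (Subtype.ext h))
    (fun h => hy (Subtype.ext h)) (fun h => hxy (Subtype.ext h))

theorem coe_ne {a : N} : (a : Ω) ≠ 0 ↔ a ≠ 0 :=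
  ⟨fun h h1 => h (by rw [h1]; rfl), fun h h1 => h (Subtype.ext h1)⟩

theorem resN_ge {w : OVal 𝕂 Ω} {a : N} {c : 𝕂} : (resN w N).Ge c a ↔ w.Ge c (a : Ω) :=
  ⟨fun h h0 => h (coe_ne.1 h0), fun h h0 => h (coe_ne.2 h0)⟩

theorem resN_vpos {w : OVal 𝕂 Ω} {a : N} : VPos (resN w N) a ↔ VPos w (a : Ω) :=
  ⟨fun h h0 => h (coe_ne.1 h0), fun h h0 => h (coe_ne.2 h0)⟩

/-- The integral elements of `N`. -/
def intS (R : Subalgebra k Ω) (N : IntermediateField F Ω) : Subring N where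
  carrier := {n | IsIntegral R (n : Ω)}
  mul_mem' := fun ha hb => IsIntegral.mul ha hb
  add_mem' := fun ha hb => IsIntegral.add ha hb
  one_mem' := by
    change IsIntegral R ((1 : N) : Ω)
    rw [OneMemClass.coe_one]
    exact isIntegral_one
  zero_mem' := by
    change IsIntegral R ((0 : N) : Ω)
    rw [ZeroMemClass.coe_zero]
    exact isIntegral_zero
  neg_mem' := fun ha => IsIntegral.neg ha

theorem mem_intS {n : N} : n ∈ intS R N ↔ IsIntegral R (n : Ω) := Iff.rfl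

theorem mem_Lc {a : N} : a ∈ Lc (intS R N) (resN v N) ↔ (a : Ω) ∈ CN v R N := by
  constructor
  · rintro ⟨b, hb, t, ht, ht0, hvt, hab⟩
    refine ⟨b, ⟨b.2, hb⟩, t, ⟨t.2, ht⟩, coe_ne.2 ht0, hvt, ?_⟩
    rw [eq_div_iff (coe_ne.2 ht0), ← hab]
    rfl
  · rintro ⟨b, hb, t, ht, ht0, hvt, hab⟩
    refine ⟨⟨b, hb.1⟩, hb.2, ⟨t, ht.1⟩, ht.2, fun h => ht0 (congrArg Subtype.val h), hvt, ?_⟩
    apply Subtype.ext
    rw [MulMemClass.coe_mul, hab]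
    exact div_mul_cancel₀ _ ht0

/-- `w ≥ 0` on `R₂` implies that integral elements outside the centre have `w`-value `0`. -/
theorem w_unit [FiniteDimensional F N] (hR : NRing v F R) {w : OVal 𝕂 Ω}
    (hwR : ∀ f ∈ R, w.Ge 0 f) (hwRD : ∀ f ∈ RD v R N hR.frac.1, w.Ge 0 f) {t : N}
    (ht : IsIntegral R (t : Ω)) (h0 : (t : Ω) ≠ 0) (h1 : v (t : Ω) = 0) : w (t : Ω) = 0 := by
  obtain ⟨s, hs, hts, hfix, hts0, hvts⟩ := exists_norm hR ht h0 h1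
  have hs0 : (s : Ω) ≠ 0 := by
    intro h
    apply hts0
    rw [MulMemClass.coe_mul, h, mul_zero]
  have hm : ((t * s : N) : Ω) ∈ RD v R N hR.frac.1 :=
    ⟨intN_le_CN ⟨(t * s : N).2, hts⟩, (mem_fixO F N _ _).2 ⟨_, rfl, hfix⟩⟩
  have h2 := hwRD _ hm hts0
  have h3 := hwRD _ (RD_inv hm hts0 hvts) (inv_ne_zero hts0)
  rw [w.map_inv hts0] at h3
  rw [MulMemClass.coe_mul, w.map_mul h0 hs0] at h2 h3
  have h4 := int_ge hwR ht h0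
  have h5 := int_ge hwR hs hs0
  linarith

theorem ds_inst [FiniteDimensional F N] (hR : NRing v F R) (H : Subgroup (N ≃ₐ[F] N)) {θ : N}
    (hθ : IsTheta v R N hR.frac.1 θ) {w : OVal 𝕂 Ω} (hwR : ∀ f ∈ R, w.Ge 0 f)
    (hwRD : ∀ f ∈ RD v R N hR.frac.1, w.Ge 0 f) (Γ : AddSubgroup 𝕂) (χ : 𝕂 → Ω)
    (hχF : ∀ γ ∈ Γ, χ γ ∈ F) (hχ : ∀ γ ∈ Γ, χ γ ≠ 0)
    (hχa : ∀ γ ∈ Γ, ∀ δ ∈ Γ, χ (γ + δ) = χ γ * χ δ) :
    DS H (DP v R N hR.frac.1) (intS R N) (resN v N) (resN w N) θ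
      {n : N | ∃ γ ∈ Γ, (n : Ω) = χ γ} := by
  have hχ0 : χ 0 = 1 := by
    have h := hχa 0 Γ.zero_mem 0 Γ.zero_mem
    rw [add_zero] at h
    exact (mul_right_cancel₀ (hχ 0 Γ.zero_mem) (by rw [one_mul]; exact h)).symm
  refine ⟨fun σ a ha => int_map hR.frac.1 σ ha, fun a ha => resN_ge.2 (int_ge hR.nonneg ha),
    fun a ha => resN_ge.2 (int_ge hwR ha), fun σ hσ a ha h => resN_vpos.2 ((hσ a ha).1
      (resN_vpos.1 h)), fun a ha h => ?_, hθ.int, hθ.fix, coe_ne.1 hθ.val.1, hθ.val.2,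
    fun σ hσ => resN_vpos.2 (hθ.mov σ hσ), ?_, ?_, ?_, ?_, ?_⟩
  · rw [resN_vpos] at h ⊢
    by_contra hcon
    obtain ⟨h1, h2⟩ := val_eq_zero hR.nonneg ha hcon
    have h3 := h h1
    rw [w_unit hR hwR hwRD ha h1 h2] at h3
    exact lt_irrefl _ h3
  · rintro g ⟨γ, hγ, hg⟩
    rw [← coe_ne, hg]
    exact hχ γ hγ
  · rintro g ⟨γ, hγ, hg⟩ σ
    have h1 : g = algebraMap F N ⟨χ γ, hχF γ hγ⟩ := Subtype.ext hg
    rw [h1, AlgEquiv.commutes]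
  · exact ⟨0, Γ.zero_mem, by rw [hχ0]; rfl⟩
  · rintro g ⟨γ, hγ, hg⟩ g' ⟨δ, hδ, hg'⟩
    exact ⟨γ + δ, Γ.add_mem hγ hδ, by rw [MulMemClass.coe_mul, hg, hg', hχa γ hγ δ hδ]⟩
  · rintro g ⟨γ, hγ, hg⟩
    refine ⟨-γ, Γ.neg_mem hγ, ?_⟩
    have h1 := hχa γ hγ (-γ) (Γ.neg_mem hγ)
    rw [add_neg_cancel, hχ0] at h1
    push_cast
    rw [hg]
    exact inv_eq_of_mul_eq_one_right h1.symm

/-! ### `A₂ = locv C[θ]` -/

/-- The polynomial of `θ` over `fixO F N H`. -/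
noncomputable def fH [FiniteDimensional F N] (θ : N) (H : Subgroup (N ≃ₐ[F] N)) : N[X] :=
  ∏ t ∈ IsTheta.orb θ H, (X - C t)

theorem fH_monic [FiniteDimensional F N] (θ : N) (H : Subgroup (N ≃ₐ[F] N)) :
    (fH θ H).Monic := monic_prod_of_monic _ _ fun t _ => monic_X_sub_C t

theorem fH_natDegree [FiniteDimensional F N] (θ : N) (H : Subgroup (N ≃ₐ[F] N)) :
    (fH θ H).natDegree = (IsTheta.orb θ H).card := by
  rw [fH, natDegree_prod_of_monic _ _ fun t _ => monic_X_sub_C t]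
  simp

theorem fH_eval [FiniteDimensional F N] (θ : N) (H : Subgroup (N ≃ₐ[F] N)) :
    (fH θ H).eval θ = 0 := by
  rw [fH, eval_prod]
  refine Finset.prod_eq_zero (IsTheta.self_mem_orb H) ?_
  simp

theorem fH_map [FiniteDimensional F N] (θ : N) (H : Subgroup (N ≃ₐ[F] N)) {σ : N ≃ₐ[F] N}
    (hσ : σ ∈ H) : (fH θ H).map (σ : N →+* N) = fH θ H := by
  rw [fH, Polynomial.map_prod]
  refine Finset.prod_bij (fun t _ => σ t) ?_ ?_ ?_ ?_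
  · intro t ht
    obtain ⟨τ, hτ, rfl⟩ := IsTheta.mem_orb.1 ht
    exact IsTheta.mem_orb.2 ⟨σ * τ, H.mul_mem hσ hτ, rfl⟩
  · intro a _ b _ hab
    exact σ.injective hab
  · intro t ht
    obtain ⟨τ, hτ, rfl⟩ := IsTheta.mem_orb.1 ht
    refine ⟨(σ⁻¹ * τ) θ, IsTheta.mem_orb.2 ⟨σ⁻¹ * τ, H.mul_mem (H.inv_mem hσ) hτ, rfl⟩, ?_⟩
    rw [← AlgEquiv.mul_apply, mul_inv_cancel_left]
  · intro t _
    simp

/-- An integral element fixed by `H` is in `icl R (fixO F N H)`. -/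
theorem mem_icl_fixO {H : Subgroup (N ≃ₐ[F] N)} {n : N} (hn : IsIntegral R (n : Ω))
    (hf : ∀ σ ∈ H, σ n = n) : (n : Ω) ∈ icl R (fixO F N H) :=
  ⟨(mem_fixO F N H _).2 ⟨n, rfl, hf⟩, hn⟩

/-- The coefficients of an invariant polynomial with integral coefficients. -/
theorem coeff_mem_icl {H : Subgroup (N ≃ₐ[F] N)} {g : N[X]} (hg : PI R g)
    (hf : ∀ σ ∈ H, g.map (σ : N →+* N) = g) (i : ℕ) :
    ((g.coeff i : N) : Ω) ∈ icl R (fixO F N H) := by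
  refine mem_icl_fixO (hg i) fun σ hσ => ?_
  have h1 := congrArg (fun P => P.coeff i) (hf σ hσ)
  rw [Polynomial.coeff_map] at h1
  exact h1

theorem fH_PI [FiniteDimensional F N] {hR : ∀ f ∈ R, f ∈ F} {θ : N} (hθ : IsTheta v R N hR θ)
    (H : Subgroup (N ≃ₐ[F] N)) : PI R (fH θ H) :=
  PI.prod _ _ fun _ ht => PI.X_sub_C (hθ.int_orb ht)

theorem eval_mem_adjoin_H [FiniteDimensional F N] {H : Subgroup (N ≃ₐ[F] N)} {g : N[X]}
    (hg : PI R g) (hf : ∀ σ ∈ H, g.map (σ : N →+* N) = g) (θ : N) :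
    ((g.eval θ : N) : Ω) ∈ Algebra.adjoin k ((ICl v R (fixO F N H) : Set Ω) ∪ {(θ : Ω)}) := by
  rw [eval_eq_sum_range]
  push_cast
  have hθ : (θ : Ω) ∈ Algebra.adjoin k ((ICl v R (fixO F N H) : Set Ω) ∪ {(θ : Ω)}) :=
    Algebra.subset_adjoin (Or.inr rfl)
  refine sum_mem fun i _ => mul_mem (Algebra.subset_adjoin (Or.inl ?_)) (pow_mem hθ i)
  exact le_locv _ (coeff_mem_icl hg hf i)

/-- `A₂ = locv C[θ]`. -/
theorem A2_eq (h : Ctx0 k v nn) [FiniteDimensional F N] (hR : NRing v F R) {θ : N}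
    (hθ : IsTheta v R N hR.frac.1 θ) (H : Subgroup (N ≃ₐ[F] N)) {A₂ : Subalgebra k Ω}
    (hA : ∀ f, f ∈ A₂ ↔ f ∈ CN v R N ∧ f ∈ fixO F N (DP v R N hR.frac.1 ⊓ H)) :
    A₂ = locv v (Algebra.adjoin k ((ICl v R (fixO F N H) : Set Ω) ∪ {(θ : Ω)})) := by
  have key : ∀ s : N, IsIntegral R (s : Ω) → (∀ σ ∈ DP v R N hR.frac.1 ⊓ H, σ s = s) →
      ((s * IsTheta.du θ H : N) : Ω) ∈
        Algebra.adjoin k ((ICl v R (fixO F N H) : Set Ω) ∪ {(θ : Ω)}) := by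
    intro s hs hsf
    obtain ⟨g, hg, hgf, hge⟩ := hθ.lagrange H hs hsf
    rw [← hge]
    exact eval_mem_adjoin_H hg hgf θ
  apply le_antisymm
  · intro a ha
    obtain ⟨ha, ha2⟩ := (hA a).1 ha
    obtain ⟨n, rfl, hn⟩ := (mem_fixO F N _ a).1 ha2
    obtain ⟨s, t, hs, ht, hsf, htf, ht0, ht1, rfl⟩ := CN_frac hR H ha hn
    have hu := hθ.du_val H
    have hsu := key s hs hsf
    have htu := key t ht fun σ hσ => htf σ hσ.1
    have hu0 : IsTheta.du θ H ≠ 0 := coe_ne.1 hu.1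
    refine ⟨_, hsu, _, htu, ?_, ?_, ?_⟩
    · rw [MulMemClass.coe_mul]; exact mul_ne_zero ht0 hu.1
    · rw [MulMemClass.coe_mul, v.map_mul ht0 hu.1, ht1, hu.2, add_zero]
    · rw [← IntermediateField.coe_div, mul_div_mul_right _ _ hu0]
  · refine locv_le (Algebra.adjoin_le ?_) fun f hf h0 h1 => ?_
    · rintro f (hf | hf)
      · rw [SetLike.mem_coe, mem_ICl_fixO h hR H] at hf
        refine (hA f).2 ⟨hf.1, ?_⟩
        obtain ⟨n, rfl, hn⟩ := (mem_fixO F N _ f).1 hf.2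
        exact (mem_fixO F N _ _).2 ⟨n, rfl, fun σ hσ => hn σ hσ.2⟩
      · rw [Set.mem_singleton_iff] at hf
        subst hf
        exact (hA _).2 ⟨intN_le_CN ⟨θ.2, hθ.int⟩,
          (mem_fixO F N _ _).2 ⟨θ, rfl, fun σ hσ => hθ.fix σ hσ.1⟩⟩
    · obtain ⟨h2, h3⟩ := (hA f).1 hf
      exact (hA _).2 ⟨CN_inv h2 h0 h1, inv_mem (S := IntermediateField k Ω) h3⟩

/-- The powers `θ^i`, `i < |H θ|`, are independent over `fixO F N H`. -/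
theorem fH_ind [FiniteDimensional F N] (θ : N) (H : Subgroup (N ≃ₐ[F] N)) (c : ℕ → Ω)
    (hc : ∀ i, c i ∈ fixO F N H)
    (h0 : ∑ i ∈ Finset.range (IsTheta.orb θ H).card, c i * (θ : Ω) ^ i = 0) :
    ∀ i < (IsTheta.orb θ H).card, c i = 0 := by
  classical
  have h1 : ∀ i, ∃ n : N, (n : Ω) = c i ∧ ∀ σ ∈ H, σ n = n := fun i =>
    (mem_fixO F N H _).1 (hc i)
  choose n hn hnf using h1
  set q : N[X] := ∑ i ∈ Finset.range (IsTheta.orb θ H).card, C (n i) * X ^ i with hq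
  have hqc : ∀ i < (IsTheta.orb θ H).card, q.coeff i = n i := by
    intro i hi
    rw [hq, finsetSum_coeff, Finset.sum_eq_single i]
    · simp
    · intro j _ hj
      rw [coeff_C_mul, coeff_X_pow, if_neg (Ne.symm hj), mul_zero]
    · intro h
      exact absurd (Finset.mem_range.2 hi) h
  have hθ0 : q.eval θ = 0 := by
    apply Subtype.ext
    rw [hq, eval_finsetSum]
    push_cast
    rw [← h0]
    refine Finset.sum_congr rfl fun i _ => ?_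
    rw [eval_mul, eval_C, eval_pow, eval_X]
    push_cast
    rw [hn]
  have hqσ : ∀ σ ∈ H, q.eval (σ θ) = 0 := by
    intro σ hσ
    have h2 : σ (q.eval θ) = q.eval (σ θ) := by
      rw [hq, eval_finsetSum, eval_finsetSum, _root_.map_sum]
      refine Finset.sum_congr rfl fun i _ => ?_
      rw [eval_mul, eval_C, eval_pow, eval_X, eval_mul, eval_C, eval_pow, eval_X,
        _root_.map_mul, _root_.map_pow, hnf i σ hσ]
    rw [← h2, hθ0, _root_.map_zero]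
  have hq0 : q = 0 := by
    by_contra hne
    have h2 : (IsTheta.orb θ H) ⊆ q.roots.toFinset := by
      intro t ht
      obtain ⟨σ, hσ, rfl⟩ := IsTheta.mem_orb.1 ht
      rw [Multiset.mem_toFinset, mem_roots hne]
      exact hqσ σ hσ
    have h3 := Finset.card_le_card h2
    have h4 : q.roots.toFinset.card ≤ q.natDegree :=
      (Multiset.toFinset_card_le _).trans (card_roots' q)
    have h5 : q.natDegree < (IsTheta.orb θ H).card := by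
      have hpos : 0 < (IsTheta.orb θ H).card :=
        Finset.card_pos.2 ⟨θ, IsTheta.self_mem_orb H⟩
      have h6 : q.degree < (IsTheta.orb θ H).card := by
        rw [hq]
        refine (degree_sum_le _ _).trans_lt ?_
        rw [Finset.sup_lt_iff (by exact_mod_cast WithBot.bot_lt_coe _)]
        intro i hi
        refine (degree_C_mul_X_pow_le i (n i)).trans_lt ?_
        exact_mod_cast Finset.mem_range.1 hi
      exact (natDegree_lt_iff_degree_lt hne).2 h6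
    omega
  intro i hi
  rw [← hn, ← hqc i hi, hq0, coeff_zero]
  rfl

/-! ### The descent -/

/-- The units of a local ring. -/
def unitsOf (v : OVal 𝕂 Ω) (A : Subalgebra k Ω)
    (hl : ∀ a ∈ A, a ≠ 0 → v a = 0 → a⁻¹ ∈ A) : Subgroup Ωˣ where
  carrier := {u | (u : Ω) ∈ A ∧ v (u : Ω) = 0}
  mul_mem' := by
    intro a b ha hb
    refine ⟨?_, ?_⟩
    · rw [Units.val_mul]; exact A.mul_mem ha.1 hb.1
    · rw [Units.val_mul, v.map_mul a.ne_zero b.ne_zero, ha.2, hb.2, add_zero]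
  one_mem' := ⟨by rw [Units.val_one]; exact A.one_mem, by rw [Units.val_one, v.map_one]⟩
  inv_mem' := by
    intro a ha
    refine ⟨?_, ?_⟩
    · rw [Units.val_inv_eq_inv_val]; exact hl _ ha.1 a.ne_zero ha.2
    · rw [Units.val_inv_eq_inv_val, v.map_inv a.ne_zero, ha.2, neg_zero]

/-- The units in a field. -/
def unitsIn (E : IntermediateField k Ω) : Subgroup Ωˣ where
  carrier := {u | (u : Ω) ∈ E}
  mul_mem' := by
    intro a b ha hb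
    change ((a * b : Ωˣ) : Ω) ∈ E
    rw [Units.val_mul]; exact E.mul_mem ha hb
  one_mem' := by
    change ((1 : Ωˣ) : Ω) ∈ E
    rw [Units.val_one]; exact E.one_mem
  inv_mem' := by
    intro a ha
    change ((a⁻¹ : Ωˣ) : Ω) ∈ E
    rw [Units.val_inv_eq_inv_val]; exact E.inv_mem ha

/-- `w` is a content valuation of the frame `B`. -/
structure CW (B : FR k v D) (w : OVal 𝕂 Ω) : Prop where
  val : ∀ γ ∈ B.Γ, w (B.χ γ) = γ
  nonneg : ∀ f ∈ B.R, w.Ge 0 f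
  mem : ∀ f ∈ B.R, f ≠ 0 → w f ∈ B.Γ ∧ f / B.χ (w f) ∈ B.R

theorem fr_χ_negD (B : FR k v D) {γ : 𝕂} (hγ : γ ∈ B.Γ) : B.χ (-γ) = (B.χ γ)⁻¹ := by
  have h1 := B.χ_add γ hγ (-γ) (B.Γ.neg_mem hγ)
  rw [add_neg_cancel, fr_χ_zeroR] at h1
  exact eq_inv_of_mul_eq_one_right h1.symm

theorem fr_χ_nsmulD (B : FR k v D) {γ : 𝕂} (hγ : γ ∈ B.Γ) (m : ℕ) :
    B.χ ((m : 𝕂) * γ) = B.χ γ ^ m := by
  induction m with
  | zero => rw [Nat.cast_zero, zero_mul, fr_χ_zeroR, pow_zero]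
  | succ m ih =>
    have h1 : ((m : 𝕂)) * γ ∈ B.Γ := by
      rw [← nsmul_eq_mul]; exact B.Γ.nsmul_mem hγ m
    have h2 : ((m + 1 : ℕ) : 𝕂) * γ = (m : 𝕂) * γ + γ := by push_cast; ring
    rw [h2, B.χ_add _ h1 γ hγ, ih, pow_succ]

/-- Row (e), the core: `C = ICl v B.R E` is the ring of a frame. -/
theorem descend_core (h : Ctx0 k v nn) (B : FR k v D) {K : IntermediateField k Ω}
    {N : IntermediateField K Ω} [FiniteDimensional K N] (hR : NRing v K B.R)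
    (H : Subgroup (N ≃ₐ[K] N)) (B₂ : FR k v D)
    (hB₂ : ∀ f, f ∈ B₂.R ↔ f ∈ CN v B.R N ∧ f ∈ fixO K N (DP v B.R N hR.frac.1 ⊓ H))
    (hΓ : ∀ γ ∈ B.Γ, γ ∈ B₂.Γ) (hχ : ∀ γ ∈ B.Γ, B₂.Un (B.χ γ / B₂.χ γ)) (hy : B₂.y = B.y)
    (w : OVal 𝕂 Ω) (hwχ₂ : ∀ γ ∈ B₂.Γ, w (B₂.χ γ) = γ) (hwA : ∀ f ∈ B₂.R, w.Ge 0 f)
    (hcut : ∀ b ∈ fixO K N (DP v B.R N hR.frac.1 ⊓ H), (∃ γ ∈ B.Γ, B.χ γ * b ∈ B₂.R) →
      w.Ge 0 b → b ∈ B₂.R) :
    ∃ C : FR k v D, C.R = ICl v B.R (fixO K N H) ∧ C.Γ = B₂.Γ ∧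
      (∀ γ ∈ B₂.Γ, C.χ γ ∈ fixO K N H) ∧ (∀ γ ∈ B₂.Γ, B₂.Un (C.χ γ / B₂.χ γ)) ∧
      (∀ γ ∈ B.Γ, C.Un (B.χ γ / C.χ γ)) ∧ C.y = B.y := by
  classical
  obtain ⟨θ, hθ⟩ := exists_isTheta (N := N) h hR
  set D₀ := DP v B.R N hR.frac.1 with hD₀
  set E := fixO K N H with hE
  set K₂ := fixO K N (D₀ ⊓ H) with hK₂
  have hEK : ∀ f ∈ E, f ∈ K₂ := by
    intro f hf
    obtain ⟨n, rfl, hn⟩ := (mem_fixO K N H f).1 hf
    exact (mem_fixO K N _ _).2 ⟨n, rfl, fun σ hσ => hn σ hσ.2⟩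
  have hKE : ∀ f ∈ K, f ∈ E := fun f hf =>
    (mem_fixO K N H f).2 ⟨algebraMap K N ⟨f, hf⟩, rfl, fun σ _ => σ.commutes _⟩
  have hRA : ∀ f ∈ B.R, f ∈ B₂.R := fun f hf =>
    (hB₂ f).2 ⟨intN_le_CN (le_intN hR.frac.1 hf), hEK f (hKE f (hR.frac.1 f hf))⟩
  have hχK : ∀ γ ∈ B.Γ, B.χ γ ∈ K := by
    intro γ hγ
    rcases le_total 0 γ with h0 | h0
    · exact hR.frac.1 _ (B.χ_mem γ hγ h0)
    · have h1 := K.inv_mem (hR.frac.1 _ (B.χ_mem (-γ) (B.Γ.neg_mem hγ) (by linarith)))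
      rwa [fr_χ_negD B hγ, inv_inv] at h1
  have hχ₂K : ∀ γ ∈ B₂.Γ, B₂.χ γ ∈ K₂ := by
    intro γ hγ
    rcases le_total 0 γ with h0 | h0
    · exact ((hB₂ _).1 (B₂.χ_mem γ hγ h0)).2
    · have h1 := K₂.inv_mem ((hB₂ _).1 (B₂.χ_mem (-γ) (B₂.Γ.neg_mem hγ) (by linarith))).2
      rwa [fr_χ_negD B₂ hγ, inv_inv] at h1
  have hwR : ∀ f ∈ B.R, w.Ge 0 f := fun f hf => hwA f (hRA f hf)
  have hwRD : ∀ f ∈ RD v B.R N hR.frac.1, w.Ge 0 f := by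
    intro f hf
    refine hwA f ((hB₂ f).2 ⟨hf.1, ?_⟩)
    obtain ⟨n, rfl, hn⟩ := (mem_fixO K N _ f).1 hf.2
    exact (mem_fixO K N _ _).2 ⟨n, rfl, fun σ hσ => hn σ hσ.1⟩
  have hds := ds_inst hR H hθ hwR hwRD B.Γ B.χ hχK B.χ_ne B.χ_add
  have hwχ : ∀ γ ∈ B.Γ, w (B.χ γ) = γ := by
    intro γ hγ
    obtain ⟨h1, h2, h3⟩ := hχ γ hγ
    have h4 := hwA _ h1 h2
    have h5 := hwA _ (B₂.loc _ h1 h2 h3) (inv_ne_zero h2)
    rw [w.map_inv h2] at h5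
    rw [w.map_div (B.χ_ne γ hγ) (B₂.χ_ne γ (hΓ γ hγ)), hwχ₂ γ (hΓ γ hγ)] at h4 h5
    linarith
  -- the condition `h1`
  have hh1 : ∀ b : N, (∀ σ ∈ D₀, σ ∈ H → σ b = b) →
      (∃ g ∈ {n : N | ∃ γ ∈ B.Γ, (n : Ω) = B.χ γ}, g * b ∈ Lc (intS B.R N) (resN v N)) →
      (resN w N).Ge 0 b → b ∈ Lc (intS B.R N) (resN v N) := by
    rintro b hb ⟨g, ⟨γ, hγ, hg⟩, hgb⟩ hwb
    rw [mem_Lc] at hgb ⊢
    rw [resN_ge] at hwb
    have hbK : (b : Ω) ∈ K₂ := (mem_fixO K N _ _).2 ⟨b, rfl, fun σ hσ => hb σ hσ.1 hσ.2⟩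
    rw [MulMemClass.coe_mul, hg] at hgb
    have h1 : B.χ γ * (b : Ω) ∈ B₂.R :=
      (hB₂ _).2 ⟨hgb, K₂.mul_mem (hEK _ (hKE _ (hχK γ hγ))) hbK⟩
    exact ((hB₂ _).1 (hcut _ hbK ⟨γ, hγ, h1⟩ hwb)).1
  -- the units
  set U := unitsOf v B₂.R B₂.loc with hU
  have hunit : ∀ γ (hγ : γ ∈ B₂.Γ), ∃ c ∈ unitsIn E,
      c / Units.mk0 (B₂.χ γ) (B₂.χ_ne γ hγ) ∈ U := by
    intro γ hγ
    obtain ⟨a, ha, haf⟩ := (mem_fixO K N _ _).1 (hχ₂K γ hγ)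
    have ha0 : a ≠ 0 := by
      rw [← coe_ne, ha]; exact B₂.χ_ne γ hγ
    obtain ⟨e, he, heγ⟩ := B.full (B₂.χ γ) (B₂.χ_ne γ hγ)
    rw [B₂.χ_val γ hγ] at heγ
    -- a monomial which makes `χ₂ γ` integral
    have hden : ∀ γ ∈ B₂.Γ, (e : 𝕂) * γ ∈ B.Γ → ∃ g ∈ {n : N | ∃ γ ∈ B.Γ, (n : Ω) = B.χ γ},
        (g : Ω) * B₂.χ γ ∈ CN v B.R N := by
      intro γ hγ heγ
      have h1 : ∃ δ ∈ B.Γ, 0 ≤ δ + γ := by
        rcases le_total 0 γ with h0 | h0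
        · exact ⟨0, B.Γ.zero_mem, by linarith⟩
        · refine ⟨-(e * γ), B.Γ.neg_mem heγ, ?_⟩
          have h1 : (1 : 𝕂) ≤ e := by exact_mod_cast he
          nlinarith
      obtain ⟨δ, hδ, hδγ⟩ := h1
      refine ⟨algebraMap K N ⟨B.χ δ, hχK δ hδ⟩, ⟨δ, hδ, rfl⟩, ?_⟩
      have h2 : B.χ δ * B₂.χ γ = (B.χ δ / B₂.χ δ) * B₂.χ (δ + γ) := by
        rw [B₂.χ_add δ (hΓ δ hδ) γ hγ]
        have := B₂.χ_ne δ (hΓ δ hδ)
        field_simp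
      have h3 : B.χ δ * B₂.χ γ ∈ B₂.R := by
        rw [h2]
        exact B₂.R.mul_mem (hχ δ hδ).1 (B₂.χ_mem _ (B₂.Γ.add_mem (hΓ δ hδ) hγ) hδγ)
      exact ((hB₂ _).1 h3).1
    obtain ⟨g, hg, hga⟩ := hden γ hγ heγ
    obtain ⟨g', hg', hga'⟩ := hden (-γ) (B₂.Γ.neg_mem hγ) (by
      rw [mul_neg]; exact B.Γ.neg_mem heγ)
    obtain ⟨c, hc0, hcf, -, hca, hcv⟩ := hds.descend hh1 ha0 (fun σ h1 h2 => haf σ ⟨h1, h2⟩)
      ⟨g, hg, by rw [mem_Lc, MulMemClass.coe_mul, ha]; exact hga⟩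
      ⟨g', hg', by
        rw [mem_Lc, MulMemClass.coe_mul]
        push_cast
        rw [ha, ← fr_χ_negD B₂ hγ]
        exact hga'⟩
      ⟨e, he, algebraMap K N ⟨B.χ (e * γ), hχK _ heγ⟩, ⟨e * γ, heγ, rfl⟩, by
        change (e : 𝕂) * w (a : Ω) = w (B.χ (e * γ))
        rw [hwχ _ heγ, ha, hwχ₂ γ hγ]⟩
    have hcΩ : (c : Ω) ≠ 0 := coe_ne.2 hc0
    have hcE : (c : Ω) ∈ E := (mem_fixO K N _ _).2 ⟨c, rfl, hcf⟩
    rw [mem_Lc] at hca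
    have h1 : ((c / a : N) : Ω) = (c : Ω) / B₂.χ γ := by
      push_cast
      rw [ha]
    have h2 : (c : Ω) / B₂.χ γ ∈ B₂.R := by
      rw [← h1]
      refine (hB₂ _).2 ⟨hca, ?_⟩
      rw [h1]
      exact div_mem (S := IntermediateField k Ω) (hEK _ hcE) (hχ₂K γ hγ)
    refine ⟨Units.mk0 (c : Ω) hcΩ, hcE, ?_, ?_⟩
    · rw [Units.val_div_eq_div_val]
      exact h2
    · rw [Units.val_div_eq_div_val]
      change v ((c : Ω) / B₂.χ γ) = 0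
      rw [← h1]
      exact hcv
  obtain ⟨ψ, hψ0, hψa, hψ⟩ := ALL61C.exists_chi B₂.Γ B₂.fg B₂.χ B₂.χ_ne B₂.χ_add (unitsIn E) U hunit
  have hψE : ∀ γ ∈ B₂.Γ, ψ γ ∈ E := fun γ hγ => (hψ γ hγ (hψ0 γ hγ)).1
  have hψU : ∀ γ ∈ B₂.Γ, B₂.Un (ψ γ / B₂.χ γ) := by
    intro γ hγ
    obtain ⟨h1, h2⟩ := (hψ γ hγ (hψ0 γ hγ)).2
    rw [Units.val_div_eq_div_val] at h1 h2
    exact ⟨h1, div_ne_zero (hψ0 γ hγ) (B₂.χ_ne γ hγ), h2⟩
  have hψv : ∀ γ ∈ B₂.Γ, v (ψ γ) = γ := by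
    intro γ hγ
    obtain ⟨-, -, h3⟩ := hψU γ hγ
    rw [v.map_div (hψ0 γ hγ) (B₂.χ_ne γ hγ), B₂.χ_val γ hγ] at h3
    linarith
  have hψU' : ∀ γ ∈ B₂.Γ, B₂.χ γ / ψ γ ∈ B₂.R := by
    intro γ hγ
    obtain ⟨h1, h2, h3⟩ := hψU γ hγ
    have h4 := B₂.loc _ h1 h2 h3
    rwa [inv_div] at h4
  -- the ring
  have hCm : ∀ x, x ∈ ICl v B.R E ↔ x ∈ B₂.R ∧ x ∈ E := by
    intro x
    rw [hE, mem_ICl_fixO h hR H, hB₂]
    exact ⟨fun h1 => ⟨⟨h1.1, hEK _ h1.2⟩, h1.2⟩, fun h1 => ⟨h1.1.1, h1.2⟩⟩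
  have hC0 : ∀ s ∈ ICl v B.R E, v.Ge 0 s := fun s hs => B₂.nonneg s ((hCm s).1 hs).1
  have hCl : ∀ s ∈ ICl v B.R E, s ≠ 0 → v s = 0 → s⁻¹ ∈ ICl v B.R E := fun s hs h1 h2 =>
    (hCm _).2 ⟨B₂.loc s ((hCm s).1 hs).1 h1 h2, E.inv_mem ((hCm s).1 hs).2⟩
  have hRC : ∀ f ∈ B.R, f ∈ ICl v B.R E := fun f hf =>
    (hCm f).2 ⟨hRA f hf, hKE f (hR.frac.1 f hf)⟩
  have hψm : ∀ γ ∈ B₂.Γ, 0 ≤ γ → ψ γ ∈ ICl v B.R E := by
    intro γ hγ h0
    refine (hCm _).2 ⟨?_, hψE γ hγ⟩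
    have h1 := B₂.R.mul_mem (hψU γ hγ).1 (B₂.χ_mem γ hγ h0)
    rwa [div_mul_cancel₀ _ (B₂.χ_ne γ hγ)] at h1
  -- the polynomial of `θ`
  set f : Polynomial Ω := (fH θ H).map (algebraMap N Ω) with hf
  have hfm : f.Monic := (fH_monic θ H).map _
  have hfd : f.natDegree = (IsTheta.orb θ H).card := by
    rw [hf, (fH_monic θ H).natDegree_map, fH_natDegree]
  have hfc : ∀ i, f.coeff i ∈ ICl v B.R E := by
    intro i
    rw [hf, Polynomial.coeff_map]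
    exact le_locv _ (coeff_mem_icl (fH_PI hθ H) (fun σ hσ => fH_map θ H hσ) i)
  have hf0 : f.eval (θ : Ω) = 0 := by
    rw [hf, show (θ : Ω) = algebraMap N Ω θ from rfl, eval_map_algebraMap, aeval_algebraMap_apply,
      aeval_def, eval₂_eq_eval_map, Algebra.algebraMap_self, Polynomial.map_id, fH_eval, map_zero]
  have hind : ∀ c : ℕ → Ω, (∀ i, c i ∈ E) →
      ∑ i ∈ Finset.range f.natDegree, c i * (θ : Ω) ^ i = 0 → ∀ i < f.natDegree, c i = 0 := by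
    intro c hc h0
    rw [hfd] at h0 ⊢
    exact fH_ind θ H c hc h0
  have hθA : (θ : Ω) ∈ B₂.R := (hB₂ _).2 ⟨intN_le_CN ⟨θ.2, hθ.int⟩,
    (mem_fixO K N _ _).2 ⟨θ, rfl, fun σ hσ => hθ.fix σ hσ.1⟩⟩
  have hA := A2_eq h hR hθ H hB₂
  refine ⟨{ Γ := B₂.Γ
            fg := B₂.fg
            full := B₂.full
            χ := ψ
            χ_ne := hψ0
            χ_add := hψa
            χ_val := hψv
            y := B.y
            y_ne := B.y_ne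
            y_pos := B.y_pos
            R := ICl v B.R E
            nonneg := hC0
            loc := hCl
            χ_mem := hψm
            y_mem := fun i => hRC _ (B.y_mem i)
            fgen := ?_
            gen := ?_
            alg := ?_ }, rfl, rfl, hψE, hψU, ?_, rfl⟩
  · exact descend_fgen E B₂.R (ICl v B.R E) B₂.nonneg B₂.loc hCm θ hθA f hfm hfc hf0 hind hA
      B₂.Γ B₂.fg B₂.χ ψ B₂.χ_ne B₂.χ_val B₂.χ_add hψ0 hψv hψa hψE hψU' B₂.fgen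
  · intro a ha hav
    obtain ⟨γ, hγ, hγ0, b₀, hb₀, b, hb, hab⟩ := B₂.gen a ((hCm a).1 ha).1 hav
    have h1 : B₂.χ γ = ψ γ * (B₂.χ γ / ψ γ) := by
      rw [mul_div_cancel₀ _ (hψ0 γ hγ)]
    obtain ⟨c, hcC, hac⟩ := descend_gen E B₂.R (ICl v B.R E) B₂.nonneg B₂.loc hCm θ hθA f hfm
      hfc hf0 hind hA (κ := Option (Fin D)) (fun l => Option.elim l (ψ γ) B.y) (by
        intro l
        rcases l with _ | i
        · exact hψE γ hγ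
        · exact ((hCm _).1 (hRC _ (B.y_mem i))).2) ha
      (fun l => Option.elim l ((B₂.χ γ / ψ γ) * b₀) b) (by
        intro l
        rcases l with _ | i
        · exact B₂.R.mul_mem (hψU' γ hγ) hb₀
        · exact hb i) (by
        rw [Fintype.sum_option]
        simp only [Option.elim_none, Option.elim_some]
        rw [hab, hy, ← mul_assoc, ← h1])
    rw [Fintype.sum_option] at hac
    simp only [Option.elim_none, Option.elim_some] at hac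
    exact ⟨γ, hγ, hγ0, c none, hcC none, fun i => c (some i), fun i => hcC (some i), hac⟩
  · intro g
    obtain ⟨P, hP, hPg⟩ := B.alg g
    have hle : B.R ≤ ICl v B.R E := hRC
    refine ⟨P.map (Subalgebra.inclusion hle).toRingHom, ?_, ?_⟩
    · intro h0
      apply hP
      exact Polynomial.map_injective _ (Subalgebra.inclusion_injective hle) (by
        rw [h0, Polynomial.map_zero])
    · rw [aeval_def, eval₂_map]
      exact hPg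
  · intro γ hγ
    have h1 := hψU' γ (hΓ γ hγ)
    obtain ⟨h2, h3, h4⟩ := hχ γ hγ
    have h5 : B.χ γ / ψ γ = (B.χ γ / B₂.χ γ) * (B₂.χ γ / ψ γ) := by
      rw [div_mul_div_cancel₀ (B₂.χ_ne γ (hΓ γ hγ))]
    refine ⟨(hCm _).2 ⟨?_, ?_⟩, div_ne_zero (B.χ_ne γ hγ) (hψ0 γ (hΓ γ hγ)), ?_⟩
    · change B.χ γ / ψ γ ∈ B₂.R
      rw [h5]
      exact B₂.R.mul_mem h2 h1
    · exact div_mem (S := IntermediateField k Ω) (hKE _ (hχK γ hγ)) (hψE γ (hΓ γ hγ))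
    · change v (B.χ γ / ψ γ) = 0
      rw [v.map_div (B.χ_ne γ hγ) (hψ0 γ (hΓ γ hγ)), B.χ_val γ hγ, hψv γ (hΓ γ hγ), sub_self]

/-- Row (e): `C = ICl v B.R E` is the ring of a frame; `w` is a content valuation of `B₂`. -/
theorem descend_frame (h : Ctx0 k v nn) (B : FR k v D) {K : IntermediateField k Ω}
    {N : IntermediateField K Ω} [FiniteDimensional K N] (hR : NRing v K B.R)
    (H : Subgroup (N ≃ₐ[K] N)) (B₂ : FR k v D)
    (hB₂ : ∀ f, f ∈ B₂.R ↔ f ∈ CN v B.R N ∧ f ∈ fixO K N (DP v B.R N hR.frac.1 ⊓ H))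
    (hΓ : ∀ γ ∈ B.Γ, γ ∈ B₂.Γ) (hχ : ∀ γ ∈ B.Γ, B₂.Un (B.χ γ / B₂.χ γ)) (hy : B₂.y = B.y)
    (hw : ∃ w : OVal 𝕂 Ω, CW B₂ w) :
    ∃ C : FR k v D, C.R = ICl v B.R (fixO K N H) ∧ C.Γ = B₂.Γ ∧
      (∀ γ ∈ B₂.Γ, C.χ γ ∈ fixO K N H) ∧ (∀ γ ∈ B₂.Γ, B₂.Un (C.χ γ / B₂.χ γ)) ∧
      (∀ γ ∈ B.Γ, C.Un (B.χ γ / C.χ γ)) ∧ C.y = B.y := by
  obtain ⟨w, hw⟩ := hw
  refine descend_core h B hR H B₂ hB₂ hΓ hχ hy w hw.val hw.nonneg ?_
  rintro b - ⟨γ, hγ, h1⟩ hwb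
  by_cases hb0 : b = 0
  · rw [hb0]; exact zero_mem _
  obtain ⟨h9, h10, h11⟩ := hχ γ hγ
  have h12 := B₂.loc _ h9 h10 h11
  have hwχ : w (B.χ γ) = γ := by
    have h4 := hw.nonneg _ h9 h10
    have h5 := hw.nonneg _ h12 (inv_ne_zero h10)
    rw [w.map_inv h10] at h5
    rw [w.map_div (B.χ_ne γ hγ) (B₂.χ_ne γ (hΓ γ hγ)), hw.val γ (hΓ γ hγ)] at h4 h5
    linarith
  have h2 : B.χ γ * b ≠ 0 := mul_ne_zero (B.χ_ne γ hγ) hb0
  obtain ⟨h3, h4⟩ := hw.mem _ h1 h2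
  have h6 : γ ≤ w (B.χ γ * b) := by
    rw [w.map_mul (B.χ_ne γ hγ) hb0, hwχ]
    have := hwb hb0
    linarith
  set δ := w (B.χ γ * b) with hδ
  have h7 : δ - γ ∈ B₂.Γ := B₂.Γ.sub_mem h3 (hΓ γ hγ)
  have h8 : B₂.χ (δ - γ) ∈ B₂.R := B₂.χ_mem _ h7 (by linarith)
  have h13 : B₂.χ δ = B₂.χ (δ - γ) * B₂.χ γ := by
    rw [← B₂.χ_add _ h7 _ (hΓ γ hγ), sub_add_cancel]
  have h14 : b = (B.χ γ * b / B₂.χ δ) * B₂.χ (δ - γ) * (B.χ γ / B₂.χ γ)⁻¹ := by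
    rw [h13]
    have h15 := B₂.χ_ne _ h7
    have h16 := B₂.χ_ne γ (hΓ γ hγ)
    have h17 := B.χ_ne γ hγ
    field_simp
  rw [h14]
  exact B₂.R.mul_mem (B₂.R.mul_mem h4 h8) h12

end Pool.Agent.ALLZO
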