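import Pool.Agent.Lib.ALLZO.A2

/-!
# Block Z of PROJECT ALL: row L5 for the ring `A₂`, and the frame of `A₂`
-/

set_option autoImplicit false

namespace Pool.Agent.ALLZO

open Pool.Agent.TAO (OVal VPos val_add_vpos Ctx0)
open Pool.Agent.ALLO (locv FR)
open Pool.Agent.LU1 (FracIs fixO mem_fixO)
open Pool.Agent.ALL6 (l4 vpos_sum sum_min L5Data alg_ne L5M trS trS_add trS_mul trS_fix trS_fixed
  trS_mem)

universe u w

/-- Finitely many representatives of the values modulo `Γ`. -/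
theorem exists_reps {𝕂 : Type*} [Field 𝕂] [LinearOrder 𝕂] [IsStrictOrderedRing 𝕂] {Γ Γ' : AddSubgroup 𝕂} (hΓ : Γ.FG) {e : ℕ} (he : 0 < e)
    (h : ∀ γ ∈ Γ', (e : 𝕂) * γ ∈ Γ) :
    ∃ (n : ℕ) (c : Fin n → 𝕂), (∀ i, c i ∈ Γ') ∧ (∀ i j, c i - c j ∈ Γ → i = j) ∧
      ∀ γ ∈ Γ', ∃ i, γ - c i ∈ Γ := by
  classical
  have hfg : AddGroup.FG Γ' := (AddGroup.fg_iff_addSubgroup_fg Γ').2 (fg_of_mul hΓ he h)
  have hfin : Module.Finite ℤ (Γ' ⧸ Γ.addSubgroupOf Γ') := by
    rw [Module.Finite.iff_addGroup_fg]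
    infer_instance
  have htor : IsAddTorsion (Γ' ⧸ Γ.addSubgroupOf Γ') := by
    intro x
    obtain ⟨g, rfl⟩ := QuotientAddGroup.mk_surjective x
    rw [isOfFinAddOrder_iff_nsmul_eq_zero]
    refine ⟨e, he, ?_⟩
    rw [← QuotientAddGroup.mk_nsmul, QuotientAddGroup.eq_zero_iff, AddSubgroup.mem_addSubgroupOf]
    have := h g g.2
    rwa [← nsmul_eq_mul] at this
  have hF : Finite (Γ' ⧸ Γ.addSubgroupOf Γ') := AddCommGroup.finite_of_fg_isAddTorsion _ htor
  let _ := Fintype.ofFinite (Γ' ⧸ Γ.addSubgroupOf Γ')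
  let E := Fintype.equivFin (Γ' ⧸ Γ.addSubgroupOf Γ')
  refine ⟨Fintype.card (Γ' ⧸ Γ.addSubgroupOf Γ'), fun i => ((E.symm i).out : Γ'),
    fun i => ((E.symm i).out : Γ').2, ?_, ?_⟩
  · intro i j hij
    have h1 : E.symm i = E.symm j := by
      rw [← QuotientAddGroup.out_eq' (E.symm i), ← QuotientAddGroup.out_eq' (E.symm j), eq_comm,
        QuotientAddGroup.eq, AddSubgroup.mem_addSubgroupOf]
      push_cast
      rw [neg_add_eq_sub]
      exact hij
    exact E.symm.injective h1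
  · intro γ hγ
    refine ⟨E ((⟨γ, hγ⟩ : Γ') : Γ' ⧸ Γ.addSubgroupOf Γ'), ?_⟩
    have h1 : ((E.symm (E ((⟨γ, hγ⟩ : Γ') : Γ' ⧸ Γ.addSubgroupOf Γ'))).out :
        Γ' ⧸ Γ.addSubgroupOf Γ') = ((⟨γ, hγ⟩ : Γ') : Γ' ⧸ Γ.addSubgroupOf Γ') := by
      rw [QuotientAddGroup.out_eq', Equiv.symm_apply_apply]
    rw [QuotientAddGroup.eq, AddSubgroup.mem_addSubgroupOf] at h1
    push_cast at h1
    rwa [neg_add_eq_sub] at h1

variable {k Ω : Type u} [Field k] [Field Ω] [Algebra k Ω] {𝕂 : Type w} [Field 𝕂] [LinearOrder 𝕂]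
  [IsStrictOrderedRing 𝕂] {v : OVal 𝕂 Ω} {D : ℕ} {nn : ℕ}

theorem AX.add {B : FR k v D} {A : Subalgebra k Ω} (hle : B.R ≤ A) {a b : Ω} (ha : AX B A a)
    (hb : AX B A b) : AX B A (a + b) := by
  have key : ∀ {γ m : 𝕂} {x : Ω}, γ ∈ B.Γ → m ∈ B.Γ → γ ≤ m → B.χ γ * x ∈ A →
      B.χ m * x ∈ A := by
    intro γ m x hγ hm hle' hx
    have h1 : B.χ m = B.χ (m - γ) * B.χ γ := by
      rw [← B.χ_add _ (B.Γ.sub_mem hm hγ) _ hγ, sub_add_cancel]
    rw [h1, mul_assoc]
    exact A.mul_mem (hle (B.χ_mem _ (B.Γ.sub_mem hm hγ) (by linarith))) hx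
  obtain ⟨γ, hγ, h1⟩ := ha
  obtain ⟨δ, hδ, h2⟩ := hb
  rcases le_total γ δ with h0 | h0
  · exact ⟨δ, hδ, by rw [mul_add]; exact A.add_mem (key hγ hδ h0 h1) h2⟩
  · exact ⟨γ, hγ, by rw [mul_add]; exact A.add_mem h1 (key hδ hγ h0 h2)⟩

theorem AX.neg {B : FR k v D} {A : Subalgebra k Ω} {a : Ω} (ha : AX B A a) : AX B A (-a) := by
  obtain ⟨γ, hγ, h1⟩ := ha
  exact ⟨γ, hγ, by rw [mul_neg]; exact A.neg_mem h1⟩

/-- `R[1/χ]` inside a subfield. -/
def AXring (B : FR k v D) (A : Subalgebra k Ω) (hle : B.R ≤ A) {E : Type*} [Field E]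
    (φ : E →+* Ω) : Subring E where
  carrier := {b | AX B A (φ b)}
  mul_mem' := fun ha hb => by
    show AX B A (φ (_ * _))
    rw [map_mul]; exact AX.mul ha hb
  one_mem' := by
    show AX B A (φ 1)
    rw [map_one]; exact AX.of_mem A.one_mem
  add_mem' := fun ha hb => by
    show AX B A (φ (_ + _))
    rw [map_add]; exact AX.add hle ha hb
  zero_mem' := by
    show AX B A (φ 0)
    rw [map_zero]; exact AX.of_mem A.zero_mem
  neg_mem' := fun ha => by
    show AX B A (φ (-_))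
    rw [map_neg]; exact AX.neg ha

/-- The group of the values of `w` on `E`. -/
def valG (w : OVal 𝕂 Ω) (E : IntermediateField k Ω) : AddSubgroup 𝕂 where
  carrier := {γ | ∃ b ∈ E, b ≠ 0 ∧ w b = γ}
  add_mem' := by
    rintro a b ⟨x, hx, hx0, rfl⟩ ⟨y, hy, hy0, rfl⟩
    exact ⟨x * y, mul_mem hx hy, mul_ne_zero hx0 hy0, w.map_mul hx0 hy0⟩
  zero_mem' := ⟨1, E.one_mem, one_ne_zero, w.map_one⟩
  neg_mem' := by
    rintro a ⟨x, hx, hx0, rfl⟩
    exact ⟨x⁻¹, inv_mem hx, inv_ne_zero hx0, w.map_inv hx0⟩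

theorem mem_valG {w : OVal 𝕂 Ω} {E : IntermediateField k Ω} {γ : 𝕂} :
    γ ∈ valG w E ↔ ∃ b ∈ E, b ≠ 0 ∧ w b = γ := Iff.rfl

section Tr

variable {F : Type*} {N : Type*} [Field F] [Field N] [Algebra F N] [FiniteDimensional F N]

/-- The inclusion of the fixed fields. -/
@[reducible]
noncomputable def algKL {G L : Subgroup (N ≃ₐ[F] N)} (h : L ≤ G) :
    Algebra (IntermediateField.fixedField G) (IntermediateField.fixedField L) :=
  (IntermediateField.inclusion (IntermediateField.fixedField_antitone h)).toRingHom.toAlgebra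

omit [FiniteDimensional F N] in
theorem algKL_apply {G L : Subgroup (N ≃ₐ[F] N)} (h : L ≤ G)
    (x : IntermediateField.fixedField G) :
    letI := algKL h
    ((algebraMap (IntermediateField.fixedField G) (IntermediateField.fixedField L) x :
      IntermediateField.fixedField L) : N) = x := rfl

/-- The trace. -/
noncomputable def TL {G L : Subgroup (N ≃ₐ[F] N)} (h : L ≤ G) :
    letI := algKL h
    IntermediateField.fixedField L →ₗ[IntermediateField.fixedField G]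
      IntermediateField.fixedField G :=
  letI := algKL h
  { toFun := fun b => ⟨trS G L (b : N), (IntermediateField.mem_fixedField_iff _ _).2
      (trS_fixed ((IntermediateField.mem_fixedField_iff _ _).1 b.2))⟩
    map_add' := fun a b => Subtype.ext (trS_add _ _)
    map_smul' := fun f b => Subtype.ext (by
      rw [Algebra.smul_def]
      exact trS_mul (f := (f : N)) ((IntermediateField.mem_fixedField_iff _ _).1 f.2) (b : N)) }

theorem TL_apply {G L : Subgroup (N ≃ₐ[F] N)} (h : L ≤ G) (b : IntermediateField.fixedField L) :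
    ((TL h b : IntermediateField.fixedField G) : N) = trS G L (b : N) := rfl

end Tr

section Main

variable {F : IntermediateField k Ω} {N : IntermediateField F Ω} {B : FR k v D}
  {hR : NRing v F B.R} {H : Subgroup (N ≃ₐ[F] N)} {B₁ : FR k v D} {w : OVal 𝕂 Ω}

theorem F_le_fixO (L : Subgroup (N ≃ₐ[F] N)) {a : Ω} (ha : a ∈ F) : a ∈ fixO F N L :=
  (mem_fixO F N L a).2 ⟨algebraMap F N ⟨a, ha⟩, rfl, fun σ _ => σ.commutes _⟩

theorem WData.le1 (h : WData B hR N H B₁ w) :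
    B₁.R ≤ AH v B.R (DP v B.R N hR.frac.1 ⊓ H) := by
  rw [h.R_eq]
  intro f hf
  refine ⟨hf.1, ?_⟩
  obtain ⟨n, rfl, hn⟩ := (mem_fixO F N _ f).1 hf.2
  exact (mem_fixO F N _ _).2 ⟨n, rfl, fun σ hσ => hn σ hσ.1⟩

/-- The elements of `A₂[1/χ]` are in `K₂`. -/
theorem WData.AX_mem (h : WData B hR N H B₁ w) {a : Ω}
    (ha : AX B₁ (AH v B.R (DP v B.R N hR.frac.1 ⊓ H)) a) :
    a ∈ fixO F N (DP v B.R N hR.frac.1 ⊓ H) := by
  obtain ⟨γ, hγ, h1⟩ := ha
  have h2 : a = (B₁.χ γ)⁻¹ * (B₁.χ γ * a) := by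
    rw [inv_mul_cancel_left₀ (h.χne hγ)]
  rw [h2]
  exact mul_mem (inv_mem (F_le_fixO _ (h.χF hγ))) (mem_AH.1 h1).2

theorem WData.AX_memR (h : WData B hR N H B₁ w) {a : Ω} (ha : AX B₁ B₁.R a) :
    a ∈ fixO F N (DP v B.R N hR.frac.1) := by
  obtain ⟨γ, hγ, h1⟩ := ha
  have h2 : a = (B₁.χ γ)⁻¹ * (B₁.χ γ * a) := by
    rw [inv_mul_cancel_left₀ (h.χne hγ)]
  rw [h2]
  rw [h.R_eq] at h1
  exact mul_mem (inv_mem (F_le_fixO _ (h.χF hγ))) h1.2

variable [FiniteDimensional F N]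

/-- Residues of `K₂` come from `F₂`. -/
theorem WData.res (p : ℕ) [CharP Ω p] (hc : Ctx0 k v nn) (h : WData B hR N H B₁ w)
    (hp : (DP v B.R N hR.frac.1 ⊓ H).relIndex (DP v B.R N hR.frac.1) < p) (b : N)
    (hb : ∀ τ ∈ DP v B.R N hR.frac.1 ⊓ H, τ b = b) (hb0 : b ≠ 0) (hw : w (b : Ω) = 0) :
    ∃ f : N, (∀ σ ∈ DP v B.R N hR.frac.1, σ f = f) ∧ VPos w ((b : Ω) - f) := by
  obtain ⟨r, hr, hr0, hi⟩ := exists_mul_int hR b
  have hb0' : (b : Ω) ≠ 0 := fun h0 => hb0 (Subtype.ext h0)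
  have hrF : r ∈ F := hR.frac.1 r hr
  have hγ : w r ∈ B₁.Γ := h.valF r (le_RD hr).2 hr0
  set γ := w r with hγdef
  have hχ0 := h.χne hγ
  have hχF := h.χF hγ
  have hχw := h.chi γ hγ
  -- the elements
  let s' : N := algebraMap F N ⟨r / B₁.χ γ, div_mem hrF hχF⟩
  have hs' : (s' : Ω) = r / B₁.χ γ := rfl
  have hs'0 : (s' : Ω) ≠ 0 := by rw [hs']; exact div_ne_zero hr0 hχ0
  have hs'w : w (s' : Ω) = 0 := by
    rw [hs', w.map_div hr0 hχ0, hχw, ← hγdef, sub_self]
  have hsb : r * (b : Ω) ∈ AH v B.R (DP v B.R N hR.frac.1 ⊓ H) := by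
    refine ⟨intN_le_CN ⟨mul_mem (N.algebraMap_mem ⟨r, hrF⟩) b.2, hi⟩, ?_⟩
    exact mul_mem (F_le_fixO _ hrF) ((mem_fixO F N _ _).2 ⟨b, rfl, hb⟩)
  let a' : N := s' * b
  have ha' : (a' : Ω) = (r / B₁.χ γ) * b := rfl
  have ha'0 : (a' : Ω) ≠ 0 := mul_ne_zero hs'0 hb0'
  have ha'w : w (a' : Ω) = 0 := by
    show w ((s' : Ω) * (b : Ω)) = 0
    rw [w.map_mul hs'0 hb0', hs'w, hw, add_zero]
  have ha'A : (a' : Ω) ∈ AH v B.R (DP v B.R N hR.frac.1 ⊓ H) := by
    refine h.cut _ ⟨γ, hγ, ?_⟩ ha'0 (by rw [ha'w])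
    have : B₁.χ γ * (a' : Ω) = r * b := by
      rw [ha']; field_simp
    rw [this]
    exact hsb
  obtain ⟨h1, h2⟩ := h.row4 p hc hp a' ha'A
  have hav : ∀ σ ∈ DP v B.R N hR.frac.1, σ (av (DP v B.R N hR.frac.1)
      (DP v B.R N hR.frac.1 ⊓ H) a') = av (DP v B.R N hR.frac.1)
      (DP v B.R N hR.frac.1 ⊓ H) a' := by
    rw [h.R_eq] at h1
    obtain ⟨n, hn, hn'⟩ := (mem_fixO F N _ _).1 h1.2
    have : n = av (DP v B.R N hR.frac.1) (DP v B.R N hR.frac.1 ⊓ H) a' := Subtype.ext hn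
    rw [← this]
    exact hn'
  refine ⟨(s')⁻¹ * av (DP v B.R N hR.frac.1) (DP v B.R N hR.frac.1 ⊓ H) a', ?_, ?_⟩
  · intro σ hσ
    rw [map_mul, hav σ hσ, map_inv₀, σ.commutes]
  · have h3 : (b : Ω) - (((s')⁻¹ * av (DP v B.R N hR.frac.1)
        (DP v B.R N hR.frac.1 ⊓ H) a' : N) : Ω) = (s' : Ω)⁻¹ * ((a' : Ω) -
        (av (DP v B.R N hR.frac.1) (DP v B.R N hR.frac.1 ⊓ H) a' : N)) := by
      rw [mul_sub]
      have h4 : (s' : Ω)⁻¹ * (a' : Ω) = b := by
        show (s' : Ω)⁻¹ * ((s' : Ω) * (b : Ω)) = b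
        rw [inv_mul_cancel_left₀ hs'0]
      rw [h4]
      push_cast
      rfl
    rw [h3]
    refine VPos.mul' (fun _ => ?_) h2
    rw [w.map_inv hs'0, hs'w, neg_zero]

/-- `A₂` with the valuation `w` of `K₂` is a tame extension of the frame `B₁`. -/
theorem WData.tame (p : ℕ) [CharP Ω p] (hc : Ctx0 k v nn) (h : WData B hR N H B₁ w)
    (hp : (DP v B.R N hR.frac.1 ⊓ H).relIndex (DP v B.R N hR.frac.1) < p) :
    TameData B₁ (AH v B.R (DP v B.R N hR.frac.1 ⊓ H)) w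
      (valG w (fixO F N (DP v B.R N hR.frac.1 ⊓ H))) := by
  classical
  have hres := fun (b : N) hb hb0 hw => h.res p hc hp b hb hb0 hw
  have hle := h.le1
  have hAX := fun (a : Ω) (ha : AX B₁ (AH v B.R (DP v B.R N hR.frac.1 ⊓ H)) a) => h.AX_mem ha
  have hAXR := fun (a : Ω) (ha : AX B₁ B₁.R a) => h.AX_memR ha
  have hinv := h.inv
  have hcut := h.cut
  have hge := h.ge
  have hunit := h.unit
  have hposA := h.posA
  have hR_eq : ∀ f, f ∈ B₁.R ↔ f ∈ CN v B.R N ∧ f ∈ fixO F N (DP v B.R N hR.frac.1) := by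
    intro f
    rw [h.R_eq]
    exact Iff.rfl
  have hvalF : ∀ f ∈ fixO F N (DP v B.R N hR.frac.1), f ≠ 0 → w f ∈ B₁.Γ := h.valF
  have hgen := h.gen
  have hcst := fun (c : k) (hc : c ≠ 0) => h.const_val hc
  obtain ⟨e, he, htors⟩ := h.tors
  have hmap : ∀ σ ∈ DP v B.R N hR.frac.1, ∀ n : N, (n : Ω) ∈ CN v B.R N →
      ((σ n : N) : Ω) ∈ CN v B.R N := fun σ hσ n hn => CN_map hR hσ hn
  generalize hG : DP v B.R N hR.frac.1 = G at *
  generalize hL : G ⊓ H = L at *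
  have hLG : L ≤ G := hL ▸ inf_le_left
  have htors' : ∀ γ ∈ valG w (fixO F N L), (e : 𝕂) * γ ∈ B₁.Γ := by
    rintro γ ⟨b, hb, hb0, rfl⟩
    exact htors b hb hb0
  obtain ⟨n, c, hcΓ, hcd, hcc⟩ := exists_reps B₁.fg he htors'
  -- the representatives
  have hex : ∀ i, ∃ a : N, (a : Ω) ≠ 0 ∧ (∀ σ ∈ L, σ a = a) ∧ AX B₁ (AH v B.R L) (a : Ω) ∧
      AX B₁ (AH v B.R L) ((a : Ω)⁻¹) ∧ w (a : Ω) = c i := by
    intro i
    obtain ⟨b, hb, hb0, hbc⟩ := hcΓ i
    obtain ⟨a, ha0, ha1, ha2, ha3⟩ := hunit b hb hb0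
    obtain ⟨m, rfl, hm⟩ := (mem_fixO F N L a).1 (hAX a ha1)
    exact ⟨m, ha0, hm, ha1, ha2, by rw [ha3, hbc]⟩
  choose aN haN0 haNfix haN1 haN2 haNw using hex
  let _ := algKL hLG
  let W : OVal 𝕂 (IntermediateField.fixedField L) := rO w ((algebraMap N Ω).comp
    (algebraMap (IntermediateField.fixedField L) N))
  let WN : OVal 𝕂 N := rO w (algebraMap N Ω)
  let a : Fin n → IntermediateField.fixedField L := fun i =>
    ⟨aN i, (IntermediateField.mem_fixedField_iff _ _).2 (haNfix i)⟩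
  have hfixL : ∀ b : IntermediateField.fixedField L, ∀ σ ∈ L, σ (b : N) = b := fun b =>
    (IntermediateField.mem_fixedField_iff _ _).1 b.2
  have hfixG : ∀ b : IntermediateField.fixedField G, ∀ σ ∈ G, σ (b : N) = b := fun b =>
    (IntermediateField.mem_fixedField_iff _ _).1 b.2
  have hcN : CharP N p := by
    refine (RingHom.charP_iff (algebraMap N Ω) (algebraMap N Ω).injective p).2 inferInstance
  have hρN : (L.relIndex G : N) ≠ 0 := natCast_ne_zero_of_lt p (relIndex_pos G L) hp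
  have hρk : (L.relIndex G : k) ≠ 0 := by
    intro h0
    apply hρN
    apply (algebraMap N Ω).injective
    rw [map_natCast, map_zero, ← map_natCast (algebraMap k Ω), h0, map_zero]
  have hWne : ∀ x : IntermediateField.fixedField L, x ≠ 0 → ((x : N) : Ω) ≠ 0 := by
    intro x hx h0
    exact hx (Subtype.ext (Subtype.ext h0))
  have hneF : ∀ x : IntermediateField.fixedField G, x ≠ 0 → ((x : N) : Ω) ≠ 0 := by
    intro x hx h0
    exact hx (Subtype.ext (Subtype.ext h0))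
  have hWρ : w ((((L.relIndex G : IntermediateField.fixedField G) : N)) : Ω) = 0 := by
    have h1 := hcst _ hρk
    rw [map_natCast] at h1
    push_cast
    exact h1
  have hσw : ∀ b : IntermediateField.fixedField L, b ≠ 0 → ∀ σ ∈ G,
      w ((σ (b : N) : N) : Ω) = w ((b : N) : Ω) := fun b hb σ hσ =>
    hinv σ hσ b (hfixL b) fun h0 => hb (Subtype.ext h0)
  have key : L5Data W a B₁.Γ (TL hLG) (L.relIndex G : IntermediateField.fixedField G) :=
    { ρ_ne := by
        intro h0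
        apply hρN
        have := congrArg (fun x : IntermediateField.fixedField G => (x : N)) h0
        push_cast at this
        exact this
      ρ_val := hWρ
      T_alg := fun f => Subtype.ext (by
        rw [TL_apply, algKL_apply hLG, trS_fix (hfixG f)]
        push_cast
        rfl)
      T_ge := by
        intro b hb h0
        have h1 : WN.Ge (w ((b : N) : Ω)) (trS G L (b : N)) := by
          unfold trS
          refine OVal.Ge.sum _ _ fun q _ _ => ?_
          exact (hσw b hb _ (q.out : G).2).ge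
        exact h1 fun h2 => h0 (Subtype.ext h2)
      T_pos := by
        intro b hb
        by_cases hb0 : b = 0
        · rw [hb0, map_zero, map_zero]; exact TAO.VPos.zero
        have h1 : TAO.VPos WN (trS G L (b : N)) := by
          unfold trS
          refine vpos_sum _ _ fun q _ _ => ?_
          exact lt_of_lt_of_eq (hb hb0) (hσw b hb0 _ (q.out : G).2).symm
        intro h0
        exact h1 fun h2 => h0 (Subtype.ext h2)
      res := by
        intro b hb hbw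
        obtain ⟨f, hf, hf'⟩ := hres b (hfixL b) (fun h0 => hb (Subtype.ext h0)) hbw
        refine ⟨⟨f, (IntermediateField.mem_fixedField_iff _ _).2 hf⟩, fun h0 => ?_⟩
        exact hf' (hWne _ h0)
      val := fun f hf => hvalF _ ((mem_fixO F N G _).2 ⟨f, rfl, hfixG f⟩) (hneF f hf)
      val' := by
        intro γ hγ
        refine ⟨algebraMap F _ ⟨B₁.χ γ, h.χF hγ⟩, ?_, h.chi γ hγ⟩
        intro h0
        have h1 : (⟨B₁.χ γ, h.χF hγ⟩ : F) = 0 :=
          (algebraMap F (IntermediateField.fixedField G)).injective (by rw [h0, map_zero])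
        exact h.χne hγ (congrArg Subtype.val h1)
      a_ne := fun i h0 => haN0 i (by
        have := congrArg (fun x : IntermediateField.fixedField L => ((x : N) : Ω)) h0
        exact this)
      a_dist := by
        intro i j hij
        apply hcd
        rw [← haNw i, ← haNw j]
        exact hij
      a_cov := by
        intro b hb
        obtain ⟨i, hi⟩ := hcc (w ((b : N) : Ω)) ⟨_, (mem_fixO F N L _).2 ⟨b, rfl, hfixL b⟩,
          hWne b hb, rfl⟩
        refine ⟨i, ?_⟩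
        show w ((b : N) : Ω) - w (aN i : Ω) ∈ B₁.Γ
        rw [haNw i]
        exact hi }
  -- the rings
  let φK : IntermediateField.fixedField L →+* Ω := (algebraMap N Ω).comp
    (algebraMap (IntermediateField.fixedField L) N)
  let φF : IntermediateField.fixedField G →+* Ω := (algebraMap N Ω).comp
    (algebraMap (IntermediateField.fixedField G) N)
  have hρ1 : ((((L.relIndex G : IntermediateField.fixedField G) : N)) : Ω) ≠ 0 := hneF _ key.ρ_ne
  have hcoord := key.coord_mem (AXring B₁ _ hle φK) (AXring B₁ B₁.R le_rfl φF)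
    (by
      rintro b ⟨γ, hγ, hb⟩
      refine ⟨γ, hγ, ?_⟩
      let cN : N := algebraMap F N ⟨B₁.χ γ, h.χF hγ⟩
      have hcN : ∀ σ ∈ G, σ cN = cN := fun σ _ => σ.commutes _
      have h1 : B₁.χ γ * ((trS G L (b : N) : N) : Ω) = ((trS G L (cN * (b : N)) : N) : Ω) := by
        rw [trS_mul hcN]; rfl
      show B₁.χ γ * ((trS G L (b : N) : N) : Ω) ∈ B₁.R
      rw [h1, hR_eq]
      refine ⟨trS_mem ((CN v B.R N).toSubring.comap (algebraMap N Ω)).toAddSubmonoid
        (fun σ hσ => hmap σ hσ _ (mem_AH.1 hb).1), (mem_fixO F N G _).2 ⟨_, rfl,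
        trS_fixed fun σ hσ => ?_⟩⟩
      rw [map_mul, hfixL b σ hσ, hcN σ (hLG hσ)])
    (fun i => haN1 i)
    (fun i => by
      show AX B₁ _ (φK (a i)⁻¹)
      rw [map_inv₀]
      exact haN2 i)
    (by
      intro f hf hfp
      have h1 : VPos w (φF (f - (L.relIndex G : IntermediateField.fixedField G) ^
          Fintype.card (Fin n))) := (rO_vpos (w := w) (φ := φK)).1 hfp
      rw [map_sub, map_pow] at h1
      have h2 : φF (L.relIndex G : IntermediateField.fixedField G) ≠ 0 := hρ1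
      have h3 := val_add_vpos (v := w) (pow_ne_zero (Fintype.card (Fin n)) h2)
        (by rw [w.map_pow h2]; exact mul_eq_zero_of_right _ hWρ) h1
      rw [add_sub_cancel] at h3
      have h4 : φF f ∈ B₁.R := h.cutR _ hf h3.1 (by rw [h3.2])
      have hρR : φF (L.relIndex G : IntermediateField.fixedField G) ∈ B₁.R := by
        rw [map_natCast]
        exact natCast_mem _ _
      have hρR' : φF (L.relIndex G : IntermediateField.fixedField G) =
          algebraMap k Ω (L.relIndex G : k) := by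
        rw [map_natCast, map_natCast]
      have hvρ : v (φF (L.relIndex G : IntermediateField.fixedField G)) = 0 := by
        have h5 := B₁.nonneg _ hρR h2
        have h6 := B₁.nonneg (algebraMap k Ω (L.relIndex G : k)⁻¹)
          (Subalgebra.algebraMap_mem _ _) ((map_ne_zero (algebraMap k Ω)).2 (inv_ne_zero hρk))
        rw [map_inv₀, ← hρR', v.map_inv h2] at h6
        linarith
      have h7 : VPos v (φF f - φF (L.relIndex G : IntermediateField.fixedField G) ^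
          Fintype.card (Fin n)) := fun h0 => hposA _ (hle (B₁.R.sub_mem h4
            (B₁.R.pow_mem hρR _))) h0 (h1 h0)
      have h8 := val_add_vpos (v := v) (pow_ne_zero (Fintype.card (Fin n)) h2)
        (by rw [v.map_pow h2, hvρ, mul_zero]) h7
      rw [add_sub_cancel] at h8
      show AX B₁ B₁.R (φF f⁻¹)
      rw [map_inv₀]
      exact AX.of_mem (B₁.loc _ h4 h8.1 h8.2))
  refine
    { le := hle
      nonneg := fun f hf => CN_nonneg hR.nonneg f (mem_AH.1 hf).1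
      loc := fun f hf h0 h1 => ⟨CN_inv (mem_AH.1 hf).1 h0 h1,
        inv_mem (S := IntermediateField k Ω) (mem_AH.1 hf).2⟩
      pos := h.pos
      W_mul := fun a b _ _ ha hb => w.map_mul ha hb
      W_χ := h.chi
      cut := hcut
      Γ_le := fun γ hγ => ⟨B₁.χ γ, F_le_fixO _ (h.χF hγ), h.χne hγ, h.chi γ hγ⟩
      tors := ⟨e, he, htors'⟩
      unit := ?_
      val := fun a ha h0 => ⟨a, hAX a ha, h0, rfl⟩
      gen := ?_
      basis := ?_ }
  · rintro γ ⟨b, hb, hb0, rfl⟩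
    exact hunit b hb hb0
  · intro f hf hv
    obtain ⟨b, hb, j, hj, hjp, hfj⟩ := hgen f hf hv
    exact ⟨b, hb, j, hj, hjp, hfj⟩
  · refine ⟨n, fun i => aN i, fun i => ⟨haN0 i, haN1 i, haN2 i⟩, ?_⟩
    intro b hb
    obtain ⟨bN, rfl, hbN⟩ := (mem_fixO F N L b).1 (mem_AH.1 hb).2
    let b' : IntermediateField.fixedField L :=
      ⟨bN, (IntermediateField.mem_fixedField_iff _ _).2 hbN⟩
    obtain ⟨f, hf⟩ := key.span b'
    have hfΩ : (bN : Ω) = ∑ i, ((f i : N) : Ω) * (aN i : Ω) := by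
      have h1 := congrArg φK hf
      rw [map_sum] at h1
      refine Eq.trans h1 (Finset.sum_congr rfl fun i _ => ?_)
      rw [Algebra.smul_def, map_mul]
      rfl
    have hfR := hcoord f (by
      rw [← hf]
      exact AX.of_mem hb)
    refine ⟨fun i => ((f i : N) : Ω), fun i => ?_, hfΩ⟩
    by_cases hfi : f i = 0
    · left
      show ((f i : N) : Ω) = 0
      rw [hfi]; rfl
    · right
      have h0 := hneF _ hfi
      have h1 : w ((f i : N) : Ω) ∈ B₁.Γ :=
        hvalF _ ((mem_fixO F N G _).2 ⟨f i, rfl, hfixG (f i)⟩) h0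
      have hχ0 := h.χne h1
      refine ⟨((f i : N) : Ω) * (B₁.χ (w ((f i : N) : Ω)))⁻¹, ?_, w ((f i : N) : Ω), h1, ?_, ?_⟩
      · refine h.cutR _ (AX.mul (hfR i) (AX.χinv h1)) (mul_ne_zero h0 (inv_ne_zero hχ0)) ?_
        rw [w.map_mul h0 (inv_ne_zero hχ0), w.map_inv hχ0, h.chi _ h1, add_neg_cancel]
      · rw [mul_left_comm, mul_inv_cancel₀ hχ0, mul_one]
      · have h2 := key.ge Finset.univ f ⟨i, Finset.mem_univ i, hfi⟩
        rw [← hf] at h2
        have h3 := h2.2 i (Finset.mem_univ i) hfi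
        have h4 : w ((bN : N) : Ω) ≤ w (((f i : N) : Ω) * (aN i : Ω)) := h3
        rw [w.map_mul h0 (haN0 i)] at h4
        exact (hge _ hb (hWne _ h2.1)).trans h4

/-- `A₂` is the ring of a frame with the same free parameters. -/
theorem WData.exists_frame (p : ℕ) [CharP Ω p] (hc : Ctx0 k v nn) (h : WData B hR N H B₁ w)
    (hp : (DP v B.R N hR.frac.1 ⊓ H).relIndex (DP v B.R N hR.frac.1) < p) :
    ∃ C : FR k v D, C.R = AH v B.R (DP v B.R N hR.frac.1 ⊓ H) ∧
      C.Γ = valG w (fixO F N (DP v B.R N hR.frac.1 ⊓ H)) ∧ C.y = B.y ∧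
      (∀ γ ∈ B.Γ, γ ∈ C.Γ) ∧ (∀ γ ∈ B.Γ, C.Un (B.χ γ / C.χ γ)) ∧
      ∀ γ ∈ C.Γ, C.χ γ ∈ fixO F N (DP v B.R N hR.frac.1 ⊓ H) ∧ w (C.χ γ) = γ := by
  have ht := h.tame p hc hp
  obtain ⟨C, h1, h2, h3, h4, h5⟩ := ht.exists_FR
  have hΓ : B₁.Γ = B.Γ := h.same.Γ_eq
  refine ⟨C, h1, h2, by rw [h3, h.same.y_eq], ?_, ?_, ?_⟩
  · intro γ hγ
    rw [h2]
    exact ht.Γ_le γ (by rw [hΓ]; exact hγ)
  · intro γ hγ
    rw [← h.same.χ_eq γ hγ]
    exact h4 γ (by rw [hΓ]; exact hγ)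
  · intro γ hγ
    rw [h2] at hγ
    obtain ⟨h6, -, h7⟩ := h5 γ hγ
    exact ⟨h.AX_mem h6, h7⟩

end Main

end Pool.Agent.ALLZO
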