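import Pool.Agent.Lib.ALLZO.Loc

/-! # `locv v S` is noetherian (port of `LU1.locv_isNoetherian`) -/

set_option autoImplicit false

namespace Pool.Agent.ALLZO

open Pool.Agent.TAO (OVal VPos)
open Pool.Agent.ALLO (locv)

universe u w

variable {k Ω : Type u} [Field k] [Field Ω] [Algebra k Ω]
  {𝕂 : Type w} [Field 𝕂] [LinearOrder 𝕂] [IsStrictOrderedRing 𝕂] {v : OVal 𝕂 Ω}

/-- `locv v S` is noetherian for a finitely generated algebra `S`. -/
theorem locv_isNoetherian (S : Subalgebra k Ω) (hS : S.FG) : IsNoetherianRing (locv v S) := by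
  have : Algebra.FiniteType k S := (Subalgebra.fg_iff_finiteType S).1 hS
  have hN : IsNoetherianRing S := Algebra.FiniteType.isNoetherianRing k S
  let M : Submonoid S :=
    { carrier := {s | (s : Ω) ≠ 0 ∧ v (s : Ω) = 0}
      mul_mem' := by
        rintro a b ⟨ha, ha'⟩ ⟨hb, hb'⟩
        exact ⟨by rw [Subalgebra.coe_mul]; exact mul_ne_zero ha hb, by
          rw [Subalgebra.coe_mul, v.map_mul ha hb, ha', hb', add_zero]⟩
      one_mem' := ⟨by simp, by simpa using v.map_one⟩ }
  let _ : Algebra S (locv v S) := (Subalgebra.inclusion (le_locv S)).toRingHom.toAlgebra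
  have hmap : ∀ s : S, ((algebraMap S (locv v S) s : locv v S) : Ω) = s := fun _ => rfl
  have hloc : IsLocalization M (locv v S) := by
    refine ⟨?_, ?_, ?_⟩
    · rintro ⟨s, hs, hs'⟩
      refine IsUnit.of_mul_eq_one ⟨(s : Ω)⁻¹, locv_inv (le_locv S s.2) hs hs'⟩ ?_
      apply Subtype.ext
      rw [Subalgebra.coe_mul, hmap]
      exact mul_inv_cancel₀ hs
    · rintro ⟨f, a, ha, b, hb, hb0, hvb, rfl⟩
      refine ⟨(⟨a, ha⟩, ⟨⟨b, hb⟩, hb0, hvb⟩), ?_⟩
      apply Subtype.ext
      rw [Subalgebra.coe_mul, hmap, hmap]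
      exact div_mul_cancel₀ a hb0
    · intro a b hab
      have : a = b := Subtype.ext (congrArg (fun z : locv v S => (z : Ω)) hab)
      exact ⟨1, by rw [this]⟩
  exact IsLocalization.isNoetherianRing M (locv v S) hN

end Pool.Agent.ALLZO
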