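import Pool.Agent.Lib.ALL_h94.Z2b
import Pool.Agent.Lib.ALLO.Defs

/-!
# PROJECT ALL, block Z over an ordered field: local rings with `m = (t_1, .., t_n)` have the
`p`-basis `t` (port of `ALL_h94/Z2b.lean`)
-/

set_option autoImplicit false

namespace Pool.Agent.ALLZO

open Finset
open Pool.Agent.TAO (OVal VPos)
open Pool.Agent.ALLO (locv)
open Pool.Agent.ALLh94 (mon RP mem_RP pexp_core adjoin_span)

universe u w

variable {k Ω : Type u} [Field k] [Field Ω] [Algebra k Ω] {p : ℕ} [hp : Fact p.Prime] [CharP Ω p]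
  {ι : Type*} [Fintype ι] [DecidableEq ι]
  {𝕂 : Type w} [Field 𝕂] [LinearOrder 𝕂] [IsStrictOrderedRing 𝕂]

/-- **Row Z2b (noetherian frames).** If `R = locv k[A]`, `A` finite, `k` perfect, the residue field is `k` and the
elements of positive value form the ideal `(t_1, .., t_n)`, then `R = ∑_{α < p} t^α R^p`. -/
theorem pexp_locv (hk : ∀ c : k, ∃ d : k, d ^ p = c) (v : OVal 𝕂 Ω) (A : Finset Ω) (R : Subalgebra k Ω)
    (hR : R = locv v (Algebra.adjoin k (A : Set Ω)))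
    (hinv : ∀ f ∈ R, f ≠ 0 → v f = 0 → f⁻¹ ∈ R)
    (hres : ∀ f ∈ R, ∃ c : k, VPos v (f - algebraMap k Ω c))
    (hnn : ∀ f ∈ R, v.Ge 0 f)
    (t : ι → Ω) (htR : ∀ i, t i ∈ R) (htp : ∀ i, VPos v (t i))
    (hgen : ∀ f ∈ R, VPos v f → ∃ a : ι → Ω, (∀ i, a i ∈ R) ∧ f = ∑ i, t i * a i) :
    ∀ f ∈ R, ∃ c : (ι → Fin p) → Ω, (∀ α, c α ∈ R) ∧ f = ∑ α, mon t α * c α ^ p := by
  classical
  have hA : ∀ a ∈ A, a ∈ R := by
    intro a ha
    rw [hR]
    exact ⟨a, Algebra.subset_adjoin ha, 1, Subalgebra.one_mem _, one_ne_zero, v.map_one, by rw [div_one]⟩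
  refine pexp_core R.toSubring t htR ?_ ?_
    ((Set.finite_range fun e : A → Fin p => ∏ a : A, (a : Ω) ^ (e a : ℕ)).toFinset) ?_ ?_
  · intro i r hr
    have hr' : r ∈ R := hr
    by_cases h0 : t i * r = 0
    · rw [h0, add_zero, inv_one]
      exact ⟨one_ne_zero, R.one_mem⟩
    · have hti : t i ≠ 0 := left_ne_zero_of_mul h0
      have hr0 : r ≠ 0 := right_ne_zero_of_mul h0
      have hpos : v 1 < v (t i * r) := by
        rw [v.map_one, v.map_mul hti hr0]
        have h1 := htp i hti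
        have h2 := hnn r hr' hr0
        linarith
      obtain ⟨h1, h2⟩ := v.add_of_lt one_ne_zero h0 hpos
      refine ⟨h1, hinv _ ?_ h1 ?_⟩
      · exact R.add_mem R.one_mem (R.mul_mem (htR i) hr')
      · rw [h2, v.map_one]
  · intro f hf
    obtain ⟨c, hc⟩ := hres f hf
    obtain ⟨a, ha, hfa⟩ := hgen _ (R.sub_mem hf (R.algebraMap_mem c)) hc
    obtain ⟨d, rfl⟩ := hk c
    refine ⟨algebraMap k Ω (d ^ p), ⟨algebraMap k Ω d, R.algebraMap_mem d, by rw [map_pow]⟩, a, ha, ?_⟩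
    rw [← hfa]
    ring
  · intro b hb
    rw [Set.Finite.mem_toFinset] at hb
    obtain ⟨e, rfl⟩ := hb
    exact R.prod_mem fun a _ => R.pow_mem (hA _ a.2) _
  · intro f hf
    have hf' : f ∈ R := hf
    rw [hR] at hf'
    obtain ⟨a, ha, b, hb, hb0, hvb, rfl⟩ := hf'
    rw [Set.Finite.coe_toFinset]
    have hbR : b ∈ R := by
      rw [hR]
      exact ⟨b, hb, 1, Subalgebra.one_mem _, one_ne_zero, v.map_one, by rw [div_one]⟩
    have hbi : b⁻¹ ∈ R := hinv b hbR hb0 hvb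
    have h1 : a * b ^ (p - 1) ∈ Algebra.adjoin k (A : Set Ω) := Subalgebra.mul_mem _ ha (Subalgebra.pow_mem _ hb _)
    have h2 := adjoin_span (p := p) hk A R.toSubring (fun c => R.algebraMap_mem c) hA h1
    have h3 : a / b = (⟨(b⁻¹) ^ p, mem_RP.2 ⟨_, hbi, rfl⟩⟩ : RP p R.toSubring) • (a * b ^ (p - 1)) := by
      rw [Subring.smul_def, smul_eq_mul]
      change a / b = (b⁻¹) ^ p * (a * b ^ (p - 1))
      have h4 : b ^ p = b ^ (p - 1) * b := by
        rw [← pow_succ]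
        congr 1
        have := hp.out.pos
        omega
      rw [inv_pow, h4]
      field_simp
    rw [h3]
    exact Submodule.smul_mem _ _ h2

end Pool.Agent.ALLZO
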