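import Pool.Agent.Lib.ALLZO.Z2c
import Pool.Agent.Lib.ALLZO.Z2b
import Pool.Agent.Lib.ALLZO.NFDb

/-!
# ALL, block Z, row Z2 (frames): `p`-coordinates of noetherian levels and of the field of fractions;
`K` is separable over `k(x, y)`; row BETA (logarithmic derivations)
-/

set_option autoImplicit false

namespace Pool.Agent.ALLZO

open Finset Module
open Pool.Agent.TAO (OVal)
open Pool.Agent.TAO (VPos)
open Pool.Agent.ALLO (locv)
open Pool.Agent.LU1 (FracIs)
open Pool.Agent.ALLh94 (mon)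
open Pool.Agent.LU1.NFA (mem_frac isAlgebraic_of_frac)
open Pool.Agent.ALLO (FR BetaStmt)
open Pool.Agent.TAO (CtxR)
open Pool.Agent.TAO (Ctx0)

universe u w

section Level

variable {k Ω : Type u} [Field k] [Field Ω] [Algebra k Ω]
  {𝕂 : Type w} [Field 𝕂] [LinearOrder 𝕂] [IsStrictOrderedRing 𝕂] {v : OVal 𝕂 Ω} {r D n p : ℕ}
  [hp : Fact p.Prime] [CharP Ω p]

/-- The parameters of a level. -/
def NFD.t (N : NFD k v r D) : Fin r ⊕ Fin D → Ω := Sum.elim N.x N.y

/-- **Row Z2b.** The ring of a noetherian level is `∑ x^i y^α R^p`. -/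
theorem NFD.pexp (N : NFD k v r D) (h : Ctx0 k v n) (hk : ∀ c : k, ∃ d : k, d ^ p = c) :
    PExp p N.t (N.R : Set Ω) := by
  obtain ⟨F, hF⟩ := N.fgen
  refine pexp_locv hk v F N.R hF (fun f hf h0 h1 => N.inv_mem hf h0 h1)
    (fun f hf => ctx_residue h (N.nonneg f hf)) N.nonneg N.t ?_ ?_ ?_
  · rintro (i | j)
    · exact N.x_mem i
    · exact N.y_mem j
  · rintro (i | j)
    · exact fun _ => N.x_pos i
    · exact fun _ => N.y_pos j
  · intro f hf hfp
    obtain ⟨a, ha, b, hb, e⟩ := N.gen f hf hfp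
    refine ⟨Sum.elim a b, ?_, ?_⟩
    · rintro (i | j)
      · exact ha i
      · exact hb j
    · rw [Fintype.sum_sum_type]
      exact e

/-- The field of fractions of a level. -/
theorem NFD.pexp_frac (N : NFD k v r D) (h : Ctx0 k v n) (hk : ∀ c : k, ∃ d : k, d ^ p = c)
    {K : IntermediateField k Ω} (hK : FracIs N.R K) : PExp p N.t (K : Set Ω) := by
  intro f hf
  obtain ⟨a, ha, b, hb, hb0, rfl⟩ := hK.2 f hf
  obtain ⟨c, hc, e⟩ := N.pexp h hk (a * b ^ (p - 1)) (N.R.mul_mem ha (N.R.pow_mem hb _))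
  refine ⟨fun α => c α / b, fun α => K.div_mem (hK.1 _ (hc α)) (hK.1 _ hb), ?_⟩
  have h1 : b ^ p = b ^ (p - 1) * b := by
    rw [← pow_succ]
    congr 1
    have := hp.out.pos
    omega
  have h2 : a / b = (a * b ^ (p - 1)) / b ^ p := by
    rw [h1]
    have h3 : b ^ (p - 1) ≠ 0 := pow_ne_zero _ hb0
    field_simp
  rw [h2, e, Finset.sum_div]
  refine Finset.sum_congr rfl fun α _ => ?_
  rw [div_pow, mul_div_assoc]

end Level

section FRs

variable {k Ω : Type u} [Field k] [Field Ω] [Algebra k Ω]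
  {𝕂 : Type w} [Field 𝕂] [LinearOrder 𝕂] [IsStrictOrderedRing 𝕂] {v : OVal 𝕂 Ω} {r D n : ℕ}

/-- A level of a frame with the same field of fractions. -/
theorem fr_level (h : Ctx0 k v n) (hr : 0 < r) (B : FR k v D) (T : Finset Ω) (hT : ∀ f ∈ T, f ∈ B.R)
    {K : IntermediateField k Ω} (hK : FracIs B.R K) :
    ∃ S0 : Finset 𝕂, (∀ γ ∈ S0, γ ∈ B.Γ ∧ 0 < γ) ∧
      ∀ u : Fin r → 𝕂, GoodBasis B.Γ (S0 : Set 𝕂) u →
        ∃ N : NFD k v r D, (∀ i, N.x i = B.χ (u i)) ∧ N.y = B.y ∧ N.R ≤ B.R ∧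
          (∀ f ∈ T, f ∈ N.R) ∧ FracIs N.R K := by
  classical
  obtain ⟨F, hF⟩ := B.fgen
  have hFR : ∀ f ∈ F, f ∈ B.R := fun f hf => by
    rw [hF]; exact le_locv _ (Algebra.subset_adjoin (Or.inl hf))
  obtain ⟨S0, G, hS0, hG, hTG, hN⟩ := fr_exists_NFD (r := r) h hr B (T ∪ F) (fun f hf => by
    rcases Finset.mem_union.1 hf with h1 | h1
    · exact hT f h1
    · exact hFR f h1)
  refine ⟨S0, hS0, fun u hu => ?_⟩
  obtain ⟨N, hNx, hNy, -, hNle, hNT⟩ := hN u hu
  refine ⟨N, hNx, hNy, hNle, fun f hf => hNT f (Finset.mem_union_left _ hf),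
    fun f hf => hK.1 f (hNle hf), fun g hg => ?_⟩
  have hfield : Algebra.adjoin k ((F : Set Ω) ∪ B.χ '' {γ | γ ∈ B.Γ ∧ 0 ≤ γ}) ≤
      (IntermediateField.adjoin k (N.R : Set Ω)).toSubalgebra := by
    refine Algebra.adjoin_le ?_
    rintro f (hf | ⟨δ, ⟨hδ, -⟩, rfl⟩)
    · exact IntermediateField.subset_adjoin _ _ (hNT f (Finset.mem_union_right _ hf))
    · obtain ⟨m, hm⟩ := hu.gen δ hδ
      have h1 := (χ_sum B Finset.univ u hu.mem m).2
      rw [← hm] at h1
      rw [SetLike.mem_coe, h1]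
      refine prod_mem fun i _ => zpow_mem (IntermediateField.subset_adjoin _ _ ?_) _
      rw [← hNx i]
      exact N.x_mem i
  have hR : ∀ f ∈ B.R, f ∈ IntermediateField.adjoin k (N.R : Set Ω) := by
    intro f hf
    rw [hF] at hf
    obtain ⟨a, ha, b, hb, -, -, rfl⟩ := hf
    exact div_mem (hfield ha) (hfield hb)
  obtain ⟨a, ha, b, hb, hb0, rfl⟩ := hK.2 g hg
  exact mem_frac.1 (div_mem (hR a ha) (hR b hb))

/-- `K` is finitely generated over `k`. -/
theorem frac_fg (N : NFD k v r D) {K : IntermediateField k Ω} (hK : FracIs N.R K) :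
    ∃ G : Finset Ω, K = IntermediateField.adjoin k (G : Set Ω) := by
  obtain ⟨F, hF⟩ := N.fgen
  refine ⟨F, le_antisymm ?_ ?_⟩
  · intro g hg
    obtain ⟨a, ha, b, hb, -, rfl⟩ := hK.2 g hg
    have h1 : ∀ f ∈ N.R, f ∈ IntermediateField.adjoin k (F : Set Ω) := by
      intro f hf
      rw [hF] at hf
      obtain ⟨a, ha, b, hb, -, -, rfl⟩ := hf
      exact div_mem (IntermediateField.algebra_adjoin_le_adjoin k _ ha)
        (IntermediateField.algebra_adjoin_le_adjoin k _ hb)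
    exact div_mem (h1 a ha) (h1 b hb)
  · rw [IntermediateField.adjoin_le_iff]
    intro f hf
    refine hK.1 f ?_
    rw [hF]
    exact le_locv _ (Algebra.subset_adjoin hf)

theorem frac_ess (N : NFD k v r D) {K : IntermediateField k Ω} (hK : FracIs N.R K) :
    Algebra.EssFiniteType k K := by
  obtain ⟨G, hG⟩ := frac_fg N hK
  rw [IntermediateField.essFiniteType_iff, hG]
  exact ⟨G, rfl⟩

theorem trdeg_frac (h : Ctx0 k v n) (B : FR k v D) {K : IntermediateField k Ω}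
    (hK : FracIs B.R K) : Algebra.trdeg k K = n := by
  have h1 : Algebra.IsAlgebraic K Ω := by
    refine ⟨fun g => ?_⟩
    have h2 := B.alg g
    obtain ⟨P, hP, hPg⟩ := h2
    let φ : B.R →ₐ[k] K :=
      { toFun := fun z => ⟨z, hK.1 z z.2⟩
        map_one' := rfl
        map_mul' := fun _ _ => rfl
        map_zero' := rfl
        map_add' := fun _ _ => rfl
        commutes' := fun _ => rfl }
    have hφ : Function.Injective φ := fun a b hab => Subtype.ext (congrArg (fun z : K => (z : Ω)) hab)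
    refine ⟨P.map φ.toRingHom, ?_, ?_⟩
    · rw [Ne, Polynomial.map_eq_zero_iff hφ]
      exact hP
    · rw [Polynomial.aeval_def, Polynomial.eval₂_map]
      exact hPg
  have h2 : Algebra.trdeg k K + Algebra.trdeg K Ω = Algebra.trdeg k Ω := trdeg_add_eq k K
  have h3 : Algebra.trdeg K Ω = 0 := _root_.trdeg_eq_zero
  rw [h3, add_zero, h.trdeg] at h2
  exact h2

end FRs

section Dual

variable {k Ω : Type u} [Field k] [Field Ω] [Algebra k Ω]
  {𝕂 : Type w} [Field 𝕂] [LinearOrder 𝕂] [IsStrictOrderedRing 𝕂] {v : OVal 𝕂 Ω} {r D n : ℕ}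

/-- `t` as a family of elements of `K`. -/
theorem exists_dual_level (p : ℕ) [hp : Fact p.Prime] [CharP Ω p] (h : Ctx0 k v n)
    (hk : ∀ c : k, ∃ d : k, d ^ p = c) (hn : n = r + D)
    (N : NFD k v r D) (B : FR k v D) {K : IntermediateField k Ω} (hB : FracIs B.R K)
    (hK : FracIs N.R K) :
    ∃ (t : Fin r ⊕ Fin D → K), (∀ i, (t i : Ω) = N.t i) ∧ PExp p t (Set.univ : Set K) ∧
      ∃ d : Fin r ⊕ Fin D → Derivation k K K, (∀ i j, d i (t j) = if i = j then 1 else 0) ∧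
        ∀ (δ : Derivation k K K) (z : K), δ z = ∑ i, δ (t i) * d i z := by
  have hess : Algebra.EssFiniteType k K := frac_ess N hK
  have htr : Algebra.trdeg k K = Fintype.card (Fin r ⊕ Fin D) := by
    rw [trdeg_frac h B hB, Fintype.card_sum, Fintype.card_fin, Fintype.card_fin, hn]
  have htK : ∀ i, N.t i ∈ K := by
    rintro (i | j)
    · exact hK.1 _ (N.x_mem i)
    · exact hK.1 _ (N.y_mem j)
  have hchar : CharP K p := (algebraMap K Ω).charP (algebraMap K Ω).injective p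
  have hexp : PExp p (fun i => (⟨N.t i, htK i⟩ : K)) (Set.univ : Set K) := by
    intro f _
    obtain ⟨c, hc, e⟩ := N.pexp_frac h hk hK (f : Ω) f.2
    refine ⟨fun α => ⟨c α, hc α⟩, fun _ => trivial, Subtype.ext ?_⟩
    rw [e]
    simp only [mon, AddSubmonoidClass.coe_finsetSum, MulMemClass.coe_mul, SubmonoidClass.coe_finsetProd,
      SubmonoidClass.coe_pow]
  exact ⟨fun i => ⟨N.t i, htK i⟩, fun _ => rfl, hexp, exists_dual_of_pexp htr _ hexp⟩

end Dual

end Pool.Agent.ALLZO
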