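import Pool.Agent.Lib.ALLZO.Z2d

/-!
# ALL: `k(χ(Γ), y) ≤ Ω` is algebraic and `K` is separable over it; row BETA (logarithmic derivations)
-/

set_option autoImplicit false

namespace Pool.Agent.ALLZO

open Finset Module
open Pool.Agent.TAO (OVal VPos Ctx0 CtxR)
open Pool.Agent.LU1 (FracIs)
open Pool.Agent.LU1.NFA (mem_frac isAlgebraic_of_frac)
open Pool.Agent.ALLO (locv FR)

universe u w

variable {k Ω : Type u} [Field k] [Field Ω] [Algebra k Ω] {𝕂 : Type w} [Field 𝕂] [LinearOrder 𝕂]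
  [IsStrictOrderedRing 𝕂] {v : OVal 𝕂 Ω} {r D n : ℕ}

/-- The parameters of a level are algebraically independent. -/
theorem NFD.algInd (p : ℕ) [hp : Fact p.Prime] [CharP Ω p] (N : NFD k v r D) (h : Ctx0 k v n)
    (hk : ∀ c : k, ∃ d : k, d ^ p = c) (hn : n = r + D) (B : FR k v D)
    {K : IntermediateField k Ω} (hB : FracIs B.R K) (hK : FracIs N.R K) :
    AlgebraicIndependent k N.t := by
  obtain ⟨t, ht, hexp, -⟩ := exists_dual_level p h hk hn N B hB hK
  have hchar : CharP K p := (algebraMap K Ω).charP (algebraMap K Ω).injective p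
  have hess : Algebra.EssFiniteType k K := frac_ess N hK
  have hsep := sep_of_pexp (k := k) t hexp
  have h1 : Algebra.IsAlgebraic (Algebra.adjoin k (Set.range t)) K := by
    have h2 : Algebra.IsAlgebraic (IntermediateField.adjoin k (Set.range t)) K := inferInstance
    constructor
    intro x
    rw [← IntermediateField.isAlgebraic_adjoin_iff]
    exact h2.isAlgebraic x
  have h3 : AlgebraicIndependent k t := by
    refine (Algebra.IsAlgebraic.isTranscendenceBasis_of_lift_le_trdeg_of_finite k t ?_).1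
    rw [trdeg_frac h B hB, hn]
    simp
  have h4 := h3.map' (f := K.val) K.val.injective
  have h5 : (K.val ∘ t) = N.t := funext ht
  rwa [h5] at h4

/-- **K1.** `Ω` is algebraic over `k[χ(Γ), y]`. -/
theorem fr_alg0 (p : ℕ) [hp : Fact p.Prime] [CharP Ω p] (h : CtxR k v n r)
    (hk : ∀ c : k, ∃ d : k, d ^ p = c) (hr : 0 < r) (hn : n = r + D) (B : FR k v D) (g : Ω) :
    IsAlgebraic (Algebra.adjoin k (B.χ '' (B.Γ : Set 𝕂) ∪ Set.range B.y)) g := by
  have hB : FracIs B.R (IntermediateField.adjoin k (B.R : Set Ω)) :=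
    ⟨fun f hf => IntermediateField.subset_adjoin _ _ hf, fun g hg => mem_frac.1 hg⟩
  obtain ⟨S0, hS0, hN⟩ := fr_level (r := r) h.toCtx0 hr B ∅ (by simp) hB
  obtain ⟨u, hu⟩ := fr_exists_basis h hr B S0 hS0
  obtain ⟨N, hNx, hNy, -, -, hK⟩ := hN u hu
  have hind := N.algInd p h.toCtx0 hk hn B hB hK
  have h2 : IsTranscendenceBasis k N.t := by
    refine hind.isTranscendenceBasis_of_lift_trdeg_le_of_finite ?_
    rw [h.trdeg, hn]
    simp
  obtain ⟨P, hP, hPg⟩ := h2.isAlgebraic.isAlgebraic g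
  have hle : Algebra.adjoin k (Set.range N.t) ≤
      Algebra.adjoin k (B.χ '' (B.Γ : Set 𝕂) ∪ Set.range B.y) := by
    refine Algebra.adjoin_mono ?_
    rintro _ ⟨i | j, rfl⟩
    · exact Or.inl ⟨u i, hu.mem i, (hNx i).symm⟩
    · refine Or.inr ⟨j, ?_⟩
      rw [← hNy]
      rfl
  refine ⟨P.map (Subalgebra.inclusion hle).toRingHom, ?_, ?_⟩
  · exact (Polynomial.map_ne_zero_iff (Subalgebra.inclusion_injective hle)).2 hP
  · rw [Polynomial.aeval_def, Polynomial.eval₂_map]
    exact hPg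

theorem perfect_of_isAlgClosed [IsAlgClosed k] {p : ℕ} [hp : Fact p.Prime] (c : k) :
    ∃ d : k, d ^ p = c := IsAlgClosed.exists_pow_nat_eq c hp.out.pos

end Pool.Agent.ALLZO
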