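import Pool.Agent.Lib.ALLZO.Reg
import Pool.Agent.Lib.ALLZO.NFD

/-!
# PROJECT ALL, block 0: order and content of the elements of a frame
-/

set_option autoImplicit false

namespace Pool.Agent.ALLZO

open Pool.Agent.TAO (OVal)
open Pool.Agent.TAO (VPos VPos.zero VPos.add VPos.mul VPos.mul' VPos.sub val_add_vpos)
open Pool.Agent.ALLO (locv)
open Pool.Agent.TAO (Ctx0)
open Pool.Agent.TAO (CtxR)
open Pool.Agent.ALLO (FR)

universe u w

/-! ### The order modulo an ideal -/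

section Order

variable {k R : Type u} [Field k] [CommRing R] [Algebra k R] {D : ℕ}

/-- Elements of `(y)^M` are forms of degree `M` modulo `J + (y)^(M+1)`. -/
theorem exists_form (y : Fin D → R) (J : Ideal R)
    (hgen : ∀ f : R, ∃ c : k, f - algebraMap k R c ∈ J ⊔ Ideal.span (Set.range y)) (M : ℕ) :
    ∀ t ∈ Ideal.span (Set.range y) ^ M, ∃ P : MvPolynomial (Fin D) k, P.IsHomogeneous M ∧
      t - MvPolynomial.aeval y P ∈ J ⊔ Ideal.span (Set.range y) ^ (M + 1) := by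
  induction M with
  | zero =>
    intro t _
    obtain ⟨c, hc⟩ := hgen t
    refine ⟨MvPolynomial.C c, MvPolynomial.isHomogeneous_C _ c, ?_⟩
    rw [MvPolynomial.aeval_C, zero_add, pow_one]
    exact hc
  | succ M ih =>
    have hadd : ∀ s t : R, (∃ P : MvPolynomial (Fin D) k, P.IsHomogeneous (M + 1) ∧
        s - MvPolynomial.aeval y P ∈ J ⊔ Ideal.span (Set.range y) ^ (M + 1 + 1)) →
        (∃ P : MvPolynomial (Fin D) k, P.IsHomogeneous (M + 1) ∧
        t - MvPolynomial.aeval y P ∈ J ⊔ Ideal.span (Set.range y) ^ (M + 1 + 1)) →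
        ∃ P : MvPolynomial (Fin D) k, P.IsHomogeneous (M + 1) ∧
        s + t - MvPolynomial.aeval y P ∈ J ⊔ Ideal.span (Set.range y) ^ (M + 1 + 1) := by
      rintro s t ⟨P, hP, h1⟩ ⟨Q, hQ, h2⟩
      refine ⟨P + Q, hP.add hQ, ?_⟩
      have h3 : s + t - MvPolynomial.aeval y (P + Q) =
          (s - MvPolynomial.aeval y P) + (t - MvPolynomial.aeval y Q) := by
        rw [map_add]; ring
      rw [h3]
      exact Ideal.add_mem _ h1 h2
    have hmul : ∀ s ∈ Ideal.span (Set.range y), ∀ t ∈ Ideal.span (Set.range y) ^ M,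
        ∃ P : MvPolynomial (Fin D) k, P.IsHomogeneous (M + 1) ∧
        s * t - MvPolynomial.aeval y P ∈ J ⊔ Ideal.span (Set.range y) ^ (M + 1 + 1) := by
      intro s hs
      induction hs using Submodule.span_induction with
      | mem s hs =>
        obtain ⟨j, rfl⟩ := hs
        intro t ht
        obtain ⟨P, hP, h1⟩ := ih t ht
        refine ⟨MvPolynomial.X j * P, ?_, ?_⟩
        · rw [add_comm]
          exact (MvPolynomial.isHomogeneous_X k j).mul hP
        · rw [map_mul, MvPolynomial.aeval_X, ← mul_sub]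
          obtain ⟨a, ha, b, hb, hab⟩ := Submodule.mem_sup.1 h1
          rw [← hab, mul_add]
          refine Ideal.add_mem _ (Ideal.mem_sup_left (J.mul_mem_left _ ha))
            (Ideal.mem_sup_right ?_)
          rw [pow_succ' _ (M + 1)]
          exact Ideal.mul_mem_mul (Ideal.subset_span ⟨j, rfl⟩) hb
      | zero =>
        intro t _
        exact ⟨0, MvPolynomial.isHomogeneous_zero _ _ _, by simp⟩
      | add s s' _ _ h1 h2 =>
        intro t ht
        rw [add_mul]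
        exact hadd _ _ (h1 t ht) (h2 t ht)
      | smul a s _ h1 =>
        intro t ht
        rw [smul_eq_mul, mul_comm a s, mul_assoc]
        exact h1 (a * t) (Ideal.mul_mem_left _ _ ht)
    intro t ht
    rw [pow_succ'] at ht
    induction ht using Submodule.mul_induction_on' with
    | mem_mul_mem s hs t ht => exact hmul s hs t ht
    | add s _ t _ h1 h2 => exact hadd s t h1 h2

/-- The order of an element modulo `J`. -/
theorem exists_order [IsLocalRing R] (y : Fin D → R) (J : Ideal R) (hN : IsNoetherianRing (R ⧸ J))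
    (hJ : J ≤ IsLocalRing.maximalIdeal R) (hy : ∀ j, y j ∈ IsLocalRing.maximalIdeal R)
    (hgen : ∀ f : R, ∃ c : k, f - algebraMap k R c ∈ J ⊔ Ideal.span (Set.range y))
    {f : R} (hf : f ∉ J) :
    ∃ M, ∃ P : MvPolynomial (Fin D) k, P.IsHomogeneous M ∧ P ≠ 0 ∧
      f - MvPolynomial.aeval y P ∈ J ⊔ Ideal.span (Set.range y) ^ (M + 1) := by
  classical
  have hne : J ≠ ⊤ := fun h => (IsLocalRing.maximalIdeal.isMaximal R).ne_top (top_le_iff.1 (h ▸ hJ))
  have hnt : Nontrivial (R ⧸ J) := Ideal.Quotient.nontrivial_iff.2 hne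
  have hloc : IsLocalRing (R ⧸ J) :=
    IsLocalRing.of_surjective' (Ideal.Quotient.mk J) Ideal.Quotient.mk_surjective
  have hex : ∃ M, f ∉ J ⊔ Ideal.span (Set.range y) ^ M := by
    by_contra hcon
    push Not at hcon
    apply hf
    rw [← Ideal.Quotient.eq_zero_iff_mem]
    have h1 : Ideal.Quotient.mk J f ∈ (⨅ i : ℕ, IsLocalRing.maximalIdeal (R ⧸ J) ^ i) := by
      rw [Ideal.mem_iInf]
      intro M
      obtain ⟨a, ha, b, hb, hab⟩ := Submodule.mem_sup.1 (hcon M)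
      rw [← hab, map_add, Ideal.Quotient.eq_zero_iff_mem.2 ha, zero_add]
      have h2 : (Ideal.span (Set.range y)).map (Ideal.Quotient.mk J) ≤
          IsLocalRing.maximalIdeal (R ⧸ J) := by
        rw [Ideal.map_le_iff_le_comap, Ideal.span_le]
        rintro _ ⟨j, rfl⟩
        rw [SetLike.mem_coe, Ideal.mem_comap]
        rw [IsLocalRing.mem_maximalIdeal, mem_nonunits_iff]
        intro hu
        obtain ⟨b', hb'⟩ := hu.exists_right_inv
        obtain ⟨b', rfl⟩ := Ideal.Quotient.mk_surjective b'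
        rw [← map_mul, ← map_one (Ideal.Quotient.mk J), Ideal.Quotient.eq] at hb'
        have h4 := (IsLocalRing.maximalIdeal R).sub_mem
          ((IsLocalRing.maximalIdeal R).mul_mem_right b' (hy j)) (hJ hb')
        rw [sub_sub_cancel] at h4
        exact (IsLocalRing.maximalIdeal.isMaximal R).ne_top ((Ideal.eq_top_iff_one _).2 h4)
      have h3 := Ideal.mem_map_of_mem (Ideal.Quotient.mk J) hb
      rw [Ideal.map_pow] at h3
      exact Ideal.pow_right_mono h2 M h3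
    rw [Ideal.iInf_pow_eq_bot_of_isLocalRing _ (IsLocalRing.maximalIdeal.isMaximal _).ne_top,
      Ideal.mem_bot] at h1
    exact h1
  obtain ⟨M, hM⟩ : ∃ M, Nat.find hex = M + 1 := by
    refine Nat.exists_eq_succ_of_ne_zero fun h0 => ?_
    have h1 := Nat.find_spec hex
    rw [h0, pow_zero, Ideal.one_eq_top, sup_top_eq] at h1
    exact h1 trivial
  have h1 : f ∉ J ⊔ Ideal.span (Set.range y) ^ (M + 1) := hM ▸ Nat.find_spec hex
  have h2 : f ∈ J ⊔ Ideal.span (Set.range y) ^ M := by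
    have := Nat.find_min hex (m := M) (by omega)
    push Not at this
    exact this
  obtain ⟨a, ha, b, hb, hab⟩ := Submodule.mem_sup.1 h2
  obtain ⟨P, hP, hbP⟩ := exists_form y J hgen M b hb
  have h3 : f - MvPolynomial.aeval y P ∈ J ⊔ Ideal.span (Set.range y) ^ (M + 1) := by
    rw [← hab, add_sub_assoc]
    exact Ideal.add_mem _ (Ideal.mem_sup_left ha) hbP
  refine ⟨M, P, hP, ?_, h3⟩
  rintro rfl
  rw [map_zero, sub_zero] at h3
  exact h1 h3

/-- The product of two elements with orders. -/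
theorem order_mul (y : Fin D → R) (J : Ideal R) {f g : R} {M M' : ℕ}
    {P Q : MvPolynomial (Fin D) k} (hP : P.IsHomogeneous M) (hQ : Q.IsHomogeneous M')
    (hf : f - MvPolynomial.aeval y P ∈ J ⊔ Ideal.span (Set.range y) ^ (M + 1))
    (hg : g - MvPolynomial.aeval y Q ∈ J ⊔ Ideal.span (Set.range y) ^ (M' + 1)) :
    f * g - MvPolynomial.aeval y (P * Q) ∈
      J ⊔ Ideal.span (Set.range y) ^ (M + M' + 1) := by
  have hform : ∀ {L : ℕ} {T : MvPolynomial (Fin D) k}, T.IsHomogeneous L →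
      MvPolynomial.aeval y T ∈ Ideal.span (Set.range y) ^ L := by
    intro L T hT
    rw [MvPolynomial.aeval_def, MvPolynomial.eval₂_eq']
    refine Ideal.sum_mem _ fun d hd => Ideal.mul_mem_left _ _ ?_
    have h1 : ∑ i, d i = L := by
      have h2 := hT (MvPolynomial.mem_support_iff.1 hd)
      rw [Finsupp.weight_apply, Finsupp.sum_fintype _ _ (fun _ => by simp)] at h2
      simpa using h2
    rw [← h1, ← Finset.prod_pow_eq_pow_sum]
    refine Ideal.prod_mem_prod fun i _ => Ideal.pow_mem_pow ?_ _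
    exact Ideal.subset_span ⟨i, rfl⟩
  obtain ⟨a, ha, b, hb, hab⟩ := Submodule.mem_sup.1 hf
  obtain ⟨c, hc, d, hd, hcd⟩ := Submodule.mem_sup.1 hg
  have h1 : f = MvPolynomial.aeval y P + (a + b) := by rw [hab]; ring
  have h2 : g = MvPolynomial.aeval y Q + (c + d) := by rw [hcd]; ring
  have h3 : f * g - MvPolynomial.aeval y (P * Q) =
      (a * g + (MvPolynomial.aeval y P + b) * c) +
        (MvPolynomial.aeval y P * d + b * MvPolynomial.aeval y Q + b * d) := by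
    rw [map_mul, h2, h1]
    ring
  rw [h3]
  refine Ideal.add_mem _ (Ideal.mem_sup_left ?_) (Ideal.mem_sup_right ?_)
  · exact J.add_mem (J.mul_mem_right _ ha) (J.mul_mem_left _ hc)
  · have hp := hform hP
    have hq := hform hQ
    refine Ideal.add_mem _ (Ideal.add_mem _ ?_ ?_) ?_
    · rw [show M + M' + 1 = M + (M' + 1) by ring, pow_add]
      exact Ideal.mul_mem_mul hp hd
    · rw [show M + M' + 1 = (M + 1) + M' by ring, pow_add]
      exact Ideal.mul_mem_mul hb hq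
    · refine Ideal.pow_le_pow_right (show M + M' + 1 ≤ (M + 1) + (M' + 1) by omega) ?_
      rw [pow_add]
      exact Ideal.mul_mem_mul hb hd

end Order

/-! ### Frames -/

section Frame

variable {k Ω : Type u} [Field k] [Field Ω] [Algebra k Ω]
  {𝕂 : Type w} [Field 𝕂] [LinearOrder 𝕂] [IsStrictOrderedRing 𝕂] {v : OVal 𝕂 Ω} {n r D : ℕ}

/-- `z` is a monomial of positive value times an element of the ring. -/
def Hi (B : FR k v D) (z : Ω) : Prop := ∃ γ ∈ B.Γ, 0 < γ ∧ ∃ a ∈ B.R, z = B.χ γ * a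

theorem exists_posΓ (h : CtxR k v n r) (hr : 0 < r) (B : FR k v D) : ∃ γ ∈ B.Γ, 0 < γ := by
  obtain ⟨X, hX, hind, -⟩ := h.rank
  obtain ⟨m, hm, hmΓ⟩ := B.full _ (hX ⟨0, hr⟩)
  have h1 : v (X ⟨0, hr⟩) ≠ 0 := hind.ne_zero (⟨0, hr⟩ : Fin r)
  have hm' : (0 : 𝕂) < m := by exact_mod_cast hm
  rcases lt_or_gt_of_ne h1 with h2 | h2
  · exact ⟨_, B.Γ.neg_mem hmΓ, by nlinarith⟩
  · exact ⟨_, hmΓ, by positivity⟩

theorem Hi.add {B : FR k v D} {z t : Ω} (hz : Hi B z) (ht : Hi B t) : Hi B (z + t) := by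
  obtain ⟨γ, hγ, hγ0, a, ha, rfl⟩ := hz
  obtain ⟨δ, hδ, hδ0, b, hb, rfl⟩ := ht
  have key : ∀ γ ∈ B.Γ, 0 < γ → ∀ a ∈ B.R, ∀ δ ∈ B.Γ, γ ≤ δ → ∀ b ∈ B.R,
      Hi B (B.χ γ * a + B.χ δ * b) := by
    intro γ hγ hγ0 a ha δ hδ hle b hb
    refine ⟨γ, hγ, hγ0, a + B.χ (δ - γ) * b, B.R.add_mem ha (B.R.mul_mem
      (B.χ_mem _ (B.Γ.sub_mem hδ hγ) (by linarith)) hb), ?_⟩
    have h1 : B.χ δ = B.χ γ * B.χ (δ - γ) := by
      rw [← B.χ_add _ hγ _ (B.Γ.sub_mem hδ hγ), add_sub_cancel]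
    rw [h1]
    ring
  rcases le_total γ δ with h1 | h1
  · exact key γ hγ hγ0 a ha δ hδ h1 b hb
  · rw [add_comm]
    exact key δ hδ hδ0 b hb γ hγ h1 a ha

theorem Hi.mul {B : FR k v D} {z c : Ω} (hz : Hi B z) (hc : c ∈ B.R) : Hi B (z * c) := by
  obtain ⟨γ, hγ, hγ0, a, ha, rfl⟩ := hz
  exact ⟨γ, hγ, hγ0, a * c, B.R.mul_mem ha hc, by ring⟩

theorem Hi.neg {B : FR k v D} {z : Ω} (hz : Hi B z) : Hi B (-z) := by
  obtain ⟨γ, hγ, hγ0, a, ha, rfl⟩ := hz
  exact ⟨γ, hγ, hγ0, -a, B.R.neg_mem ha, by ring⟩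

theorem Hi.sub {B : FR k v D} {z t : Ω} (hz : Hi B z) (ht : Hi B t) : Hi B (z - t) := by
  rw [sub_eq_add_neg]
  exact hz.add ht.neg

theorem Hi.mem {B : FR k v D} {z : Ω} (hz : Hi B z) : z ∈ B.R := by
  obtain ⟨γ, hγ, hγ0, a, ha, rfl⟩ := hz
  exact B.R.mul_mem (B.χ_mem γ hγ hγ0.le) ha

theorem Hi.vpos {B : FR k v D} {z : Ω} (hz : Hi B z) : VPos v z := by
  obtain ⟨γ, hγ, hγ0, a, ha, rfl⟩ := hz
  exact VPos.mul (fr_vpos_χ B hγ hγ0) (B.nonneg a ha)

theorem Hi.zero (h : CtxR k v n r) (hr : 0 < r) (B : FR k v D) : Hi B 0 := by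
  obtain ⟨γ, hγ, hγ0⟩ := exists_posΓ h hr B
  exact ⟨γ, hγ, hγ0, 0, B.R.zero_mem, by ring⟩

/-- The ideal `χ(> 0) R`. -/
def hiId (h : CtxR k v n r) (hr : 0 < r) (B : FR k v D) : Ideal B.R where
  carrier := {t | Hi B (t : Ω)}
  add_mem' := fun ha hb => ha.add hb
  zero_mem' := Hi.zero h hr B
  smul_mem' := fun c x hx => by
    rw [smul_eq_mul, mul_comm]
    exact Hi.mul hx c.2

theorem mem_hiId {h : CtxR k v n r} {hr : 0 < r} {B : FR k v D} {t : B.R} :
    t ∈ hiId h hr B ↔ Hi B (t : Ω) := Iff.rfl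

/-- The parameters `y` as elements of the ring. -/
def yR (B : FR k v D) (j : Fin D) : B.R := ⟨B.y j, B.y_mem j⟩

theorem not_isUnit_iff (B : FR k v D) (t : B.R) : ¬ IsUnit t ↔ VPos v (t : Ω) := by
  constructor
  · intro ht h0
    by_contra h1
    apply ht
    have hv : v (t : Ω) = 0 := le_antisymm (not_lt.1 h1) (B.nonneg t t.2 h0)
    refine IsUnit.of_mul_eq_one ⟨(t : Ω)⁻¹, B.loc t t.2 h0 hv⟩ ?_
    apply Subtype.ext
    exact mul_inv_cancel₀ h0
  · intro ht hu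
    obtain ⟨w, hw⟩ := hu.exists_right_inv
    have h1 : (t : Ω) * w = 1 := congrArg (fun t : B.R => (t : Ω)) hw
    have h2 : (t : Ω) * w ≠ 0 := by
      rw [h1]
      exact one_ne_zero
    have h3 := left_ne_zero_of_mul h2
    have h4 := right_ne_zero_of_mul h2
    have h5 : v ((t : Ω) * w) = 0 := by
      rw [h1]
      exact v.map_one
    rw [v.map_mul h3 h4] at h5
    have h6 := ht h3
    have h7 := B.nonneg w w.2 h4
    linarith

theorem fr_isLocalRing (B : FR k v D) : IsLocalRing B.R := by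
  refine IsLocalRing.of_nonunits_add fun a b ha hb => ?_
  rw [mem_nonunits_iff, not_isUnit_iff] at ha hb ⊢
  rw [Subalgebra.coe_add]
  exact ha.add hb

theorem mem_max_iff (B : FR k v D) [IsLocalRing B.R] (t : B.R) :
    t ∈ IsLocalRing.maximalIdeal B.R ↔ VPos v (t : Ω) := by
  rw [IsLocalRing.mem_maximalIdeal, mem_nonunits_iff, not_isUnit_iff]

theorem hi_gen (h : CtxR k v n r) (hr : 0 < r) (B : FR k v D) (f : B.R) :
    ∃ c : k, f - algebraMap k B.R c ∈ hiId h hr B ⊔ Ideal.span (Set.range (yR B)) := by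
  obtain ⟨c, hc, hcR⟩ := fr_exists_const B h.toCtx0 f.2
  refine ⟨c, ?_⟩
  obtain ⟨γ, hγ, hγ0, a, ha, b, hb, e⟩ := B.gen _ hcR hc
  have h1 : f - algebraMap k B.R c = (⟨B.χ γ * a, B.R.mul_mem (B.χ_mem γ hγ hγ0.le) ha⟩ : B.R) +
      ∑ j, yR B j * ⟨b j, hb j⟩ := by
    apply Subtype.ext
    rw [Subalgebra.coe_add, AddSubmonoidClass.coe_finsetSum]
    exact e
  rw [h1]
  refine Ideal.add_mem _ (Ideal.mem_sup_left ⟨γ, hγ, hγ0, a, ha, rfl⟩)
    (Ideal.mem_sup_right (Ideal.sum_mem _ fun j _ => Ideal.mul_mem_right _ _ ?_))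
  exact Ideal.subset_span ⟨j, rfl⟩

/-- `R / χ(> 0) R` is noetherian. -/
theorem hi_noetherian (h : CtxR k v n r) (hr : 0 < r) (B : FR k v D) :
    IsNoetherianRing (B.R ⧸ hiId h hr B) := by
  obtain ⟨F, hF⟩ := B.fgen
  let A : Subalgebra k Ω := Algebra.adjoin k (F : Set Ω)
  have hAle : A ≤ Algebra.adjoin k ((F : Set Ω) ∪ B.χ '' {γ | γ ∈ B.Γ ∧ 0 ≤ γ}) :=
    Algebra.adjoin_mono Set.subset_union_left
  have hR0 : locv v A ≤ B.R := by
    conv_rhs => rw [hF]
    exact locv_mono hAle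
  have hN : IsNoetherianRing (locv v A) := locv_isNoetherian A ⟨F, rfl⟩
  have hAll : Algebra.adjoin k ((F : Set Ω) ∪ B.χ '' {γ | γ ∈ B.Γ ∧ 0 ≤ γ}) ≤ B.R := by
    conv_rhs => rw [hF]
    exact le_locv _
  have step : ∀ f ∈ Algebra.adjoin k ((F : Set Ω) ∪ B.χ '' {γ | γ ∈ B.Γ ∧ 0 ≤ γ}),
      ∃ f0 ∈ A, Hi B (f - f0) := by
    intro f hf
    induction hf using Algebra.adjoin_induction with
    | mem x hx =>
      rcases hx with hx | ⟨γ, ⟨hγ, h0⟩, rfl⟩
      · exact ⟨x, Algebra.subset_adjoin hx, by rw [sub_self]; exact Hi.zero h hr B⟩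
      · rcases h0.lt_or_eq with h1 | rfl
        · exact ⟨0, A.zero_mem, γ, hγ, h1, 1, B.R.one_mem, by ring⟩
        · refine ⟨1, A.one_mem, ?_⟩
          rw [fr_χ_zero B, sub_self]
          exact Hi.zero h hr B
    | algebraMap c =>
      exact ⟨_, A.algebraMap_mem c, by rw [sub_self]; exact Hi.zero h hr B⟩
    | add x y _ _ hx hy =>
      obtain ⟨a, ha, h1⟩ := hx
      obtain ⟨b, hb, h2⟩ := hy
      refine ⟨a + b, A.add_mem ha hb, ?_⟩
      have := h1.add h2
      rwa [show x - a + (y - b) = x + y - (a + b) by ring] at this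
    | mul x y hxm hym hx hy =>
      obtain ⟨a, ha, h1⟩ := hx
      obtain ⟨b, hb, h2⟩ := hy
      refine ⟨a * b, A.mul_mem ha hb, ?_⟩
      have h3 := (h1.mul (hAll hym)).add (h2.mul (hR0 (le_locv _ ha)))
      rwa [show (x - a) * y + (y - b) * a = x * y - a * b by ring] at h3
  let g : locv v A →+* B.R ⧸ hiId h hr B :=
    (Ideal.Quotient.mk _).comp (Subalgebra.inclusion hR0).toRingHom
  refine isNoetherianRing_of_surjective _ _ g ?_
  intro q
  obtain ⟨⟨f, hf⟩, rfl⟩ := Ideal.Quotient.mk_surjective q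
  have hf' := hf
  rw [hF] at hf'
  obtain ⟨a, ha, b, hb, hb0, hvb, rfl⟩ := hf'
  obtain ⟨a0, ha0, h1⟩ := step a ha
  obtain ⟨b0, hb0', h2⟩ := step b hb
  have hb00 : b0 ≠ 0 ∧ v b0 = 0 := by
    have h3 := val_add_vpos hb0 hvb h2.neg.vpos
    rwa [show b + -(b - b0) = b0 by ring] at h3
  refine ⟨⟨a0 / b0, a0, ha0, b0, hb0', hb00.1, hb00.2, rfl⟩, ?_⟩
  change Ideal.Quotient.mk (hiId h hr B) ⟨a0 / b0, _⟩ = Ideal.Quotient.mk (hiId h hr B) _
  rw [Ideal.Quotient.eq, mem_hiId]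
  change Hi B (a0 / b0 - a / b)
  have hbR : b ∈ B.R := hAll hb
  have haR : a ∈ B.R := hAll ha
  have hb0R : b0 ∈ B.R := hR0 (le_locv _ hb0')
  have h4 : (b * b0)⁻¹ ∈ B.R := by
    refine B.loc _ (B.R.mul_mem hbR hb0R) (mul_ne_zero hb0 hb00.1) ?_
    rw [v.map_mul hb0 hb00.1, hvb, hb00.2, add_zero]
  have h5 := ((h2.mul haR).sub (h1.mul hbR)).mul h4
  have h6 : ((b - b0) * a - (a - a0) * b) * (b * b0)⁻¹ = a0 / b0 - a / b := by
    have := hb00.1
    field_simp
    ring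
  rwa [h6] at h5

theorem hi_le_max (h : CtxR k v n r) (hr : 0 < r) (B : FR k v D) [IsLocalRing B.R] :
    hiId h hr B ≤ IsLocalRing.maximalIdeal B.R := fun t ht => by
  rw [mem_max_iff]
  exact Hi.vpos ht

/-- Every element outside `χ(> 0) R` has an order. -/
theorem fr_exists_order (h : CtxR k v n r) (hr : 0 < r) (B : FR k v D) {f : B.R}
    (hf : ¬ Hi B (f : Ω)) :
    ∃ M, ∃ P : MvPolynomial (Fin D) k, P.IsHomogeneous M ∧ P ≠ 0 ∧
      f - MvPolynomial.aeval (yR B) P ∈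
        hiId h hr B ⊔ Ideal.span (Set.range (yR B)) ^ (M + 1) := by
  have hloc := fr_isLocalRing B
  refine exists_order (yR B) (hiId h hr B) (hi_noetherian h hr B) (hi_le_max h hr B)
    (fun j => ?_) (hi_gen h hr B) hf
  rw [mem_max_iff]
  exact fun _ => B.y_pos j

/-- A noetherian level as a local ring with parameters. -/
theorem NFD.lr (N : NFD k v r D) : LR v N.R (Sum.elim N.x N.y) where
  fgen := N.fgen
  nonneg := N.nonneg
  mem := by
    rintro (i | j)
    · exact N.x_mem i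
    · exact N.y_mem j
  pos := by
    rintro (i | j)
    · exact fun _ => N.x_pos i
    · exact fun _ => N.y_pos j
  gen := by
    intro f hf hf0
    obtain ⟨a, ha, b, hb, e⟩ := N.gen f hf hf0
    refine ⟨Sum.elim a b, ?_, ?_⟩
    · rintro (i | j)
      · exact ha i
      · exact hb j
    · rw [e, Fintype.sum_sum_type]
      rfl
  alg := N.alg

/-- Elements of `(y)^m` come from a finite level. -/
theorem exists_pow_level (B : FR k v D) (m : ℕ) :
    ∀ e ∈ Ideal.span (Set.range (yR B)) ^ m, ∃ T : Finset Ω, (∀ f ∈ T, f ∈ B.R) ∧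
      ∀ S : Subalgebra k Ω, (∀ f ∈ T, f ∈ S) → (∀ j, B.y j ∈ S) →
        ∃ t : S, (t : Ω) = (e : Ω) ∧ t ∈ Ideal.span {t : S | ∃ j, (t : Ω) = B.y j} ^ m := by
  classical
  have hadd : ∀ m (e e' : B.R), (∃ T : Finset Ω, (∀ f ∈ T, f ∈ B.R) ∧
      ∀ S : Subalgebra k Ω, (∀ f ∈ T, f ∈ S) → (∀ j, B.y j ∈ S) →
        ∃ t : S, (t : Ω) = (e : Ω) ∧ t ∈ Ideal.span {t : S | ∃ j, (t : Ω) = B.y j} ^ m) →
      (∃ T : Finset Ω, (∀ f ∈ T, f ∈ B.R) ∧
      ∀ S : Subalgebra k Ω, (∀ f ∈ T, f ∈ S) → (∀ j, B.y j ∈ S) →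
        ∃ t : S, (t : Ω) = (e' : Ω) ∧ t ∈ Ideal.span {t : S | ∃ j, (t : Ω) = B.y j} ^ m) →
      (∃ T : Finset Ω, (∀ f ∈ T, f ∈ B.R) ∧
      ∀ S : Subalgebra k Ω, (∀ f ∈ T, f ∈ S) → (∀ j, B.y j ∈ S) →
        ∃ t : S, (t : Ω) = ((e + e' : B.R) : Ω) ∧
          t ∈ Ideal.span {t : S | ∃ j, (t : Ω) = B.y j} ^ m) := by
    rintro m e e' ⟨T, hT, h1⟩ ⟨T', hT', h2⟩
    refine ⟨T ∪ T', fun f hf => ?_, fun S hS hy => ?_⟩
    · rcases Finset.mem_union.1 hf with h3 | h3
      · exact hT f h3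
      · exact hT' f h3
    · obtain ⟨t, ht, ht'⟩ := h1 S (fun f hf => hS f (Finset.mem_union_left _ hf)) hy
      obtain ⟨s, hs, hs'⟩ := h2 S (fun f hf => hS f (Finset.mem_union_right _ hf)) hy
      exact ⟨t + s, by rw [Subalgebra.coe_add, Subalgebra.coe_add, ht, hs], Ideal.add_mem _ ht' hs'⟩
  induction m with
  | zero =>
    intro e _
    refine ⟨{(e : Ω)}, fun f hf => ?_, fun S hS _ => ⟨⟨e, hS _ (Finset.mem_singleton_self _)⟩, rfl, ?_⟩⟩
    · rw [Finset.mem_singleton.1 hf]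
      exact e.2
    · rw [pow_zero, Ideal.one_eq_top]
      trivial
  | succ m ih =>
    have hmul : ∀ s ∈ Ideal.span (Set.range (yR B)), ∀ e ∈ Ideal.span (Set.range (yR B)) ^ m,
        ∃ T : Finset Ω, (∀ f ∈ T, f ∈ B.R) ∧
        ∀ S : Subalgebra k Ω, (∀ f ∈ T, f ∈ S) → (∀ j, B.y j ∈ S) →
        ∃ t : S, (t : Ω) = ((s * e : B.R) : Ω) ∧
          t ∈ Ideal.span {t : S | ∃ j, (t : Ω) = B.y j} ^ (m + 1) := by
      intro s hs
      induction hs using Submodule.span_induction with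
      | mem s hs =>
        obtain ⟨j, rfl⟩ := hs
        intro e he
        obtain ⟨T, hT, h1⟩ := ih e he
        refine ⟨T, hT, fun S hS hy => ?_⟩
        obtain ⟨t, ht, ht'⟩ := h1 S hS hy
        refine ⟨⟨B.y j, hy j⟩ * t, ?_, ?_⟩
        · rw [Subalgebra.coe_mul, Subalgebra.coe_mul, ht]
          rfl
        · rw [pow_succ']
          exact Ideal.mul_mem_mul (Ideal.subset_span ⟨j, rfl⟩) ht'
      | zero =>
        intro e _
        refine ⟨∅, by simp, fun S _ _ => ⟨0, by simp, Ideal.zero_mem _⟩⟩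
      | add s s' _ _ h1 h2 =>
        intro e he
        rw [add_mul]
        exact hadd (m + 1) _ _ (h1 e he) (h2 e he)
      | smul a s _ h1 =>
        intro e he
        rw [smul_eq_mul, mul_comm a s, mul_assoc]
        exact h1 (a * e) (Ideal.mul_mem_left _ _ he)
    intro e he
    rw [pow_succ'] at he
    induction he using Submodule.mul_induction_on' with
    | mem_mul_mem s hs t ht => exact hmul s hs t ht
    | add s _ t _ h1 h2 => exact hadd (m + 1) s t h1 h2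

/-- A nonzero form of degree `M` in the `y j` is not in `χ(> 0) R + (y)^(M+1)`. -/
theorem fr_form (h : CtxR k v n r) (hr : 0 < r) (hn : n = r + D) [Infinite k] (B : FR k v D)
    {M : ℕ} (P : MvPolynomial (Fin D) k) (hP : P.IsHomogeneous M) (hP0 : P ≠ 0) :
    MvPolynomial.aeval (yR B) P ∉ hiId h hr B ⊔ Ideal.span (Set.range (yR B)) ^ (M + 1) := by
  classical
  intro hmem
  obtain ⟨z, hz, e, he, hze⟩ := Submodule.mem_sup.1 hmem
  obtain ⟨γ, hγ, hγ0, a, ha, hza⟩ := mem_hiId.1 hz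
  obtain ⟨T, hT, h1⟩ := exists_pow_level B (M + 1) e he
  obtain ⟨S0, G, hS0, -, -, hG⟩ := fr_exists_NFD h.toCtx0 hr B (insert a T) (by
    intro f hf
    rcases Finset.mem_insert.1 hf with rfl | hf
    · exact ha
    · exact hT f hf)
  obtain ⟨u, hu⟩ := fr_exists_basis h hr B (insert γ S0) (by
    intro δ hδ
    rcases Finset.mem_insert.1 hδ with rfl | hδ
    · exact ⟨hγ, hγ0⟩
    · exact hS0 δ hδ)
  have hu0 : GoodBasis B.Γ (S0 : Set 𝕂) u :=
    ⟨hu.mem, hu.pos, hu.ind, hu.gen, fun δ hδ => hu.cone δ (by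
      rw [Finset.coe_insert]
      exact Or.inr hδ)⟩
  obtain ⟨N, hNx, hNy, -, hNR, hNT⟩ := hG u hu0
  have L := NFD.lr N
  obtain ⟨t, ht, ht'⟩ := h1 N.R (fun f hf => hNT f (Finset.mem_insert_of_mem hf))
    (fun j => by rw [← hNy]; exact N.y_mem j)
  refine L.form h.toCtx0 (by rw [Fintype.card_fin, hn]) P hP hP0 ?_
  -- `χ γ` is divisible by a parameter
  obtain ⟨m, ⟨i0, hm⟩, hγm⟩ := hu.cone γ (by
    rw [Finset.coe_insert]
    exact Or.inl rfl)
  have hχ : B.χ γ = ∏ i, N.x i ^ m i := by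
    have h2 := (χ_sum B Finset.univ u hu.mem fun i => (m i : ℤ)).2
    simp only [Int.cast_natCast] at h2
    rw [hγm, h2]
    refine Finset.prod_congr rfl fun i _ => ?_
    rw [zpow_natCast, hNx]
  have hzN : z.1 ∈ N.R := by
    rw [hza, hχ]
    exact N.R.mul_mem (N.R.prod_mem fun i _ => N.R.pow_mem (N.x_mem i) _)
      (hNT a (Finset.mem_insert_self _ _))
  have h2 : MvPolynomial.aeval (fun j => L.par (Sum.inr j)) P = (⟨z.1, hzN⟩ : N.R) + t := by
    apply Subtype.ext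
    rw [Subalgebra.coe_add, ht]
    have h3 : ((MvPolynomial.aeval (fun j => L.par (Sum.inr j)) P : N.R) : Ω) =
        MvPolynomial.aeval N.y P := by
      have h4 : (N.R.val.comp (MvPolynomial.aeval fun j => L.par (Sum.inr j))) =
          MvPolynomial.aeval N.y := by
        rw [MvPolynomial.comp_aeval]
        rfl
      exact DFunLike.congr_fun h4 P
    have h5 : ((MvPolynomial.aeval (yR B) P : B.R) : Ω) = MvPolynomial.aeval B.y P := by
      have h4 : (B.R.val.comp (MvPolynomial.aeval (yR B))) = MvPolynomial.aeval B.y := by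
        rw [MvPolynomial.comp_aeval]
        rfl
      exact DFunLike.congr_fun h4 P
    rw [h3, hNy, ← h5, ← hze]
    rfl
  rw [h2]
  refine Ideal.add_mem _ (Ideal.mem_sup_left ?_) (Ideal.mem_sup_right ?_)
  · have hq : (N.x i0)⁻¹ * z.1 ∈ N.R := by
      rw [hza, hχ, ← Finset.mul_prod_erase _ _ (Finset.mem_univ i0)]
      have h4 : (N.x i0)⁻¹ * (N.x i0 ^ m i0 * (∏ i ∈ Finset.univ.erase i0, N.x i ^ m i) * a) =
          N.x i0 ^ (m i0 - 1) * (∏ i ∈ Finset.univ.erase i0, N.x i ^ m i) * a := by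
        have h5 : N.x i0 ^ m i0 = N.x i0 * N.x i0 ^ (m i0 - 1) := by
          rw [← pow_succ', Nat.sub_add_cancel hm]
        rw [h5]
        have := N.x_ne i0
        field_simp
      rw [h4]
      exact N.R.mul_mem (N.R.mul_mem (N.R.pow_mem (N.x_mem i0) _)
        (N.R.prod_mem fun i _ => N.R.pow_mem (N.x_mem i) _)) (hNT a (Finset.mem_insert_self _ _))
    have h3 : (⟨z.1, hzN⟩ : N.R) = ⟨N.x i0, N.x_mem i0⟩ * ⟨(N.x i0)⁻¹ * z.1, hq⟩ := by
      apply Subtype.ext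
      change z.1 = N.x i0 * ((N.x i0)⁻¹ * z.1)
      rw [mul_inv_cancel_left₀ (N.x_ne i0)]
    rw [h3]
    exact Ideal.mul_mem_right _ _ (Ideal.subset_span ⟨i0, rfl⟩)
  · rw [← hNy] at ht'
    exact ht'

/-- The ideal `χ(> 0) R` is prime. -/
theorem hi_prime (h : CtxR k v n r) (hr : 0 < r) (hn : n = r + D) [Infinite k] (B : FR k v D)
    {f g : Ω} (hf : f ∈ B.R) (hg : g ∈ B.R) (hfg : Hi B (f * g)) : Hi B f ∨ Hi B g := by
  by_contra hcon
  push Not at hcon
  obtain ⟨M, P, hP, hP0, h1⟩ := fr_exists_order h hr B (f := ⟨f, hf⟩) hcon.1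
  obtain ⟨M', Q, hQ, hQ0, h2⟩ := fr_exists_order h hr B (f := ⟨g, hg⟩) hcon.2
  have h3 := order_mul (yR B) (hiId h hr B) hP hQ h1 h2
  refine fr_form h hr hn B (P * Q) (hP.mul hQ) (mul_ne_zero hP0 hQ0) ?_
  have h4 : (⟨f, hf⟩ * ⟨g, hg⟩ : B.R) ∈ hiId h hr B := hfg
  have h5 := Ideal.sub_mem _ (Ideal.mem_sup_left h4) h3
  rwa [sub_sub_cancel] at h5

/-- Krull's intersection theorem modulo `χ(> 0) R`. -/
theorem hi_of_pow (h : CtxR k v n r) (hr : 0 < r) (hn : n = r + D) [Infinite k] (B : FR k v D)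
    {f : B.R} (hf : ∀ M, f ∈ hiId h hr B ⊔ Ideal.span (Set.range (yR B)) ^ M) :
    Hi B (f : Ω) := by
  by_contra hcon
  obtain ⟨M, P, hP, hP0, h1⟩ := fr_exists_order h hr B hcon
  refine fr_form h hr hn B P hP hP0 ?_
  have h5 := Ideal.sub_mem _ (hf (M + 1)) h1
  rwa [sub_sub_cancel] at h5

theorem hi_y (h : CtxR k v n r) (hr : 0 < r) (hn : n = r + D) [Infinite k] (B : FR k v D)
    (j : Fin D) : ¬ Hi B (B.y j) := by
  intro h1
  refine fr_form h hr hn B (MvPolynomial.X j) (MvPolynomial.isHomogeneous_X k j)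
    (MvPolynomial.X_ne_zero j) ?_
  rw [MvPolynomial.aeval_X]
  exact Ideal.mem_sup_left h1

theorem hi_one (B : FR k v D) : ¬ Hi B 1 := by
  intro h1
  have h2 := h1.vpos one_ne_zero
  rw [v.map_one] at h2
  exact lt_irrefl _ h2

theorem ne_zero_of_not_hi (h : CtxR k v n r) (hr : 0 < r) {B : FR k v D} {f : Ω}
    (hf : ¬ Hi B f) : f ≠ 0 := by
  rintro rfl
  exact hf (Hi.zero h hr B)

/-! ### The ideals `(y)^M` -/

theorem mem_YI_of_mem (B : FR k v D) (M : ℕ) : ∀ e ∈ Ideal.span (Set.range (yR B)) ^ M,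
    (e : Ω) ∈ B.YI M := by
  induction M with
  | zero =>
    intro e _
    rw [FR.YI, pow_zero, one_mul]
    exact e.2
  | succ M ih =>
    have hmul : ∀ s ∈ Ideal.span (Set.range (yR B)), ∀ t ∈ Ideal.span (Set.range (yR B)) ^ M,
        ((s * t : B.R) : Ω) ∈ B.YI (M + 1) := by
      intro s hs
      induction hs using Submodule.span_induction with
      | mem s hs =>
        obtain ⟨j, rfl⟩ := hs
        intro t ht
        rw [FR.YI, pow_succ', mul_assoc]
        exact Submodule.mul_mem_mul (Submodule.subset_span ⟨j, rfl⟩) (ih t ht)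
      | zero =>
        intro t _
        rw [zero_mul]
        exact Submodule.zero_mem _
      | add s s' _ _ h1 h2 =>
        intro t ht
        rw [add_mul]
        exact Submodule.add_mem _ (h1 t ht) (h2 t ht)
      | smul a s _ h1 =>
        intro t ht
        rw [smul_eq_mul, mul_comm a s, mul_assoc]
        exact h1 (a * t) (Ideal.mul_mem_left _ _ ht)
    intro e he
    rw [pow_succ'] at he
    induction he using Submodule.mul_induction_on' with
    | mem_mul_mem s hs t ht => exact hmul s hs t ht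
    | add s _ t _ h1 h2 => exact Submodule.add_mem _ h1 h2

theorem mem_of_mem_YI (B : FR k v D) (M : ℕ) {e : Ω} (he : e ∈ B.YI M) :
    ∃ t ∈ Ideal.span (Set.range (yR B)) ^ M, (t : Ω) = e := by
  have h1 : ∀ M : ℕ, ∀ s ∈ Submodule.span k (Set.range B.y) ^ M,
      ∃ t ∈ Ideal.span (Set.range (yR B)) ^ M, (t : Ω) = s := by
    intro M
    induction M with
    | zero =>
      intro s hs
      rw [pow_zero] at hs
      obtain ⟨c, rfl⟩ := Submodule.mem_one.1 hs
      refine ⟨algebraMap k B.R c, ?_, rfl⟩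
      rw [pow_zero, Ideal.one_eq_top]
      trivial
    | succ M ih =>
      intro s hs
      rw [pow_succ'] at hs
      induction hs using Submodule.mul_induction_on' with
      | mem_mul_mem a ha b hb =>
        obtain ⟨t, ht, rfl⟩ := ih b hb
        induction ha using Submodule.span_induction with
        | mem a ha =>
          obtain ⟨j, rfl⟩ := ha
          refine ⟨yR B j * t, ?_, rfl⟩
          rw [pow_succ']
          exact Ideal.mul_mem_mul (Ideal.subset_span ⟨j, rfl⟩) ht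
        | zero => exact ⟨0, Ideal.zero_mem _, by rw [zero_mul]; rfl⟩
        | add a a' _ _ h1 h2 =>
          obtain ⟨t1, ht1, e1⟩ := h1
          obtain ⟨t2, ht2, e2⟩ := h2
          exact ⟨t1 + t2, Ideal.add_mem _ ht1 ht2, by rw [Subalgebra.coe_add, e1, e2, add_mul]⟩
        | smul c a _ h1 =>
          obtain ⟨t1, ht1, e1⟩ := h1
          refine ⟨algebraMap k B.R c * t1, Ideal.mul_mem_left _ _ ht1, ?_⟩
          rw [Subalgebra.coe_mul, e1, smul_mul_assoc, Algebra.smul_def]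
          rfl
      | add a _ b _ h1 h2 =>
        obtain ⟨t1, ht1, e1⟩ := h1
        obtain ⟨t2, ht2, e2⟩ := h2
        exact ⟨t1 + t2, Ideal.add_mem _ ht1 ht2, by rw [Subalgebra.coe_add, e1, e2]⟩
  rw [FR.YI] at he
  induction he using Submodule.mul_induction_on' with
  | mem_mul_mem a ha b hb =>
    obtain ⟨t, ht, rfl⟩ := h1 M a ha
    exact ⟨t * ⟨b, hb⟩, Ideal.mul_mem_right _ _ ht, rfl⟩
  | add a _ b _ h1 h2 =>
    obtain ⟨t1, ht1, e1⟩ := h1
    obtain ⟨t2, ht2, e2⟩ := h2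
    exact ⟨t1 + t2, Ideal.add_mem _ ht1 ht2, by rw [Subalgebra.coe_add, e1, e2]⟩

theorem coe_aeval (B : FR k v D) (P : MvPolynomial (Fin D) k) :
    ((MvPolynomial.aeval (yR B) P : B.R) : Ω) = MvPolynomial.aeval B.y P := by
  have h4 : (B.R.val.comp (MvPolynomial.aeval (yR B))) = MvPolynomial.aeval B.y := by
    rw [MvPolynomial.comp_aeval]
    rfl
  exact DFunLike.congr_fun h4 P

/-- Forms, in the language of `Ord`. -/
theorem form_ne (h : CtxR k v n r) (hr : 0 < r) (hn : n = r + D) [Infinite k] (B : FR k v D)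
    {M : ℕ} (P : MvPolynomial (Fin D) k) (hP : P.IsHomogeneous M) (hP0 : P ≠ 0) {e z : Ω}
    (he : e ∈ B.YI (M + 1)) (hz : Hi B z) : MvPolynomial.aeval B.y P + e + z ≠ 0 := by
  intro h0
  obtain ⟨t, ht, rfl⟩ := mem_of_mem_YI B _ he
  refine fr_form h hr hn B P hP hP0 ?_
  have h1 : MvPolynomial.aeval (yR B) P = -(⟨z, hz.mem⟩ : B.R) - t := by
    apply Subtype.ext
    rw [coe_aeval]
    change _ = -z - (t : Ω)
    linear_combination h0
  rw [h1]
  exact Ideal.sub_mem _ (Ideal.mem_sup_left (neg_mem (mem_hiId.2 hz)))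
    (Ideal.mem_sup_right ht)

/-- Forms, in the language of `Ord`. -/
theorem form_not_hi (h : CtxR k v n r) (hr : 0 < r) (hn : n = r + D) [Infinite k] (B : FR k v D)
    {M : ℕ} (P : MvPolynomial (Fin D) k) (hP : P.IsHomogeneous M) (hP0 : P ≠ 0) {e z : Ω}
    (he : e ∈ B.YI (M + 1)) (hz : Hi B z) : ¬ Hi B (MvPolynomial.aeval B.y P + e + z) := by
  intro h0
  have h1 := form_ne h hr hn B P hP hP0 he (hz.sub h0)
  apply h1
  ring

/-- Orders, in the language of `Ord`. -/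
theorem exists_ord (h : CtxR k v n r) (hr : 0 < r) (B : FR k v D) {f : Ω} (hf : f ∈ B.R)
    (hf0 : ¬ Hi B f) : ∃ M, ∃ P : MvPolynomial (Fin D) k, P.IsHomogeneous M ∧ P ≠ 0 ∧
      ∃ e ∈ B.YI (M + 1), ∃ z, Hi B z ∧ f = MvPolynomial.aeval B.y P + e + z := by
  obtain ⟨M, P, hP, hP0, h1⟩ := fr_exists_order h hr B (f := ⟨f, hf⟩) hf0
  obtain ⟨z, hz, t, ht, e⟩ := Submodule.mem_sup.1 h1
  refine ⟨M, P, hP, hP0, t, mem_YI_of_mem B _ t ht, z, hz, ?_⟩
  have h2 := congrArg (fun a : B.R => (a : Ω)) e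
  simp only [Subalgebra.coe_add, Subalgebra.coe_sub, coe_aeval] at h2
  linear_combination -h2

end Frame

end Pool.Agent.ALLZO
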