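import Pool.Agent.Lib.ALLZO.L1
import Pool.Agent.Lib.ALL_h94.Z2c

/-!
# PROJECT ALL, block Z: `p`-coordinates of `C[1/x]` from stability under derivations
-/

set_option autoImplicit false

open Polynomial

namespace Pool.Agent.ALLZO

open Pool.Agent.TAO (OVal VPos val_add_vpos Ctx0)
open Pool.Agent.ALLO (locv)
open Pool.Agent.LU1 (FracIs fixO mem_fixO)
open Pool.Agent.ALLh94 (mon PExp coord_mem)

universe u w

/-- Stability under the dual derivations gives `p`-coordinates. -/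
theorem pexp_stable {L : Type*} [Field L] {p : ℕ} [hp : Fact p.Prime] [CharP L p] {ι : Type*}
    [Fintype ι] [DecidableEq ι] (t : ι → L) (d : ι → Derivation ℤ L L)
    (hd : ∀ i j, d i (t j) = if i = j then 1 else 0) (hL : PExp p t (Set.univ : Set L))
    (S : AddSubgroup L) (hS : ∀ i, ∀ a ∈ S, d i a ∈ S) (htS : ∀ i, ∀ a ∈ S, t i * a ∈ S)
    (hpS : ∀ a, a ^ p ∈ S → a ∈ S) : PExp p t (S : Set L) := by
  intro f hf
  obtain ⟨c, -, rfl⟩ := hL f trivial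
  exact ⟨c, fun α => coord_mem t d hd S hS htS hpS c hf α, rfl⟩

variable {k Ω : Type u} [Field k] [Field Ω] [Algebra k Ω] {𝕂 : Type w} [Field 𝕂] [LinearOrder 𝕂]
  [IsStrictOrderedRing 𝕂] {v : OVal 𝕂 Ω} {nn : ℕ}
variable {R : Subalgebra k Ω} {F : IntermediateField k Ω} {N : IntermediateField F Ω}

/-- `AH[1/x]` is closed under `p`-th roots. -/
theorem AH_root (hR : ∀ f ∈ R, f ∈ F) (H : Subgroup (N ≃ₐ[F] N)) {x : Ω} (hx : x ∈ R) {p : ℕ}
    (hp : 0 < p) {a : Ω} (ha : a ∈ fixO F N H) (h : ∃ M : ℕ, x ^ M * a ^ p ∈ AH v R H) :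
    ∃ M : ℕ, x ^ M * a ∈ AH v R H := by
  obtain ⟨M, hM⟩ := h
  have hxH : x ∈ AH v R H := le_AH hR H hx
  refine ⟨M, mem_AH.2 ⟨CN_normal hR ?_ ?_, ?_⟩⟩
  · refine mul_mem (pow_mem (CN_le _ (mem_AH.1 hxH).1) _) ?_
    obtain ⟨n, rfl, -⟩ := (mem_fixO _ _ _ _).1 ha
    exact n.2
  · have h1 : (x ^ M * a) ^ p = x ^ (M * (p - 1)) * (x ^ M * a ^ p) := by
      have h2 : p = (p - 1) + 1 := by omega
      have h3 : (x ^ M * a) ^ p = x ^ (M * p) * a ^ p := by rw [mul_pow, ← pow_mul]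
      have h4 : M * p = M * (p - 1) + M := by
        obtain ⟨q, rfl⟩ : ∃ q, p = q + 1 := ⟨p - 1, by omega⟩
        rw [Nat.add_sub_cancel]
        ring
      rw [h3, h4, pow_add]
      ring
    refine IsIntegral.of_pow hp ?_
    rw [h1]
    have h2 : x ^ (M * (p - 1)) * (x ^ M * a ^ p) ∈ CN v R N :=
      (mem_AH.1 ((AH v R H).mul_mem ((AH v R H).pow_mem hxH _) hM)).1
    exact isIntegral_algebraMap (R := CN v R N) (A := Ω) (x := ⟨_, h2⟩)
  · exact mul_mem (pow_mem (mem_AH.1 hxH).2 _) ha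

/-- **`p`-coordinates of `C[1/x]`**, `C = AH v R H`, `E = N ^ H`. -/
theorem pcoord_C {p : ℕ} [hp : Fact p.Prime] [CharP Ω p] (hR : ∀ f ∈ R, f ∈ F)
    (H : Subgroup (N ≃ₐ[F] N)) {x : Ω} (hx : x ∈ R) {E : IntermediateField k Ω}
    (hE : fixO F N H = E) {ι : Type*} [Fintype ι] [DecidableEq ι] (t : ι → E)
    (d : ι → Derivation k E E) (hd : ∀ i j, d i (t j) = if i = j then 1 else 0)
    (hexp : PExp p t (Set.univ : Set E)) (ht : ∀ i, ∃ M : ℕ, x ^ M * (t i : Ω) ∈ AH v R H)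
    (hdS : ∀ i, ∀ e : E, (∃ M : ℕ, x ^ M * (e : Ω) ∈ AH v R H) →
      ∃ M : ℕ, x ^ M * (d i e : Ω) ∈ AH v R H)
    (a : Ω) (ha : ∃ M : ℕ, x ^ M * a ∈ AH v R H) (haE : a ∈ E) :
    ∃ c : (ι → Fin p) → Ω, (∀ μ, ∃ M : ℕ, x ^ M * c μ ∈ AH v R H) ∧
      a = ∑ μ, mon (fun i => (t i : Ω)) μ * c μ ^ p := by
  have hxH : x ∈ AH v R H := le_AH hR H hx
  have hcE : CharP E p := (algebraMap E Ω).charP Subtype.val_injective p
  let S : AddSubgroup E :=
    { carrier := {e | (e : Ω) ∈ invX (AH v R H) x hxH}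
      add_mem' := fun ha hb => (invX (AH v R H) x hxH).add_mem ha hb
      zero_mem' := (invX (AH v R H) x hxH).zero_mem
      neg_mem' := fun ha => (invX (AH v R H) x hxH).neg_mem ha }
  have hmul : ∀ i, ∀ a ∈ S, t i * a ∈ S := fun i a ha =>
    (invX (AH v R H) x hxH).mul_mem (ht i) ha
  obtain ⟨c, hc, hc'⟩ := pexp_stable (p := p) t (fun i => (d i).restrictScalars ℤ)
    (fun i j => hd i j) hexp S (fun i e he => hdS i e he) hmul
    (fun a ha => AH_root hR H hx hp.out.pos (hE ▸ a.2) (by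
      obtain ⟨M, hM⟩ := ha
      exact ⟨M, by simpa using hM⟩)) ⟨a, haE⟩ ha
  refine ⟨fun μ => (c μ : Ω), fun μ => hc μ, ?_⟩
  have h1 := congrArg (fun e : E => (e : Ω)) hc'
  simp only at h1
  rw [h1]
  push_cast
  refine Finset.sum_congr rfl fun μ _ => ?_
  congr 1
  unfold mon
  push_cast
  rfl

end Pool.Agent.ALLZO
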