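import Pool.Agent.Lib.ALLZO.Z1a

/-!
# PROJECT ALL, block Z, row Z1 (second part)

The element `θ` and Lagrange's formula.
-/

set_option autoImplicit false

open Polynomial

namespace Pool.Agent.ALLZO

open Pool.Agent.TAO (OVal VPos val_add_vpos Ctx0)
open Pool.Agent.ALLO (locv)
open Pool.Agent.LU1 (FracIs fixO mem_fixO)

universe u w

variable {k Ω : Type u} [Field k] [Field Ω] [Algebra k Ω] {𝕂 : Type w} [Field 𝕂] [LinearOrder 𝕂]
  [IsStrictOrderedRing 𝕂] {v : OVal 𝕂 Ω} {nn : ℕ}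
variable {R : Subalgebra k Ω} {F : IntermediateField k Ω} {N : IntermediateField F Ω}

theorem val_prod {ι : Type*} (s : Finset ι) (f : ι → Ω) (h : ∀ i ∈ s, f i ≠ 0 ∧ v (f i) = 0) :
    (∏ i ∈ s, f i) ≠ 0 ∧ v (∏ i ∈ s, f i) = 0 := by
  refine ⟨Finset.prod_ne_zero_iff.2 fun i hi => (h i hi).1, ?_⟩
  rw [v.map_prod s f fun i hi => (h i hi).1]
  exact Finset.sum_eq_zero fun i hi => (h i hi).2

theorem int_prod {ι : Type*} (s : Finset ι) (f : ι → N)
    (h : ∀ i ∈ s, IsIntegral R ((f i : N) : Ω)) : IsIntegral R ((∏ i ∈ s, f i : N) : Ω) := by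
  classical
  induction s using Finset.induction_on with
  | empty => simpa using isIntegral_one
  | insert i s hi ih =>
    rw [Finset.prod_insert hi, MulMemClass.coe_mul]
    exact (h i (Finset.mem_insert_self i s)).mul
      (ih fun j hj => h j (Finset.mem_insert_of_mem hj))

/-- A product of elements of nonnegative value with one factor of positive value. -/
theorem vpos_prod {ι : Type*} (s : Finset ι) (f : ι → Ω) (h : ∀ i ∈ s, v.Ge 0 (f i)) {i : ι}
    (hi : i ∈ s) (hp : VPos v (f i)) : VPos v (∏ i ∈ s, f i) := by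
  classical
  rw [← Finset.mul_prod_erase s f hi]
  refine hp.mul ?_
  have : ∀ t : Finset ι, (∀ j ∈ t, v.Ge 0 (f j)) → v.Ge 0 (∏ j ∈ t, f j) := by
    intro t
    induction t using Finset.induction_on with
    | empty => intro _ _; simp [v.map_one]
    | insert j t hj ih =>
      intro ht
      rw [Finset.prod_insert hj]
      have := (ht j (Finset.mem_insert_self j t)).mul
        (ih fun l hl => ht l (Finset.mem_insert_of_mem hl))
      simpa using this
  exact this _ fun j hj => h j (Finset.mem_of_mem_erase hj)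

/-- Outside the decomposition group: an integral element outside the centre whose conjugate is
in the centre. -/
theorem exists_sep_elt [FiniteDimensional F N] {hR : ∀ f ∈ R, f ∈ F} {σ : N ≃ₐ[F] N}
    (hσ : σ ∉ DP v R N hR) :
    ∃ b : N, IsIntegral R (b : Ω) ∧ ¬ VPos v (b : Ω) ∧ VPos v ((σ b : N) : Ω) := by
  have h1 : σ⁻¹ ∉ DP v R N hR := fun h => hσ (by simpa using (DP v R N hR).inv_mem h)
  have h2 : ¬ ∀ n : N, IsIntegral R (n : Ω) → VPos v (n : Ω) →
      VPos v ((σ⁻¹ n : N) : Ω) := fun h => h1 (mem_DP_of h)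
  push Not at h2
  obtain ⟨n, hn, hn1, hn2⟩ := h2
  refine ⟨σ⁻¹ n, int_map hR _ hn, hn2, ?_⟩
  rw [← AlgEquiv.mul_apply, mul_inv_cancel, AlgEquiv.one_apply]
  exact hn1

/-- Z1b: an integral element fixed by the decomposition group, congruent to `1`, with all other
conjugates in the centre. -/
theorem exists_theta (h : Ctx0 k v nn) (hR : NRing v F R) [FiniteDimensional F N] :
    ∃ θ : N, IsIntegral R (θ : Ω) ∧ (∀ σ ∈ DP v R N hR.frac.1, σ θ = θ) ∧
      VPos v ((θ : Ω) - 1) ∧ ∀ σ : N ≃ₐ[F] N, σ ∉ DP v R N hR.frac.1 → VPos v ((σ θ : N) : Ω) := by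
  classical
  have hfin : Fintype (N ≃ₐ[F] N) := Fintype.ofFinite _
  set D := DP v R N hR.frac.1 with hD
  have h1 : ∀ σ : N ≃ₐ[F] N, ∃ b : N, IsIntegral R (b : Ω) ∧ ¬ VPos v (b : Ω) ∧
      (σ ∉ D → VPos v ((σ b : N) : Ω)) := by
    intro σ
    by_cases hσ : σ ∈ D
    · refine ⟨1, by simpa using isIntegral_one, ?_, fun h => absurd hσ h⟩
      rw [OneMemClass.coe_one]
      exact not_vpos one_ne_zero v.map_one
    · obtain ⟨b, hb, hb1, hb2⟩ := exists_sep_elt hσ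
      exact ⟨b, hb, hb1, fun _ => hb2⟩
  choose b hb hb1 hb2 using h1
  set B : N := ∏ σ : N ≃ₐ[F] N, b σ with hB
  have hBint : IsIntegral R (B : Ω) := int_prod _ _ fun σ _ => hb σ
  have hB0 : (B : Ω) ≠ 0 ∧ v (B : Ω) = 0 := by
    have := val_prod (v := v) Finset.univ (fun σ => ((b σ : N) : Ω)) fun σ _ =>
      val_eq_zero hR.nonneg (hb σ) (hb1 σ)
    rw [hB]
    push_cast
    exact this
  have hBσ : ∀ σ : N ≃ₐ[F] N, σ ∉ D → VPos v ((σ B : N) : Ω) := by
    intro σ hσ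
    rw [hB, _root_.map_prod]
    push_cast
    exact vpos_prod _ _ (fun τ _ => int_ge hR.nonneg (int_map hR.frac.1 σ (hb τ)))
      (Finset.mem_univ σ) (hb2 σ hσ)
  obtain ⟨c, hc0, hc⟩ := h.res _ hB0.1 hB0.2
  set cN : N := algebraMap F N (algebraMap k F c) with hcN
  have hcΩ : (cN : Ω) = algebraMap k Ω c := rfl
  have hcne : (cN : Ω) ≠ 0 := by rw [hcΩ]; simpa using hc0
  set n : N := cN⁻¹ * B with hn
  have hcinv : ((cN⁻¹ : N) : Ω) = algebraMap k Ω c⁻¹ := by
    push_cast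
    rw [hcΩ, ← map_inv₀]
  have hnint : IsIntegral R (n : Ω) := by
    rw [hn, MulMemClass.coe_mul, hcinv]
    exact (isIntegral_of_mem (R.algebraMap_mem c⁻¹)).mul hBint
  have hn1 : VPos v ((n : Ω) - 1) := by
    have e : (n : Ω) - 1 = algebraMap k Ω c⁻¹ * ((B : Ω) - algebraMap k Ω c) := by
      rw [hn, MulMemClass.coe_mul, hcinv, mul_sub, ← map_mul, inv_mul_cancel₀ hc0, map_one]
    rw [e]
    exact VPos.mul' (Ctx0.ge h _) hc
  have hnσ : ∀ σ : N ≃ₐ[F] N, σ ∉ D → VPos v ((σ n : N) : Ω) := by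
    intro σ hσ
    have e : σ n = cN⁻¹ * σ B := by
      rw [hn, _root_.map_mul, map_inv₀, hcN, AlgEquiv.commutes]
    rw [e, MulMemClass.coe_mul, hcinv]
    exact VPos.mul' (Ctx0.ge h _) (hBσ σ hσ)
  have hnD : ∀ σ ∈ D, VPos v (((σ n : N) : Ω) - 1) := by
    intro σ hσ
    have h2 : IsIntegral R ((n - 1 : N) : Ω) := by
      push_cast
      exact hnint.sub isIntegral_one
    have h3 := (hσ (n - 1) h2).1 (by push_cast; exact hn1)
    rw [_root_.map_sub, _root_.map_one] at h3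
    push_cast at h3
    exact h3
  refine ⟨∏ τ : D, (τ : N ≃ₐ[F] N) n, int_prod _ _ fun τ _ => int_map hR.frac.1 _ hnint,
    ?_, ?_, ?_⟩
  · intro σ hσ
    rw [_root_.map_prod]
    refine Fintype.prod_equiv (Equiv.mulLeft (⟨σ, hσ⟩ : D)) _ _ fun τ => rfl
  · have : ∀ s : Finset D, VPos v (((∏ τ ∈ s, (τ : N ≃ₐ[F] N) n : N) : Ω) - 1) := by
      intro s
      induction s using Finset.induction_on with
      | empty => rw [Finset.prod_empty, OneMemClass.coe_one, sub_self]; exact VPos.zero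
      | insert τ s hτ ih =>
        rw [Finset.prod_insert hτ, MulMemClass.coe_mul]
        have e : ∀ a b : Ω, a * b - 1 = (a - 1) * b + (b - 1) := fun a b => by ring
        rw [e]
        refine ((hnD τ τ.2).mul ?_).add ih
        exact int_ge hR.nonneg (int_prod _ _ fun ρ _ => int_map hR.frac.1 _ hnint)
    exact this Finset.univ
  · intro σ hσ
    rw [_root_.map_prod]
    push_cast
    refine vpos_prod _ _ (fun τ _ => int_ge hR.nonneg
      (int_map hR.frac.1 σ (int_map hR.frac.1 _ hnint))) (Finset.mem_univ (1 : D)) ?_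
    rw [Subgroup.coe_one, AlgEquiv.one_apply]
    exact hnσ σ hσ

/-- The data of `θ`. -/
structure IsTheta {𝕂 : Type w} [Field 𝕂] [LinearOrder 𝕂]
    [IsStrictOrderedRing 𝕂] (v : OVal 𝕂 Ω) (R : Subalgebra k Ω) (N : IntermediateField F Ω)
    (hR : ∀ f ∈ R, f ∈ F) (θ : N) : Prop where
  int : IsIntegral R (θ : Ω)
  fix : ∀ σ ∈ DP v R N hR, σ θ = θ
  one : VPos v ((θ : Ω) - 1)
  mov : ∀ σ : N ≃ₐ[F] N, σ ∉ DP v R N hR → VPos v ((σ θ : N) : Ω)

namespace IsTheta

variable {hR : ∀ f ∈ R, f ∈ F} {θ : N}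

theorem val (h : IsTheta v R N hR θ) : (θ : Ω) ≠ 0 ∧ v (θ : Ω) = 0 := by
  have := val_add_vpos (v := v) one_ne_zero v.map_one h.one
  rwa [add_sub_cancel] at this

/-- The stabiliser of `θ` is the decomposition group. -/
theorem fix_iff (h : IsTheta v R N hR θ) (σ : N ≃ₐ[F] N) : σ θ = θ ↔ σ ∈ DP v R N hR := by
  refine ⟨fun h1 => ?_, h.fix σ⟩
  by_contra h2
  have h3 := h.mov σ h2
  rw [h1] at h3
  exact not_vpos h.val.1 h.val.2 h3

open Classical in
/-- The orbit of `θ` under `H`. -/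
noncomputable def orb [FiniteDimensional F N] (θ : N) (H : Subgroup (N ≃ₐ[F] N)) : Finset N :=
  Set.Finite.toFinset (s := (fun σ : N ≃ₐ[F] N => σ θ) '' (H : Set (N ≃ₐ[F] N)))
    (Set.Finite.image _ (Set.toFinite _))

theorem mem_orb [FiniteDimensional F N] {H : Subgroup (N ≃ₐ[F] N)} {t : N} :
    t ∈ orb θ H ↔ ∃ σ ∈ H, σ θ = t := by
  rw [orb, Set.Finite.mem_toFinset]
  rfl

theorem self_mem_orb [FiniteDimensional F N] (H : Subgroup (N ≃ₐ[F] N)) : θ ∈ orb θ H :=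
  mem_orb.2 ⟨1, H.one_mem, rfl⟩

open Classical in
/-- `f_H'(θ)`. -/
noncomputable def du [FiniteDimensional F N] (θ : N) (H : Subgroup (N ≃ₐ[F] N)) : N :=
  ∏ t ∈ (orb θ H).erase θ, (θ - t)

open Classical in
/-- `f_H(1) / (1 - θ)`. -/
noncomputable def du1 [FiniteDimensional F N] (θ : N) (H : Subgroup (N ≃ₐ[F] N)) : N :=
  ∏ t ∈ (orb θ H).erase θ, (1 - t)

theorem vpos_orb [FiniteDimensional F N] (h : IsTheta v R N hR θ) {H : Subgroup (N ≃ₐ[F] N)}
    {t : N} (ht : t ∈ orb θ H) (hne : t ≠ θ) : VPos v (t : Ω) := by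
  obtain ⟨σ, hσ, rfl⟩ := mem_orb.1 ht
  exact h.mov σ fun hD => hne (h.fix σ hD)

theorem int_orb [FiniteDimensional F N] (h : IsTheta v R N hR θ) {H : Subgroup (N ≃ₐ[F] N)}
    {t : N} (ht : t ∈ orb θ H) : IsIntegral R (t : Ω) := by
  obtain ⟨σ, -, rfl⟩ := mem_orb.1 ht
  exact int_map hR σ h.int

theorem du_val [FiniteDimensional F N] (h : IsTheta v R N hR θ) (H : Subgroup (N ≃ₐ[F] N)) :
    (du θ H : Ω) ≠ 0 ∧ v (du θ H : Ω) = 0 := by
  classical
  unfold du
  push_cast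
  refine val_prod _ _ fun t ht => ?_
  have h1 := h.vpos_orb (Finset.mem_of_mem_erase ht) (Finset.ne_of_mem_erase ht)
  rw [sub_eq_add_neg]
  exact val_add_vpos h.val.1 h.val.2 h1.neg

theorem du1_val [FiniteDimensional F N] (h : IsTheta v R N hR θ) (H : Subgroup (N ≃ₐ[F] N)) :
    (du1 θ H : Ω) ≠ 0 ∧ v (du1 θ H : Ω) = 0 := by
  classical
  unfold du1
  push_cast
  refine val_prod _ _ fun t ht => ?_
  have h1 := h.vpos_orb (Finset.mem_of_mem_erase ht) (Finset.ne_of_mem_erase ht)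
  rw [sub_eq_add_neg]
  exact val_add_vpos one_ne_zero v.map_one h1.neg

theorem du_int [FiniteDimensional F N] (h : IsTheta v R N hR θ) (H : Subgroup (N ≃ₐ[F] N)) :
    IsIntegral R (du θ H : Ω) := by
  classical
  unfold du
  refine int_prod _ _ fun t ht => ?_
  push_cast
  exact h.int.sub (h.int_orb (Finset.mem_of_mem_erase ht))

theorem du1_int [FiniteDimensional F N] (h : IsTheta v R N hR θ) (H : Subgroup (N ≃ₐ[F] N)) :
    IsIntegral R (du1 θ H : Ω) := by
  classical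
  unfold du1
  refine int_prod _ _ fun t ht => ?_
  push_cast
  exact isIntegral_one.sub (h.int_orb (Finset.mem_of_mem_erase ht))

theorem orb_erase_image [FiniteDimensional F N] {H : Subgroup (N ≃ₐ[F] N)} {σ : N ≃ₐ[F] N}
    (hσ : σ ∈ H) (x : N) [DecidableEq N] :
    ((orb θ H).erase x).image σ = (orb θ H).erase (σ x) := by
  ext t
  rw [Finset.mem_image, Finset.mem_erase]
  constructor
  · rintro ⟨s, hs, rfl⟩
    rw [Finset.mem_erase] at hs
    refine ⟨fun h => hs.1 (σ.injective h), ?_⟩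
    obtain ⟨τ, hτ, rfl⟩ := mem_orb.1 hs.2
    exact mem_orb.2 ⟨σ * τ, H.mul_mem hσ hτ, rfl⟩
  · rintro ⟨h1, h2⟩
    obtain ⟨τ, hτ, rfl⟩ := mem_orb.1 h2
    refine ⟨(σ⁻¹ * τ) θ, ?_, ?_⟩
    · rw [Finset.mem_erase]
      refine ⟨fun h => h1 ?_, mem_orb.2 ⟨σ⁻¹ * τ, H.mul_mem (H.inv_mem hσ) hτ, rfl⟩⟩
      rw [← h, ← AlgEquiv.mul_apply, mul_inv_cancel_left]
    · rw [← AlgEquiv.mul_apply, mul_inv_cancel_left]

/-- `du θ H` is fixed by `DP ⊓ H`. -/
theorem du_fix [FiniteDimensional F N] (h : IsTheta v R N hR θ) (H : Subgroup (N ≃ₐ[F] N))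
    {σ : N ≃ₐ[F] N} (hσ : σ ∈ DP v R N hR ⊓ H) : σ (du θ H) = du θ H := by
  classical
  have hθ := h.fix σ hσ.1
  unfold du
  rw [_root_.map_prod]
  have h1 := orb_erase_image (θ := θ) hσ.2 θ
  rw [hθ] at h1
  conv_rhs => rw [← h1]
  rw [Finset.prod_image fun x _ y _ hxy => σ.injective hxy]
  refine Finset.prod_congr rfl fun t _ => ?_
  rw [_root_.map_sub, hθ]

theorem du1_fix [FiniteDimensional F N] (h : IsTheta v R N hR θ) (H : Subgroup (N ≃ₐ[F] N))
    {σ : N ≃ₐ[F] N} (hσ : σ ∈ DP v R N hR ⊓ H) : σ (du1 θ H) = du1 θ H := by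
  classical
  have hθ := h.fix σ hσ.1
  unfold du1
  rw [_root_.map_prod]
  have h1 := orb_erase_image (θ := θ) hσ.2 θ
  rw [hθ] at h1
  conv_rhs => rw [← h1]
  rw [Finset.prod_image fun x _ y _ hxy => σ.injective hxy]
  refine Finset.prod_congr rfl fun t _ => ?_
  rw [_root_.map_sub, _root_.map_one]

/-- Lagrange's formula over the fixed field of `H`. -/
theorem lagrange [FiniteDimensional F N] (h : IsTheta v R N hR θ) (H : Subgroup (N ≃ₐ[F] N))
    {b : N} (hb : IsIntegral R (b : Ω)) (hbf : ∀ σ ∈ DP v R N hR ⊓ H, σ b = b) :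
    ∃ g : N[X], PI R g ∧ (∀ σ ∈ H, g.map (σ : N →+* N) = g) ∧ g.eval θ = b * du θ H := by
  classical
  have hfin : Fintype (N ≃ₐ[F] N) := Fintype.ofFinite _
  set O : Finset (N × N) :=
    (Finset.univ.filter fun σ : N ≃ₐ[F] N => σ ∈ H).image fun σ => (σ θ, σ b) with hO
  have hmemO : ∀ x : N × N, x ∈ O ↔ ∃ σ ∈ H, (σ θ, σ b) = x := by
    intro x
    rw [hO, Finset.mem_image]
    simp only [Finset.mem_filter, Finset.mem_univ, true_and]
  have h0O : (θ, b) ∈ O := (hmemO _).2 ⟨1, H.one_mem, rfl⟩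
  refine ⟨∑ x ∈ O, C x.2 * ∏ t ∈ (orb θ H).erase x.1, (X - C t), ?_, ?_, ?_⟩
  · refine PI.sum _ _ fun x hx => ?_
    obtain ⟨σ, hσ, rfl⟩ := (hmemO x).1 hx
    refine (PI.C (int_map hR σ hb)).mul (PI.prod _ _ fun t ht => PI.X_sub_C ?_)
    exact h.int_orb (Finset.mem_of_mem_erase ht)
  · intro σ hσ
    rw [Polynomial.map_sum]
    refine Finset.sum_bij (fun x _ => (σ x.1, σ x.2)) ?_ ?_ ?_ ?_
    · intro x hx
      obtain ⟨ρ, hρ, rfl⟩ := (hmemO x).1 hx
      exact (hmemO _).2 ⟨σ * ρ, H.mul_mem hσ hρ, rfl⟩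
    · intro x _ y _ hxy
      rw [Prod.mk.injEq] at hxy
      exact Prod.ext (σ.injective hxy.1) (σ.injective hxy.2)
    · intro x hx
      obtain ⟨ρ, hρ, rfl⟩ := (hmemO x).1 hx
      refine ⟨((σ⁻¹ * ρ) θ, (σ⁻¹ * ρ) b),
        (hmemO _).2 ⟨σ⁻¹ * ρ, H.mul_mem (H.inv_mem hσ) hρ, rfl⟩, ?_⟩
      have e : ∀ z : N, σ ((σ⁻¹ * ρ) z) = ρ z := fun z => by
        rw [← AlgEquiv.mul_apply, mul_inv_cancel_left]
      rw [e, e]
    · intro x _
      rw [Polynomial.map_mul, Polynomial.map_prod, map_C]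
      congr 1
      rw [← orb_erase_image (θ := θ) hσ x.1, Finset.prod_image fun a _ c _ hac => σ.injective hac]
      refine Finset.prod_congr rfl fun t _ => ?_
      simp
  · rw [eval_finsetSum, ← Finset.add_sum_erase O _ h0O, Finset.sum_eq_zero, add_zero,
      eval_mul, eval_C, eval_prod]
    · unfold du
      congr 1
      refine Finset.prod_congr rfl fun t _ => ?_
      simp
    · intro x hx
      rw [Finset.mem_erase] at hx
      obtain ⟨σ, hσ, rfl⟩ := (hmemO x).1 hx.2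
      have hne : σ θ ≠ θ := by
        intro h1
        apply hx.1
        have h2 := (h.fix_iff σ).1 h1
        rw [h1, hbf σ ⟨h2, hσ⟩]
      rw [eval_mul, eval_prod, Finset.prod_eq_zero (i := θ), mul_zero]
      · exact Finset.mem_erase.2 ⟨fun h1 => hne h1.symm, self_mem_orb H⟩
      · simp

end IsTheta

theorem exists_isTheta (h : Ctx0 k v nn) (hR : NRing v F R) (N : IntermediateField F Ω)
    [FiniteDimensional F N] : ∃ θ : N, IsTheta v R N hR.frac.1 θ := by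
  obtain ⟨θ, h1, h2, h3, h4⟩ := exists_theta (N := N) h hR
  exact ⟨θ, h1, h2, h3, h4⟩

end Pool.Agent.ALLZO
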