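import Pool.Agent.Lib.ALLZO.Z1b

/-!
# PROJECT ALL, block Z, row Z1 (third part)

The ring `R₂ = CN ⊓ F₂` of the decomposition field `F₂`.
-/

set_option autoImplicit false

open Polynomial

namespace Pool.Agent.ALLZO

open Pool.Agent.TAO (OVal VPos val_add_vpos Ctx0)
open Pool.Agent.ALLO (locv)
open Pool.Agent.LU1 (FracIs fixO mem_fixO)

universe u w

variable {k Ω : Type u} [Field k] [Field Ω] [Algebra k Ω] {𝕂 : Type w} [Field 𝕂] [LinearOrder 𝕂]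
  [IsStrictOrderedRing 𝕂] {v : OVal 𝕂 Ω} {nn : ℕ}
variable {R : Subalgebra k Ω} {F : IntermediateField k Ω} {N : IntermediateField F Ω}

theorem intN_nonneg (hR : ∀ f ∈ R, v.Ge 0 f) : ∀ f ∈ intN R N, v.Ge 0 f :=
  fun _ hf => int_ge hR hf.2

theorem CN_nonneg (hR : ∀ f ∈ R, v.Ge 0 f) : ∀ f ∈ CN v R N, v.Ge 0 f :=
  locv_nonneg (intN_nonneg hR)

theorem CN_inv {f : Ω} (hf : f ∈ CN v R N) (h0 : f ≠ 0) (h1 : v f = 0) : f⁻¹ ∈ CN v R N :=
  locv_inv hf h0 h1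

theorem intN_le_CN : intN R N ≤ CN v R N := le_locv _

/-- An integral element of value `0` divides an element fixed by the decomposition group, of
value `0`. -/
theorem exists_norm [FiniteDimensional F N] (hR : NRing v F R) {t : N}
    (ht : IsIntegral R (t : Ω)) (h0 : (t : Ω) ≠ 0) (h1 : v (t : Ω) = 0) :
    ∃ s : N, IsIntegral R (s : Ω) ∧ IsIntegral R ((t * s : N) : Ω) ∧
      (∀ σ ∈ DP v R N hR.frac.1, σ (t * s) = t * s) ∧ ((t * s : N) : Ω) ≠ 0 ∧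
      v ((t * s : N) : Ω) = 0 := by
  classical
  have hfin : Fintype (N ≃ₐ[F] N) := Fintype.ofFinite _
  set D := DP v R N hR.frac.1 with hD
  have e : (∏ τ : D, (τ : N ≃ₐ[F] N) t) =
      t * ∏ τ ∈ Finset.univ.erase (1 : D), (τ : N ≃ₐ[F] N) t := by
    rw [← Finset.mul_prod_erase Finset.univ _ (Finset.mem_univ (1 : D))]
    rfl
  have hval := val_prod (v := v) (Finset.univ : Finset D)
    (fun τ => (((τ : N ≃ₐ[F] N) t : N) : Ω)) fun τ _ => val_map hR.nonneg τ.2 ht h0 h1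
  refine ⟨∏ τ ∈ Finset.univ.erase (1 : D), (τ : N ≃ₐ[F] N) t,
    int_prod _ _ fun τ _ => int_map hR.frac.1 _ ht, ?_, ?_, ?_, ?_⟩
  · rw [← e]; exact int_prod _ _ fun τ _ => int_map hR.frac.1 _ ht
  · intro σ hσ
    rw [← e, _root_.map_prod]
    exact Fintype.prod_equiv (Equiv.mulLeft (⟨σ, hσ⟩ : D)) _ _ fun τ => rfl
  · rw [← e]; push_cast; exact hval.1
  · rw [← e]; push_cast; exact hval.2

/-- L0: an element of `CN` fixed by `DP ⊓ H` is a quotient of integral elements, the numerator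
fixed by `DP ⊓ H` and the denominator fixed by `DP`. -/
theorem CN_frac [FiniteDimensional F N] (hR : NRing v F R) (H : Subgroup (N ≃ₐ[F] N)) {a : N}
    (ha : (a : Ω) ∈ CN v R N) (haf : ∀ σ ∈ DP v R N hR.frac.1 ⊓ H, σ a = a) :
    ∃ s t : N, IsIntegral R (s : Ω) ∧ IsIntegral R (t : Ω) ∧
      (∀ σ ∈ DP v R N hR.frac.1 ⊓ H, σ s = s) ∧ (∀ σ ∈ DP v R N hR.frac.1, σ t = t) ∧
      (t : Ω) ≠ 0 ∧ v (t : Ω) = 0 ∧ a = s / t := by
  obtain ⟨s, hs, t, ht, ht0, ht1, hst⟩ := ha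
  let s' : N := ⟨s, hs.1⟩
  let t' : N := ⟨t, ht.1⟩
  obtain ⟨u, hu, h1, h2, h3, h4⟩ := exists_norm (N := N) hR (t := t') ht.2 ht0 ht1
  have ht'0 : t' ≠ 0 := fun h => ht0 (congrArg Subtype.val h)
  have hu0 : u ≠ 0 := by
    rintro rfl
    rw [mul_zero] at h3
    exact h3 rfl
  have hst' : a = s' / t' := Subtype.ext hst
  have e : a = (s' * u) / (t' * u) := by
    rw [hst', mul_div_mul_right _ _ hu0]
  refine ⟨s' * u, t' * u, ?_, h1, ?_, h2, h3, h4, e⟩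
  · rw [MulMemClass.coe_mul]; exact IsIntegral.mul hs.2 hu
  · intro σ hσ
    have e2 : s' * u = a * (t' * u) := by
      rw [e, div_mul_cancel₀ _ (mul_ne_zero ht'0 hu0)]
    rw [e2, _root_.map_mul, haf σ hσ, h2 σ hσ.1]

/-- The decomposition field of the centre. -/
noncomputable def FD {𝕂 : Type w} [Field 𝕂] [LinearOrder 𝕂]
    [IsStrictOrderedRing 𝕂] (v : OVal 𝕂 Ω) (R : Subalgebra k Ω) (N : IntermediateField F Ω)
    (hR : ∀ f ∈ R, f ∈ F) : IntermediateField k Ω := fixO F N (DP v R N hR)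

/-- The ring of the decomposition field. -/
noncomputable def RD {𝕂 : Type w} [Field 𝕂] [LinearOrder 𝕂]
    [IsStrictOrderedRing 𝕂] (v : OVal 𝕂 Ω) (R : Subalgebra k Ω) (N : IntermediateField F Ω)
    (hR : ∀ f ∈ R, f ∈ F) : Subalgebra k Ω := CN v R N ⊓ (FD v R N hR).toSubalgebra

theorem mem_RD {hR : ∀ f ∈ R, f ∈ F} {g : Ω} :
    g ∈ RD v R N hR ↔ g ∈ CN v R N ∧ g ∈ FD v R N hR := Iff.rfl

theorem le_RD {hR : ∀ f ∈ R, f ∈ F} : (R : Subalgebra k Ω) ≤ RD v R N hR := by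
  intro f hf
  refine ⟨intN_le_CN (le_intN hR hf), (mem_fixO F N _ f).2
    ⟨algebraMap F N ⟨f, hR f hf⟩, rfl, fun σ _ => σ.commutes _⟩⟩

/-- Evaluation at `θ` of an invariant polynomial with integral coefficients. -/
theorem eval_mem_adjoin [FiniteDimensional F N] [IsGalois F N] (hR : NRing v F R) {g : N[X]}
    (hg : PI R g) (hfix : ∀ σ : N ≃ₐ[F] N, g.map (σ : N →+* N) = g) (θ : N) :
    ((g.eval θ : N) : Ω) ∈ Algebra.adjoin k ((R : Set Ω) ∪ {(θ : Ω)}) := by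
  rw [eval_eq_sum_range]
  push_cast
  have hθ : (θ : Ω) ∈ Algebra.adjoin k ((R : Set Ω) ∪ {(θ : Ω)}) :=
    Algebra.subset_adjoin (Or.inr rfl)
  refine sum_mem fun i _ => mul_mem (Algebra.subset_adjoin (Or.inl ?_)) (pow_mem hθ i)
  exact hg.coeff_mem hR hfix i

/-- An integral element fixed by the decomposition group is in `R[θ]`, up to the unit
`du θ ⊤`. -/
theorem IsTheta.mul_mem_adjoin [FiniteDimensional F N] [IsGalois F N] (hR : NRing v F R) {θ : N}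
    (h : IsTheta v R N hR.frac.1 θ) {b : N} (hb : IsIntegral R (b : Ω))
    (hbf : ∀ σ ∈ DP v R N hR.frac.1, σ b = b) :
    ((b * IsTheta.du θ ⊤ : N) : Ω) ∈ Algebra.adjoin k ((R : Set Ω) ∪ {(θ : Ω)}) := by
  obtain ⟨g, hg, hgf, hge⟩ := h.lagrange ⊤ hb fun σ hσ => hbf σ hσ.1
  rw [← hge]
  exact eval_mem_adjoin hR hg (fun σ => hgf σ (Subgroup.mem_top σ)) θ

theorem IsTheta.du_mem [FiniteDimensional F N] [IsGalois F N] (hR : NRing v F R) {θ : N}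
    (h : IsTheta v R N hR.frac.1 θ) :
    (IsTheta.du θ ⊤ : Ω) ∈ Algebra.adjoin k ((R : Set Ω) ∪ {(θ : Ω)}) := by
  have := h.mul_mem_adjoin hR (b := 1) (by simpa using isIntegral_one)
    fun σ _ => _root_.map_one σ
  rwa [one_mul] at this

/-- Z1c: `R₂ = locv R[θ]`. -/
theorem IsTheta.RD_eq [FiniteDimensional F N] [IsGalois F N] (hR : NRing v F R) {θ : N}
    (h : IsTheta v R N hR.frac.1 θ) :
    RD v R N hR.frac.1 = locv v (Algebra.adjoin k ((R : Set Ω) ∪ {(θ : Ω)})) := by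
  apply le_antisymm
  · rintro a ⟨ha, ha2⟩
    obtain ⟨n, rfl, hn⟩ := (mem_fixO F N _ a).1 ha2
    obtain ⟨s, t, hs, ht, hsf, htf, ht0, ht1, rfl⟩ := CN_frac hR ⊤ ha fun σ hσ => hn σ hσ.1
    have hu := h.du_val ⊤
    have hsu := h.mul_mem_adjoin hR hs fun σ hσ => hsf σ ⟨hσ, Subgroup.mem_top σ⟩
    have htu := h.mul_mem_adjoin hR ht htf
    have hu0 : IsTheta.du θ ⊤ ≠ 0 := fun h0 => hu.1 (congrArg Subtype.val h0)
    refine ⟨_, hsu, _, htu, ?_, ?_, ?_⟩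
    · rw [MulMemClass.coe_mul]; exact mul_ne_zero ht0 hu.1
    · rw [MulMemClass.coe_mul, v.map_mul ht0 hu.1, ht1, hu.2, add_zero]
    · rw [← IntermediateField.coe_div, mul_div_mul_right _ _ hu0]
  · refine locv_le (Algebra.adjoin_le ?_) fun f hf h0 h1 => ?_
    · rintro f (hf | hf)
      · exact le_RD hf
      · rw [Set.mem_singleton_iff] at hf
        subst hf
        exact ⟨intN_le_CN ⟨θ.2, h.int⟩, (mem_fixO F N _ _).2 ⟨θ, rfl, h.fix⟩⟩
    · exact ⟨CN_inv hf.1 h0 h1, inv_mem (S := IntermediateField k Ω) hf.2⟩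

/-- The inverse of an element of value `0`. -/
theorem RD_inv {hR : ∀ f ∈ R, f ∈ F} {f : Ω} (hf : f ∈ RD v R N hR) (h0 : f ≠ 0)
    (h1 : v f = 0) : f⁻¹ ∈ RD v R N hR :=
  ⟨CN_inv hf.1 h0 h1, inv_mem (S := IntermediateField k Ω) hf.2⟩

/-- `θ - 1` is in `m_R R₂`. -/
theorem IsTheta.sub_one [FiniteDimensional F N] [IsGalois F N] (hR : NRing v F R) {θ : N}
    (h : IsTheta v R N hR.frac.1 θ) :
    ∃ r ∈ R, VPos v r ∧ ∃ b ∈ RD v R N hR.frac.1, (θ : Ω) - 1 = r * b := by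
  classical
  set D := DP v R N hR.frac.1 with hD
  set f : N[X] := ∏ t ∈ IsTheta.orb θ ⊤, (X - C t) with hf
  have hfint : PI R f := PI.prod _ _ fun t ht => PI.X_sub_C (h.int_orb ht)
  have hffix : ∀ σ : N ≃ₐ[F] N, f.map (σ : N →+* N) = f := by
    intro σ
    rw [hf, Polynomial.map_prod]
    refine Finset.prod_bij (fun t _ => σ t) ?_ ?_ ?_ ?_
    · intro t ht
      obtain ⟨τ, -, rfl⟩ := IsTheta.mem_orb.1 ht
      exact IsTheta.mem_orb.2 ⟨σ * τ, Subgroup.mem_top _, rfl⟩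
    · intro a _ b _ hab
      exact σ.injective hab
    · intro t ht
      obtain ⟨τ, -, rfl⟩ := IsTheta.mem_orb.1 ht
      refine ⟨(σ⁻¹ * τ) θ, IsTheta.mem_orb.2 ⟨σ⁻¹ * τ, Subgroup.mem_top _, rfl⟩, ?_⟩
      rw [← AlgEquiv.mul_apply, mul_inv_cancel_left]
    · intro t _
      simp
  have hf1 : f.eval 1 = (1 - θ) * IsTheta.du1 θ ⊤ := by
    rw [hf, eval_prod, ← Finset.mul_prod_erase _ _ (IsTheta.self_mem_orb (θ := θ) ⊤)]
    unfold IsTheta.du1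
    congr 1
    · simp
    · refine Finset.prod_congr rfl fun t _ => ?_
      simp
  have hr : ((f.eval 1 : N) : Ω) ∈ R := by
    rw [eval_eq_sum_range]
    push_cast
    refine sum_mem fun i _ => ?_
    rw [one_pow, mul_one]
    exact hfint.coeff_mem hR hffix i
  have hv : VPos v ((f.eval 1 : N) : Ω) := by
    rw [hf1, MulMemClass.coe_mul]
    refine VPos.mul ?_ (int_ge hR.nonneg (h.du1_int ⊤))
    push_cast
    have := h.one.neg
    rwa [neg_sub] at this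
  have hu := h.du1_val ⊤
  have hu0 : IsTheta.du1 θ ⊤ ≠ 0 := fun h0 => hu.1 (congrArg Subtype.val h0)
  have hmem : ((IsTheta.du1 θ ⊤ : N) : Ω) ∈ RD v R N hR.frac.1 :=
    ⟨intN_le_CN ⟨(IsTheta.du1 θ ⊤ : N).2, h.du1_int ⊤⟩,
      (mem_fixO F N _ _).2 ⟨_, rfl, fun σ hσ => h.du1_fix ⊤ ⟨hσ, Subgroup.mem_top σ⟩⟩⟩
  refine ⟨_, hr, hv, -((IsTheta.du1 θ ⊤ : N) : Ω)⁻¹, neg_mem (RD_inv hmem hu.1 hu.2), ?_⟩
  rw [hf1]
  push_cast
  field_simp [hu.1]
  ring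

/-- `m_{R₂} = m_R R₂`. -/
theorem RD_gen (h : Ctx0 k v nn) [FiniteDimensional F N] [IsGalois F N] (hR : NRing v F R) {a : Ω}
    (ha : a ∈ RD v R N hR.frac.1) (hv : VPos v a) :
    ∃ r₁ ∈ R, ∃ r₂ ∈ R, VPos v r₁ ∧ VPos v r₂ ∧ ∃ b₁ ∈ RD v R N hR.frac.1,
      ∃ b₂ ∈ RD v R N hR.frac.1, a = r₁ * b₁ + r₂ * b₂ := by
  obtain ⟨θ, hθ⟩ := exists_isTheta (N := N) h hR
  have hle : locv v (Algebra.adjoin k ((R : Set Ω) ∪ {(θ : Ω)})) = RD v R N hR.frac.1 :=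
    (hθ.RD_eq hR).symm
  obtain ⟨r, hr, hr0, b, hb, hrb⟩ := hθ.sub_one hR
  -- every element of `R[θ]` is an element of `R` plus a multiple of `θ - 1`
  have key : ∀ s ∈ Algebra.adjoin k ((R : Set Ω) ∪ {(θ : Ω)}), ∃ c ∈ R,
      ∃ z ∈ RD v R N hR.frac.1, s = c + ((θ : Ω) - 1) * z := by
    intro s hs
    induction hs using Algebra.adjoin_induction with
    | mem s hs =>
      rcases hs with hs | hs
      · exact ⟨s, hs, 0, zero_mem _, by ring⟩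
      · rw [Set.mem_singleton_iff] at hs
        exact ⟨1, one_mem _, 1, one_mem _, by rw [hs]; ring⟩
    | algebraMap c => exact ⟨_, R.algebraMap_mem c, 0, zero_mem _, by ring⟩
    | add x y _ _ hx hy =>
      obtain ⟨c, hc, z, hz, rfl⟩ := hx
      obtain ⟨c', hc', z', hz', rfl⟩ := hy
      exact ⟨c + c', add_mem hc hc', z + z', add_mem hz hz', by ring⟩
    | mul x y hx' hy' hx hy =>
      obtain ⟨c, hc, z, hz, rfl⟩ := hx
      obtain ⟨c', hc', z', hz', rfl⟩ := hy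
      have hθ1 : (θ : Ω) - 1 ∈ RD v R N hR.frac.1 := by
        rw [hrb]; exact mul_mem (le_RD hr) hb
      exact ⟨c * c', mul_mem hc hc', c * z' + c' * z + ((θ : Ω) - 1) * (z * z'),
        add_mem (add_mem (mul_mem (le_RD hc) hz') (mul_mem (le_RD hc') hz))
          (mul_mem hθ1 (mul_mem hz hz')), by ring⟩
  rw [← hle] at ha
  obtain ⟨s, hs, t, ht, ht0, ht1, rfl⟩ := ha
  obtain ⟨c, hc, z, hz, hsc⟩ := key s hs
  have htR : t ∈ RD v R N hR.frac.1 := by rw [← hle]; exact le_locv _ ht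
  have hti : t⁻¹ ∈ RD v R N hR.frac.1 := RD_inv htR ht0 ht1
  have hnn : ∀ f ∈ RD v R N hR.frac.1, v.Ge 0 f := fun f hf => CN_nonneg hR.nonneg f hf.1
  have hsv : VPos v s := by
    have : s = s / t * t := by rw [div_mul_cancel₀ _ ht0]
    rw [this]
    exact VPos.mul hv (hnn t htR)
  have hcv : VPos v c := by
    have : c = s - ((θ : Ω) - 1) * z := by rw [hsc]; ring
    rw [this]
    exact hsv.sub (VPos.mul hθ.one (hnn z hz))
  refine ⟨c, hc, r, hr, hcv, hr0, t⁻¹, hti, b * z * t⁻¹, mul_mem (mul_mem hb hz) hti, ?_⟩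
  rw [hsc, hrb]
  field_simp

end Pool.Agent.ALLZO
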